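import Mathlib

open Polynomial Matrix
open scoped Nat

namespace H23E

noncomputable section

variable {d : ℕ}

/-- The polynomial `(X - s_j)^(m-1) * ∏_{i ≠ j} (X - s_i)^m`. -/
def fp (s : Fin (d+1) → ℕ) (m : ℕ) (j : Fin (d+1)) : ℤ[X] :=
  (X - C (s j : ℤ))^(m-1) * ∏ i ∈ Finset.univ.erase j, (X - C (s i : ℤ))^m

lemma exists_entries (s : Fin (d+1) → ℕ) (m : ℕ) (hm : 0 < m) (j : Fin (d+1)) :
    ∃ a : Fin (d+1) → ℤ,
      (∀ i, (sumIDeriv (fp s m j)).eval (s i : ℤ) = ((m-1)! : ℤ) * a i) ∧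
      (∀ i, i ≠ j → (m:ℤ) ∣ a i) ∧
      ((m:ℤ) ∣ a j - ∏ i ∈ Finset.univ.erase j, ((s j : ℤ) - s i)^m) := by
  obtain ⟨gp, -, h⟩ := eval_sumIDeriv_of_pos (fp s m j) hm
  have hfac : ((m ! : ℕ) : ℤ) = ((m-1)! : ℤ) * m := by
    have : m ! = m * (m-1)! := by
      rw [Nat.mul_factorial_pred hm.ne']
    rw [this]; push_cast; ring
  refine ⟨fun i => if i = j then (∏ i ∈ Finset.univ.erase j, ((s j : ℤ) - s i)^m) +
      m * gp.eval (s j : ℤ) else m * gp.eval (s i : ℤ), ?_, ?_, ?_⟩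
  · intro i
    by_cases hij : i = j
    · subst hij
      have h1 := h (s i : ℤ) (p' := ∏ k ∈ Finset.univ.erase i, (X - C (s k : ℤ))^m) rfl
      rw [h1]
      simp only [if_true]
      rw [eval_prod]
      simp only [eval_pow, eval_sub, eval_X, eval_C, nsmul_eq_mul]
      rw [hfac]; ring
    · have hmem : i ∈ Finset.univ.erase j := by simp [hij]
      have hfp : fp s m j = (X - C (s i : ℤ))^(m-1) * ((X - C (s i : ℤ)) *
          ((X - C (s j : ℤ))^(m-1) * ∏ k ∈ (Finset.univ.erase j).erase i, (X - C (s k : ℤ))^m)) := by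
        unfold fp
        rw [← Finset.mul_prod_erase _ _ hmem]
        have : (X - C (s i : ℤ))^m = (X - C (s i : ℤ))^(m-1) * (X - C (s i : ℤ)) := by
          rw [← pow_succ, Nat.sub_add_cancel hm]
        rw [this]; ring
      have h1 := h (s i : ℤ) hfp
      rw [h1]
      simp only [if_neg hij]
      simp only [eval_mul, eval_pow, eval_sub, eval_X, eval_C, nsmul_eq_mul]
      rw [hfac]; ring
  · intro i hij
    simp only [if_neg hij]
    exact Dvd.intro _ rfl
  · simp

/-- The matrix of Hermite approximations. -/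
def Am (s : Fin (d+1) → ℕ) (m : ℕ) (hm : 0 < m) : Matrix (Fin (d+1)) (Fin (d+1)) ℤ :=
  fun j i => (exists_entries s m hm j).choose i

lemma Am_eval (s : Fin (d+1) → ℕ) (m : ℕ) (hm : 0 < m) (j i : Fin (d+1)) :
    (sumIDeriv (fp s m j)).eval (s i : ℤ) = ((m-1)! : ℤ) * Am s m hm j i :=
  (exists_entries s m hm j).choose_spec.1 i

lemma Am_det_ne (s : Fin (d+1) → ℕ) (hs : Function.Injective s) (W m q : ℕ) (hm : 0 < m)
    (hW : ∀ i, s i ≤ W) (hq : q.Prime) (hWq : W < q) (hqm : q ∣ m) :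
    (Am s m hm).det ≠ 0 := by
  haveI : Fact q.Prime := ⟨hq⟩
  intro h0
  have h1 : ((Am s m hm).map (Int.castRingHom (ZMod q))) =
      Matrix.diagonal (fun j => ∏ i ∈ Finset.univ.erase j, (((s j : ℕ) : ZMod q) - (s i : ℕ))^m) := by
    ext j i
    simp only [Matrix.map_apply, Matrix.diagonal_apply]
    by_cases hij : j = i
    · subst hij
      simp only [if_true]
      have h2 := (exists_entries s m hm j).choose_spec.2.2
      have h3 : (q:ℤ) ∣ Am s m hm j j - ∏ i ∈ Finset.univ.erase j, ((s j : ℤ) - s i)^m :=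
        (Int.natCast_dvd_natCast.mpr hqm).trans h2
      have h4 : ((Am s m hm j j - ∏ i ∈ Finset.univ.erase j, ((s j : ℤ) - s i)^m : ℤ) : ZMod q) = 0 :=
        (ZMod.intCast_zmod_eq_zero_iff_dvd _ _).mpr h3
      have h5 : ((Am s m hm j j : ℤ) : ZMod q) =
          ((∏ i ∈ Finset.univ.erase j, ((s j : ℤ) - s i)^m : ℤ) : ZMod q) := by
        rw [Int.cast_sub, sub_eq_zero] at h4
        exact h4
      simp only [eq_intCast]
      rw [h5]
      push_cast
      rfl
    · simp only [if_neg hij]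
      have h2 := (exists_entries s m hm j).choose_spec.2.1 i (Ne.symm hij)
      have h3 : (q:ℤ) ∣ Am s m hm j i := (Int.natCast_dvd_natCast.mpr hqm).trans h2
      simp only [eq_intCast]
      exact (ZMod.intCast_zmod_eq_zero_iff_dvd _ _).mpr h3
  have h2 : ((Am s m hm).map (Int.castRingHom (ZMod q))).det = 0 := by
    have := RingHom.map_det (Int.castRingHom (ZMod q)) (Am s m hm)
    rw [h0, map_zero] at this
    exact this.symm
  rw [h1, Matrix.det_diagonal] at h2
  rw [Finset.prod_eq_zero_iff] at h2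
  obtain ⟨j, -, hj⟩ := h2
  rw [Finset.prod_eq_zero_iff] at hj
  obtain ⟨i, hi, hij⟩ := hj
  have hne : i ≠ j := (Finset.mem_erase.mp hi).1
  have h3 := pow_eq_zero_iff (n := m) hm.ne' |>.mp hij
  rw [sub_eq_zero] at h3
  have h4 := (ZMod.natCast_eq_natCast_iff' _ _ _).mp h3
  rw [Nat.mod_eq_of_lt (lt_of_le_of_lt (hW j) hWq), Nat.mod_eq_of_lt (lt_of_le_of_lt (hW i) hWq)] at h4
  exact hne (hs h4.symm)

/-- replacing some row of an invertible integer matrix by a nonzero vector keeps it invertible -/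
lemma exists_updateRow_det_ne (A : Matrix (Fin (d+1)) (Fin (d+1)) ℤ) (hA : A.det ≠ 0)
    (b : Fin (d+1) → ℤ) (hb : b ≠ 0) : ∃ j, (A.updateRow j b).det ≠ 0 := by
  by_contra hcon
  push Not at hcon
  have h1 : cramer Aᵀ b = 0 := by
    ext j
    rw [cramer_transpose_apply]
    exact hcon j
  have h2 := mulVec_cramer Aᵀ b
  rw [h1, mulVec_zero, det_transpose] at h2
  apply hb
  ext i
  have h3 := congrFun h2 i
  simp only [Pi.zero_apply, Pi.smul_apply, smul_eq_mul] at h3
  have := mul_eq_zero.mp h3.symm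
  rcases this with h | h
  · exact absurd h hA
  · exact h

end

end H23E
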