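import Pool.Agent.Lib.MP_2ecc60_nt_h23.UnifCount

open Filter Topology
open scoped Nat

namespace H23E

noncomputable section

lemma loglog_mono (x y : ℝ) (hx : Real.exp 1 ≤ x) (hxy : x ≤ y) : Real.log y / y ≤ Real.log x / x :=
  Real.log_div_self_antitoneOn hx (hx.trans hxy) hxy

open scoped Classical in
theorem almost_all (lam : ℝ) (hlam : lam ≠ 0) (K : ℝ) (hK : 0 < K) :
    ∃ C : ℝ, ∃ N₀ : ℕ, ∀ N ≥ N₀,
      (((Finset.range (N+1)).filter (fun n : ℕ =>
        |lam * Real.exp n - round (lam * Real.exp n)| <
          Real.exp (-(K * n * Real.log (Real.log n) / Real.log n)))).card : ℝ) ≤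
        C * (N * (Real.log N)^(1-K/16)) := by
  obtain ⟨C, hC⟩ := count_unif3 lam hlam
  have hlogn : Tendsto (fun n : ℕ => Real.log (n:ℝ)) atTop atTop :=
    Real.tendsto_log_atTop.comp tendsto_natCast_atTop_atTop
  have e1 : ∀ᶠ x : ℝ in atTop, Real.log x ≤ (1/K) * x := by
    have h2 := Real.isLittleO_log_id_atTop.def (c := 1/K) (by positivity)
    filter_upwards [h2, eventually_ge_atTop 1] with z hz hz3
    rw [Real.norm_eq_abs, Real.norm_eq_abs, abs_of_nonneg (Real.log_nonneg hz3)] at hz
    simp only [id] at hz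
    rwa [abs_of_nonneg (by linarith)] at hz
  have e2 : ∀ᶠ x : ℝ in atTop, x^(K/16) ≤ Real.exp x := by
    have h1 := (isLittleO_rpow_exp_atTop (K/16)).def (c := 1) one_pos
    filter_upwards [h1, eventually_ge_atTop 1] with x hx hx1
    rw [Real.norm_eq_abs, Real.norm_eq_abs, abs_of_nonneg (by positivity),
      abs_of_nonneg (Real.exp_pos _).le, one_mul] at hx
    exact hx
  obtain ⟨N₀, hN₀⟩ := eventually_atTop.mp ((hlogn.eventually e1).and
    ((hlogn.eventually_ge_atTop 3).and (hlogn.eventually e2)))
  refine ⟨|C|/K + 21, N₀ + 1, fun N hN => ?_⟩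
  obtain ⟨h1, h3, h2⟩ := hN₀ N (by omega)
  set L := Real.log (N:ℝ) with hL
  set LL := Real.log L with hLL
  have hN1 : 1 ≤ N := by omega
  have hNR : (0:ℝ) < N := by exact_mod_cast (by omega : 0 < N)
  have hL0 : 0 < L := by linarith
  have hLL1 : 1 ≤ LL := by
    rw [hLL, Real.le_log_iff_exp_le hL0]
    have := Real.exp_one_lt_d9
    linarith
  set c := K * LL / L with hc
  have hc0 : 0 < c := by positivity
  have hc1 : c ≤ 1 := by
    rw [hc, div_le_one hL0]
    have : K * LL ≤ K * ((1/K) * L) := mul_le_mul_of_nonneg_left h1 hK.le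
    have h4 : K * ((1/K) * L) = L := by field_simp
    linarith
  have hmain := hC c hc0 hc1 N hN1
  -- comparison of the sets
  have hsub : (Finset.range (N+1)).filter (fun n : ℕ =>
        |lam * Real.exp n - round (lam * Real.exp n)| <
          Real.exp (-(K * n * Real.log (Real.log n) / Real.log n))) ⊆
      Finset.range 21 ∪ (Finset.range (N+1)).filter (fun n : ℕ =>
        |lam * Real.exp n - round (lam * Real.exp n)| < Real.exp (-(c * n))) := by
    intro n hn
    rw [Finset.mem_filter] at hn
    rw [Finset.mem_union, Finset.mem_filter, Finset.mem_range]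
    by_cases hlt : n < 21
    · exact Or.inl hlt
    · right
      refine ⟨hn.1, hn.2.trans_le ?_⟩
      apply Real.exp_le_exp.mpr
      have hnN : n ≤ N := by have := Finset.mem_range.mp hn.1; omega
      have hn21 : (21:ℝ) ≤ n := by exact_mod_cast (by omega : 21 ≤ n)
      have hln : Real.exp 1 ≤ Real.log n := by
        have h5 : Real.exp 1 ≤ 3 := by have := Real.exp_one_lt_d9; linarith
        have h6 : (3:ℝ) ≤ Real.log n := by
          rw [Real.le_log_iff_exp_le (by linarith)]
          have h7 : Real.exp 3 = (Real.exp 1)^3 := by rw [← Real.exp_nat_mul]; norm_num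
          have h8 : (Real.exp 1)^3 ≤ (2.7182818286:ℝ)^3 :=
            pow_le_pow_left₀ (Real.exp_pos _).le Real.exp_one_lt_d9.le 3
          rw [h7]
          refine h8.trans ?_
          norm_num
          linarith
        linarith
      have hmono := loglog_mono (Real.log n) L hln
        (Real.log_le_log (by linarith) (by exact_mod_cast hnN))
      have h9 : c * n = K * n * (LL / L) := by rw [hc]; ring
      have h10 : K * n * Real.log (Real.log n) / Real.log n =
          K * n * (Real.log (Real.log n) / Real.log n) := by ring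
      rw [h9, h10]
      have h11 : 0 ≤ K * (n:ℝ) := by positivity
      have := mul_le_mul_of_nonneg_left hmono h11
      linarith
  have hcard := (Finset.card_le_card hsub).trans (Finset.card_union_le _ _)
  rw [Finset.card_range] at hcard
  have hcardR : (((Finset.range (N+1)).filter (fun n : ℕ =>
        |lam * Real.exp n - round (lam * Real.exp n)| <
          Real.exp (-(K * n * Real.log (Real.log n) / Real.log n)))).card : ℝ) ≤
      21 + C / c * (N:ℝ)^(1-c/16) := by
    refine le_trans (b := ((21 + ((Finset.range (N+1)).filter (fun n : ℕ =>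
        |lam * Real.exp n - round (lam * Real.exp n)| < Real.exp (-(c * n)))).card : ℕ) : ℝ))
        (by exact_mod_cast hcard) ?_
    push_cast
    linarith
  refine hcardR.trans ?_
  -- N^(1-c/16) = N (log N)^(-K/16)
  have hpow : (N:ℝ)^(1-c/16) = N * L^(-(K/16)) := by
    rw [Real.rpow_def_of_pos hNR, Real.rpow_def_of_pos hL0, ← hL, ← hLL]
    have h4 : (N:ℝ) = Real.exp L := (Real.exp_log hNR).symm
    conv_rhs => rw [h4]
    rw [← Real.exp_add]
    congr 1
    rw [hc]; field_simp; ring
  have hsplit : L^(1-K/16) = L * L^(-(K/16)) := by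
    rw [sub_eq_add_neg, Real.rpow_add hL0, Real.rpow_one]
  have hz : 0 < L^(-(K/16)) := by positivity
  have hNz : 1 ≤ N * L^(1-K/16) := by
    rw [hsplit]
    have h5 : L^(K/16) ≤ N := by
      have h4 : (N:ℝ) = Real.exp L := (Real.exp_log hNR).symm
      rw [h4]; exact h2
    have h6 : L^(K/16) * L^(-(K/16)) = 1 := by
      rw [← Real.rpow_add hL0]; simp
    have h7 : 1 ≤ N * L^(-(K/16)) := by
      rw [← h6]; exact mul_le_mul_of_nonneg_right h5 hz.le
    have h8 : N * (L * L^(-(K/16))) = L * (N * L^(-(K/16))) := by ring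
    rw [h8]
    nlinarith
  have hCc : C / c * (N:ℝ)^(1-c/16) ≤ |C| / K * (N * L^(1-K/16)) := by
    rw [hpow, hsplit]
    have h5 : C / c ≤ |C| / K * L := by
      rw [hc, div_div_eq_mul_div, div_le_iff₀ (by positivity)]
      have h6 : |C| / K * L * (K * LL) = |C| * L * LL := by field_simp
      rw [h6]
      have h7 : C * L ≤ |C| * L := mul_le_mul_of_nonneg_right (le_abs_self C) hL0.le
      have h8 : 0 ≤ |C| * L := by positivity
      nlinarith
    have h6 : 0 ≤ N * L^(-(K/16)) := by positivity
    calc C / c * (N * L^(-(K/16))) ≤ (|C| / K * L) * (N * L^(-(K/16))) :=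
          mul_le_mul_of_nonneg_right h5 h6
      _ = _ := by ring
  linarith

end

end H23E
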