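import Pool.Agent.Lib.MP_2ecc60_nt_h23.Alg

open Polynomial Matrix
open scoped Nat

namespace H23E

noncomputable section

lemma hasDerivAt_aux (p : ℝ[X]) (x : ℝ) :
    HasDerivAt (fun x : ℝ => -(Real.exp (-x) * (sumIDeriv p).eval x))
      (Real.exp (-x) * p.eval x) x := by
  have h1 : HasDerivAt (fun x : ℝ => Real.exp (-x)) (Real.exp (-x) * (-1)) x :=
    (hasDerivAt_neg x).exp
  have h2 := (sumIDeriv p).hasDerivAt x
  have h3 := (h1.mul h2).neg
  refine h3.congr_deriv ?_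
  have h4 : (sumIDeriv p).eval x = p.eval x + (derivative (sumIDeriv p)).eval x := by
    conv_lhs => rw [sumIDeriv_eq_self_add p]
    rw [eval_add]
  rw [h4]; ring

lemma exp_sub_le (p : ℝ[X]) (S M : ℝ) (hS : 0 ≤ S)
    (hM : ∀ x ∈ Set.Icc 0 S, |p.eval x| ≤ M) :
    |Real.exp S * (sumIDeriv p).eval 0 - (sumIDeriv p).eval S| ≤ Real.exp S * (S * M) := by
  have hM0 : 0 ≤ M := (abs_nonneg _).trans (hM 0 ⟨le_rfl, hS⟩)
  have key : ‖(-(Real.exp (-S) * (sumIDeriv p).eval S)) - (-(Real.exp (-0) * (sumIDeriv p).eval 0))‖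
      ≤ M * ‖S - 0‖ := by
    refine (convex_Icc (0:ℝ) S).norm_image_sub_le_of_norm_hasDerivWithin_le
      (f := fun x : ℝ => -(Real.exp (-x) * (sumIDeriv p).eval x))
      (f' := fun x : ℝ => Real.exp (-x) * p.eval x) ?_ ?_ ⟨le_rfl, hS⟩ ⟨hS, le_rfl⟩
    · intro x _
      exact (hasDerivAt_aux p x).hasDerivWithinAt
    · intro x hx
      rw [norm_mul, Real.norm_eq_abs, Real.norm_eq_abs, abs_of_pos (Real.exp_pos _)]
      have h1 : Real.exp (-x) ≤ 1 := Real.exp_le_one_iff.mpr (by linarith [hx.1])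
      calc Real.exp (-x) * |p.eval x| ≤ 1 * M :=
            mul_le_mul h1 (hM x hx) (abs_nonneg _) zero_le_one
        _ = M := one_mul M
  rw [Real.norm_eq_abs, Real.norm_eq_abs, sub_zero, abs_of_nonneg hS] at key
  have h1 : Real.exp S * (sumIDeriv p).eval 0 - (sumIDeriv p).eval S =
      Real.exp S * ((-(Real.exp (-S) * (sumIDeriv p).eval S)) -
        (-(Real.exp (-0) * (sumIDeriv p).eval 0))) := by
    have h2 : Real.exp S * Real.exp (-S) = 1 := by rw [← Real.exp_add]; simp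
    rw [neg_zero, Real.exp_zero]
    calc _ = Real.exp S * (sumIDeriv p).eval 0 - (Real.exp S * Real.exp (-S)) * (sumIDeriv p).eval S := by
          rw [h2]; ring
      _ = _ := by ring
  rw [h1, abs_mul, abs_of_pos (Real.exp_pos _)]
  refine mul_le_mul_of_nonneg_left ?_ (Real.exp_pos _).le
  linarith [key]

def Dom (p q : ℤ[X]) : Prop := ∀ k, |p.coeff k| ≤ q.coeff k

lemma Dom.mul {p q p' q' : ℤ[X]} (h : Dom p q) (h' : Dom p' q') : Dom (p * p') (q * q') := by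
  intro k
  rw [coeff_mul, coeff_mul]
  refine (Finset.abs_sum_le_sum_abs _ _).trans (Finset.sum_le_sum fun x _ => ?_)
  rw [abs_mul]
  exact mul_le_mul (h _) (h' _) (abs_nonneg _) ((abs_nonneg _).trans (h _))

lemma Dom.one : Dom 1 1 := by
  intro k
  rw [coeff_one]
  split_ifs <;> simp

lemma Dom.pow {p q : ℤ[X]} (h : Dom p q) (n : ℕ) : Dom (p ^ n) (q ^ n) := by
  induction n with
  | zero => simpa using Dom.one
  | succ n ih => rw [pow_succ, pow_succ]; exact ih.mul h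

lemma Dom.prod {ι : Type*} (t : Finset ι) {p q : ι → ℤ[X]} (h : ∀ i ∈ t, Dom (p i) (q i)) :
    Dom (∏ i ∈ t, p i) (∏ i ∈ t, q i) := by
  classical
  induction t using Finset.induction_on with
  | empty => simpa using Dom.one
  | insert a t ha ih =>
    rw [Finset.prod_insert ha, Finset.prod_insert ha]
    exact (h a (Finset.mem_insert_self _ _)).mul
      (ih fun i hi => h i (Finset.mem_insert_of_mem hi))

lemma eval_zero_sumIDeriv (p : ℤ[X]) (D : ℕ) (hD : p.natDegree ≤ D) :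
    (sumIDeriv p).eval 0 = ∑ k ∈ Finset.range (D+1), (k ! : ℤ) * p.coeff k := by
  rw [sumIDeriv_apply_of_le hD, eval_finset_sum]
  refine Finset.sum_congr rfl fun k _ => ?_
  rw [← coeff_zero_eq_eval_zero, coeff_iterate_derivative]
  simp [Nat.descFactorial_self]

variable {d : ℕ}

lemma natDegree_X_sub_pow (c : ℤ) (n : ℕ) : ((X - C c)^n : ℤ[X]).natDegree ≤ n := by
  refine (natDegree_pow_le).trans ?_
  rw [natDegree_X_sub_C]; simp

lemma fp_natDegree (s : Fin (d+1) → ℕ) (m : ℕ) (j : Fin (d+1)) :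
    (fp s m j).natDegree ≤ (m-1) + d * m := by
  unfold fp
  refine natDegree_mul_le.trans (add_le_add (natDegree_X_sub_pow _ _) ?_)
  refine (natDegree_prod_le _ _).trans ?_
  refine (Finset.sum_le_sum (fun i _ => natDegree_X_sub_pow _ _)).trans ?_
  rw [Finset.sum_const, Finset.card_erase_of_mem (Finset.mem_univ _), Finset.card_univ,
    Fintype.card_fin, smul_eq_mul]
  simp

lemma Dom.X_sub_le (c W : ℕ) (h : c ≤ W) : Dom (X - C (c : ℤ)) (X + C (W : ℤ)) := by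
  intro k
  rw [coeff_sub, coeff_add, coeff_C, coeff_C, coeff_X]
  have hc : (c:ℤ) ≤ W := by exact_mod_cast h
  split_ifs <;> first | omega | simp [h]

lemma fp_dom2 (s : Fin (d+1) → ℕ) (m W : ℕ) (hW : ∀ i, s i ≤ W) (j : Fin (d+1)) :
    Dom (fp s m j) ((X + C (W:ℤ))^((m-1) + d*m)) := by
  have h1 : Dom (fp s m j) ((X + C (W:ℤ))^(m-1) * ∏ i ∈ Finset.univ.erase j, (X + C (W:ℤ))^m) :=
    ((Dom.X_sub_le _ _ (hW j)).pow _).mul (Dom.prod _ fun i _ => (Dom.X_sub_le _ _ (hW i)).pow _)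
  have h2 : (X + C (W:ℤ))^(m-1) * ∏ i ∈ Finset.univ.erase j, (X + C (W:ℤ))^m =
      (X + C (W:ℤ))^((m-1) + d*m) := by
    rw [Finset.prod_const, Finset.card_erase_of_mem (Finset.mem_univ _), Finset.card_univ,
      Fintype.card_fin, ← pow_mul, ← pow_add, Nat.add_sub_cancel, mul_comm m d]
  rwa [h2] at h1

/-- size of the first column, sharp form -/
def bigA2 (d W m : ℕ) : ℝ := (((m-1) + d*m)! : ℝ) * Real.exp W / (m-1)!

lemma F_zero_le2 (s : Fin (d+1) → ℕ) (m W : ℕ) (hW : ∀ i, s i ≤ W) (j : Fin (d+1)) :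
    |(((sumIDeriv (fp s m j)).eval 0 : ℤ) : ℝ)| ≤ (((m-1) + d*m)! : ℝ) * Real.exp W := by
  rw [eval_zero_sumIDeriv _ _ (fp_natDegree s m j)]
  set D := (m-1) + d*m with hD
  push_cast
  refine (Finset.abs_sum_le_sum_abs _ _).trans ?_
  have h1 : ∀ k ∈ Finset.range (D+1), |(k ! : ℝ) * ((fp s m j).coeff k : ℝ)| ≤
      (D ! : ℝ) * ((W:ℝ)^(D-k) / ((D-k)! : ℝ)) := by
    intro k hk
    have hkD : k ≤ D := by have := Finset.mem_range.mp hk; omega
    rw [abs_mul, abs_of_nonneg (by positivity : (0:ℝ) ≤ (k ! : ℝ))]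
    have h2 := fp_dom2 s m W hW j k
    rw [← hD, coeff_X_add_C_pow] at h2
    have h3 : |((fp s m j).coeff k : ℝ)| ≤ (W:ℝ)^(D-k) * (D.choose k : ℝ) := by
      exact_mod_cast h2
    have h4 : (k ! : ℝ) * ((W:ℝ)^(D-k) * (D.choose k : ℝ)) =
        (D ! : ℝ) * ((W:ℝ)^(D-k) / ((D-k)! : ℝ)) := by
      have h5 : (D ! : ℝ) = (D.choose k : ℝ) * (k ! : ℝ) * ((D-k)! : ℝ) := by
        exact_mod_cast (Nat.choose_mul_factorial_mul_factorial hkD).symm
      have h6 : ((D-k)! : ℝ) ≠ 0 := by positivity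
      rw [h5]; field_simp
    rw [← h4]
    exact mul_le_mul_of_nonneg_left h3 (by positivity)
  refine (Finset.sum_le_sum h1).trans ?_
  rw [← Finset.mul_sum]
  apply mul_le_mul_of_nonneg_left _ (by positivity)
  have h2 := Finset.sum_range_reflect (fun k => (W:ℝ)^k / (k ! : ℝ)) (D+1)
  have h3 : ∑ k ∈ Finset.range (D+1), (W:ℝ)^(D-k) / ((D-k)! : ℝ) =
      ∑ k ∈ Finset.range (D+1), (W:ℝ)^k / (k ! : ℝ) := by
    rw [← h2]
    refine Finset.sum_congr rfl fun k _ => ?_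
    have : D + 1 - 1 - k = D - k := by omega
    rw [this]
  rw [h3]
  exact Real.sum_le_exp_of_nonneg (by positivity) _

lemma Am_zero_le2 (s : Fin (d+1) → ℕ) (m W : ℕ) (hm : 0 < m) (hW : ∀ i, s i ≤ W) (h0 : s 0 = 0)
    (j : Fin (d+1)) : |(Am s m hm j 0 : ℝ)| ≤ bigA2 d W m := by
  have h1 := Am_eval s m hm j 0
  rw [h0] at h1
  have h2 := F_zero_le2 s m W hW j
  rw [Nat.cast_zero] at h1
  rw [h1] at h2
  push_cast at h2
  rw [abs_mul, abs_of_nonneg (by positivity : (0:ℝ) ≤ ((m-1)! : ℝ))] at h2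
  unfold bigA2
  rw [le_div_iff₀ (by positivity), mul_comm]
  exact h2

lemma fp_real_le (s : Fin (d+1) → ℕ) (m W : ℕ) (hW : ∀ i, s i ≤ W) (j : Fin (d+1)) (x : ℝ)
    (hx0 : 0 ≤ x) (hxW : x ≤ W) :
    |((fp s m j).map (Int.castRingHom ℝ)).eval x| ≤ (W:ℝ)^((m-1) + d*m) := by
  have hb : ∀ i, |x - (s i : ℝ)| ≤ W := by
    intro i
    have h1 : (s i : ℝ) ≤ W := by exact_mod_cast hW i
    have h2 : (0:ℝ) ≤ s i := by positivity
    rw [abs_le]; constructor <;> linarith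
  unfold fp
  rw [Polynomial.map_mul, Polynomial.map_prod, eval_mul, eval_prod, abs_mul, Finset.abs_prod]
  simp only [Polynomial.map_pow, Polynomial.map_sub, map_X, map_C, eval_pow, eval_sub, eval_X, eval_C,
    abs_pow]
  simp only [eq_intCast, Int.cast_natCast]
  rw [pow_add]
  refine mul_le_mul ?_ ?_ ?_ (by positivity)
  · exact pow_le_pow_left₀ (abs_nonneg _) (hb j) _
  · calc ∏ i ∈ Finset.univ.erase j, |x - (s i : ℝ)|^m ≤ ∏ i ∈ Finset.univ.erase j, (W:ℝ)^m := by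
          refine Finset.prod_le_prod (fun i _ => by positivity) (fun i _ => ?_)
          exact pow_le_pow_left₀ (abs_nonneg _) (hb i) _
      _ = _ := by
          rw [Finset.prod_const, Finset.card_erase_of_mem (Finset.mem_univ _), Finset.card_univ,
            Fintype.card_fin, ← pow_mul]
          congr 1
          simp [mul_comm]
  · exact Finset.prod_nonneg fun i _ => by positivity

/-- size of the small entries -/
def rho (d W m : ℕ) : ℝ := Real.exp W * (W * (W:ℝ)^((m-1) + d*m)) / (m-1)!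

lemma Am_small (s : Fin (d+1) → ℕ) (m W : ℕ) (hm : 0 < m) (hW : ∀ i, s i ≤ W) (h0 : s 0 = 0)
    (j i : Fin (d+1)) :
    |Real.exp (s i) * (Am s m hm j 0 : ℝ) - (Am s m hm j i : ℝ)| ≤ rho d W m := by
  set p : ℝ[X] := (fp s m j).map (Int.castRingHom ℝ) with hp
  have hF : ∀ k : ℕ, (sumIDeriv p).eval (k:ℝ) = (((sumIDeriv (fp s m j)).eval (k : ℤ) : ℤ) : ℝ) := by
    intro k
    rw [hp, sumIDeriv_map, eval_map, eval₂_at_natCast]
    simp
  have h1 := exp_sub_le p (s i) ((W:ℝ)^((m-1) + d*m)) (by positivity) (fun x hx =>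
    fp_real_le s m W hW j x hx.1 (hx.2.trans (by exact_mod_cast hW i)))
  have hF0 := hF 0
  rw [Nat.cast_zero, Nat.cast_zero] at hF0
  have e0 := Am_eval s m hm j 0
  rw [h0, Nat.cast_zero] at e0
  rw [hF (s i), hF0, e0, Am_eval s m hm j i] at h1
  push_cast at h1
  unfold rho
  rw [le_div_iff₀ (by positivity)]
  have h2 : |Real.exp (s i) * (Am s m hm j 0 : ℝ) - (Am s m hm j i : ℝ)| * ((m-1)! : ℝ) =
      |Real.exp (s i) * (((m-1)! : ℝ) * (Am s m hm j 0 : ℝ)) - ((m-1)! : ℝ) * (Am s m hm j i : ℝ)| := by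
    rw [← abs_of_nonneg (by positivity : (0:ℝ) ≤ ((m-1)! : ℝ)), ← abs_mul]
    rw [abs_of_nonneg (by positivity : (0:ℝ) ≤ ((m-1)! : ℝ))]
    congr 1; ring
  rw [h2]
  refine h1.trans ?_
  have h3 : (s i : ℝ) ≤ W := by exact_mod_cast hW i
  gcongr

end

end H23E
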