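import Mathlib

open Filter Topology
open scoped Nat

namespace H23E

noncomputable section

lemma fact_lower (m : ℕ) (hm : 0 < m) :
    Real.exp (m * Real.log m - 2 * m) ≤ ((m-1)! : ℝ) := by
  have hm0 : (0:ℝ) < m := by exact_mod_cast hm
  have h1 := Real.pow_div_factorial_le_exp (m:ℝ) hm0.le m
  have h2 : (m ! : ℝ) = m * ((m-1)! : ℝ) := by
    rw [← Nat.mul_factorial_pred hm.ne']; push_cast; ring
  have h3 : (m:ℝ) ≤ Real.exp m := by linarith [Real.add_one_le_exp (m:ℝ)]
  have h4 : (m:ℝ)^m = Real.exp (m * Real.log m) := by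
    rw [mul_comm, Real.exp_mul, Real.exp_log hm0, Real.rpow_natCast]
  have hf : (0:ℝ) < ((m-1)! : ℝ) := by positivity
  rw [div_le_iff₀ (by positivity), h2, h4] at h1
  have h5 : Real.exp (m * Real.log m - 2 * m) = Real.exp (m * Real.log m) / (Real.exp m * Real.exp m) := by
    rw [← Real.exp_add, ← Real.exp_sub]; congr 1; ring
  rw [h5, div_le_iff₀ (by positivity)]
  refine h1.trans ?_
  have : Real.exp m * (m * ((m-1)! : ℝ)) ≤ Real.exp m * (Real.exp m * ((m-1)! : ℝ)) := by gcongr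
  linarith [this]

lemma pow_eq_exp (V : ℕ) (hV : 0 < V) (k : ℕ) : (V:ℝ)^k = Real.exp (k * Real.log V) := by
  have h : (0:ℝ) < V := by exact_mod_cast hV
  rw [mul_comm, Real.exp_mul, Real.exp_log h, Real.rpow_natCast]

lemma pow_div_fact_le (W S : ℕ) (hW : 1 ≤ W) (hS : 1 ≤ S) :
    (W:ℝ)^S / (S ! : ℝ) ≤ Real.exp (S * (1 + Real.log W - Real.log S)) := by
  have h1 := Real.pow_div_factorial_le_exp (S:ℝ) (by positivity) S
  have hS0 : (0:ℝ) < S := by exact_mod_cast hS
  rw [div_le_iff₀ (by positivity)] at h1 ⊢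
  have h2 : Real.exp (S * (1 + Real.log W - Real.log S)) = Real.exp S * (W:ℝ)^S / (S:ℝ)^S := by
    rw [pow_eq_exp W (by omega), pow_eq_exp S (by omega), ← Real.exp_add, ← Real.exp_sub]
    congr 1; ring
  rw [h2]
  have h3 : (0:ℝ) < (S:ℝ)^S := by positivity
  have h4 : (0:ℝ) ≤ (W:ℝ)^S := by positivity
  rw [div_mul_eq_mul_div, le_div_iff₀ h3]
  calc (W:ℝ)^S * (S:ℝ)^S ≤ (W:ℝ)^S * (Real.exp S * (S ! : ℝ)) := mul_le_mul_of_nonneg_left h1 h4
    _ = _ := by ring

lemma log_fact_ge (S : ℕ) (hS : 1 ≤ S) : S * (Real.log S - 1) ≤ Real.log (S ! : ℝ) := by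
  have h1 := Real.pow_div_factorial_le_exp (S:ℝ) (by positivity) S
  have hS0 : (0:ℝ) < S := by exact_mod_cast hS
  rw [div_le_iff₀ (by positivity)] at h1
  have h2 := Real.log_le_log (by positivity) h1
  rw [Real.log_pow, Real.log_mul (by positivity) (by positivity), Real.log_exp] at h2
  linarith

lemma rnd_ne_zero (lam x : ℝ) (h : 1 ≤ |lam| * Real.exp x) : round (lam * Real.exp x) ≠ 0 := by
  intro h0
  have h1 := abs_sub_round (lam * Real.exp x)
  rw [h0, Int.cast_zero, sub_zero, abs_mul, abs_of_pos (Real.exp_pos _)] at h1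
  linarith

lemma rnd_abs_le (lam x : ℝ) (hx : 0 ≤ x) :
    |((round (lam * Real.exp x) : ℤ) : ℝ)| ≤ Real.exp (x + Real.log (|lam| + 1)) := by
  have h1 := abs_sub_round (lam * Real.exp x)
  have h0 : 0 ≤ |lam| := abs_nonneg _
  have h2 : |((round (lam * Real.exp x) : ℤ) : ℝ)| ≤ |lam| * Real.exp x + 1/2 := by
    calc |((round (lam * Real.exp x) : ℤ) : ℝ)| =
          |(lam * Real.exp x) - (lam * Real.exp x - round (lam * Real.exp x))| := by ring_nf
      _ ≤ |lam * Real.exp x| + |lam * Real.exp x - round (lam * Real.exp x)| := abs_sub _ _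
      _ ≤ _ := by rw [abs_mul, abs_of_pos (Real.exp_pos _)]; linarith
  rw [Real.exp_add, Real.exp_log (by linarith)]
  have h3 : (1:ℝ) ≤ Real.exp x := Real.one_le_exp hx
  nlinarith

lemma two_exp_le_one (z : ℝ) (hz : z ≤ -1) : 2 * Real.exp z ≤ 1 := by
  have h2 : (2:ℝ) ≤ Real.exp (-z) := by
    have := Real.add_one_le_exp (-z); linarith
  have h3 : Real.exp z * Real.exp (-z) = 1 := by
    rw [← Real.exp_add]; simp
  have h4 := Real.exp_pos z
  nlinarith

lemma rnd_close (lam y : ℝ) (n W : ℕ)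
    (hb1 : |lam * Real.exp n - round (lam * Real.exp n)| < Real.exp (-y))
    (hb2 : |lam * Real.exp ((n + W : ℕ):ℝ) - round (lam * Real.exp ((n + W : ℕ):ℝ))| <
      Real.exp (-y)) :
    |((round (lam * Real.exp ((n + W : ℕ):ℝ)) : ℤ) : ℝ) -
      ((round (lam * Real.exp n) : ℤ) : ℝ) * Real.exp W| ≤ 2 * Real.exp (W - y) := by
  set p : ℝ := ((round (lam * Real.exp ((n + W : ℕ):ℝ)) : ℤ) : ℝ) with hp
  set q : ℝ := ((round (lam * Real.exp n) : ℤ) : ℝ) with hq
  have hexpnW : Real.exp ((n + W : ℕ):ℝ) = Real.exp n * Real.exp W := by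
    push_cast; exact Real.exp_add _ _
  have h1 : p - q * Real.exp W = Real.exp W * (lam * Real.exp n - q) -
      (lam * Real.exp ((n + W : ℕ):ℝ) - p) := by
    rw [hexpnW]; ring
  rw [h1]
  have h2 : Real.exp (W - y) = Real.exp W * Real.exp (-y) := by
    rw [← Real.exp_add]; congr 1
  have h3 : (1:ℝ) ≤ Real.exp W := Real.one_le_exp (by positivity)
  refine (abs_sub _ _).trans ?_
  rw [abs_mul, abs_of_pos (Real.exp_pos _), h2]
  have h4 := Real.exp_pos (-y)
  nlinarith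

lemma mu_abs_le (lam : ℝ) (k n W : ℕ) (h : k ≤ n + W) :
    |lam * Real.exp k| + 1 ≤ Real.exp (Real.log (|lam| + 1) + n + W) := by
  have h00 : 0 ≤ |lam| := abs_nonneg _
  have h0 : Real.exp (Real.log (|lam| + 1) + n + W) = (|lam| + 1) * Real.exp (n + W) := by
    rw [add_assoc, Real.exp_add, Real.exp_log (by linarith)]
  rw [h0, abs_mul, abs_of_pos (Real.exp_pos _)]
  have h1 : (k : ℝ) ≤ n + W := by exact_mod_cast h
  have h2 : Real.exp k ≤ Real.exp (n + W) := Real.exp_le_exp.mpr h1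
  have h3 : (1:ℝ) ≤ Real.exp (n + W) := Real.one_le_exp (by positivity)
  nlinarith

lemma log_four_le : Real.log 4 ≤ 2 := by
  have h : Real.log 4 = 2 * Real.log 2 := by
    rw [show (4:ℝ) = 2^2 by norm_num, Real.log_pow]; norm_num
  have := Real.log_two_lt_d9
  linarith

lemma exp_neg_log_four : Real.exp (-Real.log 4) = 1/4 := by
  rw [Real.exp_neg, Real.exp_log (by norm_num)]; norm_num

end

end H23E
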