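import Pool.Agent.Lib.MP_2ecc60_nt_h23.An

open Polynomial Matrix
open scoped Nat

namespace H23E

noncomputable section

lemma abs_det_le {n : ℕ} (B : Matrix (Fin n) (Fin n) ℝ) (r c : Fin n → ℝ)
    (h : ∀ j i, |B j i| ≤ r j * c i) :
    |B.det| ≤ (n ! : ℝ) * ((∏ j, r j) * ∏ i, c i) := by
  rw [det_apply']
  refine (Finset.abs_sum_le_sum_abs _ _).trans ?_
  have h2 : ∀ σ : Equiv.Perm (Fin n),
      |((Equiv.Perm.sign σ : ℤ):ℝ) * ∏ i, B (σ i) i| ≤ (∏ j, r j) * ∏ i, c i := by
    intro σ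
    rw [abs_mul]
    have h1 : |((Equiv.Perm.sign σ : ℤ):ℝ)| = 1 := by
      rcases Int.units_eq_one_or (Equiv.Perm.sign σ) with h|h <;> simp [h]
    rw [h1, one_mul, Finset.abs_prod]
    calc ∏ i, |B (σ i) i| ≤ ∏ i, (r (σ i) * c i) :=
          Finset.prod_le_prod (fun _ _ => abs_nonneg _) fun i _ => h _ _
      _ = _ := by rw [Finset.prod_mul_distrib, Equiv.prod_comp σ r]
  refine (Finset.sum_le_sum fun σ _ => h2 σ).trans ?_
  rw [Finset.sum_const, Finset.card_univ, Fintype.card_perm, Fintype.card_fin, nsmul_eq_mul]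

variable {d : ℕ}

lemma rho_pos (d W m : ℕ) (hW : 1 ≤ W) : 0 < rho d W m := by
  unfold rho
  have : (0:ℝ) < W := by exact_mod_cast hW
  positivity

lemma bigA2_nonneg (d W m : ℕ) : 0 ≤ bigA2 d W m := by
  unfold bigA2; positivity

theorem core2 (s : Fin (d+1) → ℕ) (hs : Function.Injective s) (h0 : s 0 = 0)
    (W m q : ℕ) (hW1 : 1 ≤ W) (hm : 0 < m) (hW : ∀ i, s i ≤ W) (hq : q.Prime) (hWq : W < q)
    (hqm : q ∣ m) (hd : 1 ≤ d) (μ η : ℝ) (hη : 0 < η) (hη1 : η ≤ 1) (b : Fin (d+1) → ℤ) (hb : b ≠ 0)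
    (hbη : ∀ i, |(b i : ℝ) - μ * Real.exp (s i)| ≤ η) :
    1 ≤ ((d+1)! : ℝ) * ((|μ| + 1) * rho d W m ^ d +
      bigA2 d W m * (2 * Real.exp W * η) * rho d W m ^ (d-1)) := by
  obtain ⟨j₀, hj₀⟩ := exists_updateRow_det_ne (Am s m hm) (Am_det_ne s hs W m q hm hW hq hWq hqm) b hb
  set B : Matrix (Fin (d+1)) (Fin (d+1)) ℤ := (Am s m hm).updateRow j₀ b with hB
  set ρ := rho d W m with hρ
  have hρ0 : 0 < ρ := rho_pos d W m hW1
  set η' : ℝ := 2 * Real.exp W * η with hη'
  have hη'0 : 0 < η' := by positivity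
  have hA0 := bigA2_nonneg d W m
  have hdet1 : 1 ≤ |((B.map (Int.castRingHom ℝ)).det)| := by
    have h1 : (B.map (Int.castRingHom ℝ)).det = ((B.det : ℤ) : ℝ) := by
      have := RingHom.map_det (Int.castRingHom ℝ) B
      simpa using this.symm
    rw [h1]
    exact_mod_cast Int.one_le_abs hj₀
  set e : Fin (d+1) → ℝ := fun i => if i = 0 then 0 else Real.exp (s i) with he
  set B' : Matrix (Fin (d+1)) (Fin (d+1)) ℝ := fun j i => (B j i : ℝ) - e i * (B j 0 : ℝ) with hB'
  have hdet2 : (B.map (Int.castRingHom ℝ)).det = B'.det := by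
    rw [← det_transpose, ← det_transpose B']
    refine det_eq_of_forall_row_eq_smul_add_const e 0 (by simp [he]) ?_
    intro i j
    simp only [transpose_apply, map_apply, hB', eq_intCast]
    have : e 0 = 0 := by simp [he]
    rw [this]; ring
  set T : ℝ := (|μ| + 1) / η' + bigA2 d W m / ρ with hT
  have hT0 : 0 ≤ T := by positivity
  have hTη : |μ| + 1 ≤ η' * T := by
    rw [hT, mul_add, mul_div_cancel₀ _ hη'0.ne']
    have : 0 ≤ η' * (bigA2 d W m / ρ) := by positivity
    linarith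
  have hTρ : bigA2 d W m ≤ ρ * T := by
    rw [hT, mul_add, mul_div_cancel₀ _ hρ0.ne']
    have : 0 ≤ ρ * ((|μ| + 1) / η') := by positivity
    linarith
  have hexp : ∀ i, Real.exp (s i) ≤ Real.exp W := fun i =>
    Real.exp_le_exp.mpr (by exact_mod_cast hW i)
  have hexp1 : (1:ℝ) ≤ Real.exp W := Real.one_le_exp (by positivity)
  have hμ : |(b 0 : ℝ) - μ| ≤ η := by
    have := hbη 0
    rw [h0] at this
    simpa using this
  have hent : ∀ j i, |B' j i| ≤ (if j = j₀ then η' else ρ) * (if i = 0 then T else 1) := by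
    intro j i
    by_cases hj : j = j₀
    · subst hj
      by_cases hi : i = 0
      · subst hi
        simp only [hB', he, if_true, zero_mul, sub_zero, hB, updateRow_self]
        refine le_trans ?_ hTη
        calc |(b 0 : ℝ)| = |((b 0 : ℝ) - μ) + μ| := by ring_nf
          _ ≤ |(b 0 : ℝ) - μ| + |μ| := abs_add_le _ _
          _ ≤ |μ| + 1 := by linarith
      · simp only [hB', he, if_true, if_neg hi, mul_one, hB, updateRow_self]
        calc |(b i : ℝ) - Real.exp (s i) * (b 0 : ℝ)|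
            = |((b i : ℝ) - μ * Real.exp (s i)) - Real.exp (s i) * ((b 0 : ℝ) - μ)| := by ring_nf
          _ ≤ |(b i : ℝ) - μ * Real.exp (s i)| + |Real.exp (s i) * ((b 0 : ℝ) - μ)| := abs_sub _ _
          _ ≤ η + Real.exp W * η := by
              rw [abs_mul, abs_of_pos (Real.exp_pos _)]
              exact add_le_add (hbη i) (mul_le_mul (hexp i) hμ (abs_nonneg _) (Real.exp_pos _).le)
          _ ≤ η' := by
              rw [hη']
              nlinarith
    · by_cases hi : i = 0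
      · subst hi
        simp only [hB', he, if_true, zero_mul, sub_zero, hB, if_neg hj]
        rw [updateRow_ne hj]
        exact (Am_zero_le2 s m W hm hW h0 j).trans hTρ
      · simp only [hB', he, if_neg hi, if_neg hj, mul_one, hB]
        rw [updateRow_ne hj, abs_sub_comm]
        exact Am_small s m W hm hW h0 j i
  have hfin := abs_det_le B' _ _ hent
  have hp1 : ∏ j : Fin (d+1), (if j = j₀ then η' else ρ) = η' * ρ ^ d := by
    rw [← Finset.mul_prod_erase _ _ (Finset.mem_univ j₀)]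
    rw [if_pos rfl]
    congr 1
    rw [Finset.prod_congr rfl (g := fun _ => ρ) (fun j hj => if_neg (Finset.mem_erase.mp hj).1)]
    rw [Finset.prod_const, Finset.card_erase_of_mem (Finset.mem_univ _), Finset.card_univ,
      Fintype.card_fin]
    simp
  have hp2 : ∏ i : Fin (d+1), (if i = 0 then T else (1:ℝ)) = T := by
    rw [Finset.prod_ite_eq' Finset.univ (0 : Fin (d+1)) (fun _ => T)]
    simp
  rw [hp1, hp2, ← hdet2] at hfin
  refine hdet1.trans (hfin.trans (le_of_eq ?_))
  congr 1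
  rw [hT]
  obtain ⟨e', rfl⟩ : ∃ e', d = e' + 1 := ⟨d - 1, by omega⟩
  rw [Nat.add_sub_cancel, pow_succ]
  field_simp

end

end H23E
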