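import Pool.Agent.Lib.MP_2ecc60_nt_h23.GapNum

open Filter Topology
open scoped Nat

namespace H23E

noncomputable section

theorem gap2 (lam : ℝ) (hlam : lam ≠ 0) (d : ℕ) (hd : 1 ≤ d) (c θ : ℝ) (hθ0 : 0 ≤ θ) (hθ1 : θ < 1)
    (hc0 : 0 < c) (hc : c + 1 < (1-θ) * ((d:ℝ)+1) * (c - d + 1)) :
    ∃ n₀ : ℕ, ∀ n ≥ n₀, ∀ W : ℕ, 1 ≤ W → (W:ℝ) ≤ (n:ℝ)^θ →
    |lam * Real.exp n - round (lam * Real.exp n)| < Real.exp (-(c * n)) →
    |lam * Real.exp ((n + W : ℕ):ℝ) - round (lam * Real.exp ((n + W : ℕ):ℝ))| <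
      Real.exp (-(c * n)) → False := by
  set a : ℝ := Real.log (|lam| + 1) with ha
  set b : ℝ := Real.log (1 + (d:ℝ)) with hb
  have hlam1 : 0 < |lam| := abs_pos.mpr hlam
  have ha0 : 0 ≤ a := Real.log_nonneg (by linarith)
  have hdR : (1:ℝ) ≤ d := by exact_mod_cast hd
  have hb0 : 0 ≤ b := Real.log_nonneg (by linarith)
  set D : ℝ := (d:ℝ) + 1 with hD
  have hD2 : 2 ≤ D := by linarith
  have h1θ : 0 < 1 - θ := by linarith
  -- positivity of c - d + 1
  set y : ℝ := c - d + 1 with hy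
  have hy0 : 0 < y := by
    by_contra hcon
    push Not at hcon
    have h1 : (1-θ) * D * y ≤ 0 := mul_nonpos_of_nonneg_of_nonpos (by positivity) hcon
    linarith
  have hcd : (d:ℝ) < c := by
    have h1 : (1-θ) * D * y ≤ 1 * (D * y) := by
      have : 0 ≤ D * y := by positivity
      have := mul_le_mul_of_nonneg_right (by linarith : 1 - θ ≤ 1) this
      linarith
    have h2 : c = y + d - 1 := by rw [hy]; ring
    have h3 : y + d < D * y := by linarith
    have h4 : (d:ℝ) * 1 < d * y := by rw [hD] at h3; linarith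
    have h5 : 1 < y := lt_of_mul_lt_mul_left h4 (by linarith)
    linarith
  -- choice of x
  have hx1 : (d:ℝ) / y < (1-θ) * D - 1 := by
    rw [div_lt_iff₀ hy0]
    have : c = y + d - 1 := by rw [hy]; ring
    nlinarith
  obtain ⟨x, hx2, hx3⟩ := exists_between hx1
  have hdy : 0 < (d:ℝ) / y := by positivity
  have hx0 : 0 < x := hdy.trans hx2
  have hdx : (d:ℝ) / x < y := by
    rw [div_lt_iff₀ hx0]
    rw [div_lt_iff₀ hy0] at hx2
    linarith
  -- choice of s
  obtain ⟨s, hs3, hs⟩ : ∃ s : ℕ, 3 ≤ s ∧ 0 < ((s:ℝ)-2) * D * (1-θ) - s - x * s := by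
    have h1 : 0 < (1-θ) * D - 1 - x := by linarith
    obtain ⟨s, hs⟩ := exists_nat_gt (2 * D * (1-θ) / ((1-θ) * D - 1 - x) + 3)
    have hs' : 2 * D * (1-θ) / ((1-θ) * D - 1 - x) < s := by linarith
    rw [div_lt_iff₀ h1] at hs'
    have h2 : 0 ≤ 2 * D * (1-θ) / ((1-θ) * D - 1 - x) := by positivity
    refine ⟨s, ?_, ?_⟩
    · have : (3:ℝ) ≤ s := by linarith
      exact_mod_cast this
    · linarith
  have hsR : (3:ℝ) ≤ s := by exact_mod_cast hs3
  set δ₁ : ℝ := ((s:ℝ)-2) * D * (1-θ) - s - x * s with hδ₁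
  set δ₂ : ℝ := c - d + 1 - d/x with hδ₂
  have hδ₂0 : 0 < δ₂ := by rw [hδ₂]; linarith
  set K3 : ℝ := |Real.log (d / (x * s))| with hK3
  have hK30 : 0 ≤ K3 := abs_nonneg _
  set K1 : ℝ := C1 d s with hK1
  have hK10 : 0 ≤ K1 := C1_nonneg d s (by omega)
  set K : ℝ := K1 + (d+2) + (d * a + 2 * D + d + 4) + (s-2) * D * (2+K3) + d + s with hK
  have hK0 : 0 < K := by
    have h1 : 0 ≤ ((s:ℝ)-2) * D * (2+K3) := by
      have : (0:ℝ) ≤ (s:ℝ) - 2 := by linarith
      positivity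
    have h2 : 0 ≤ d * a := by positivity
    rw [hK]; linarith
  have hxs : 0 < x * s := by positivity
  obtain ⟨ε, hε0, hε1, hε2, hε3, hε4⟩ : ∃ ε : ℝ, 0 < ε ∧ K * ε * (x * s) ≤ δ₁ * d ∧ K * ε ≤ δ₂ ∧
      ε * (2 + K3) ≤ 1 - θ ∧ ε * s ≤ 1 := by
    refine ⟨min (min (δ₁ * d / (K * (x * s))) (δ₂ / K)) (min ((1-θ)/(2+K3)) (1/s)), ?_, ?_, ?_, ?_, ?_⟩
    · positivity
    · have h1 : min (min (δ₁ * d / (K * (x * s))) (δ₂ / K)) (min ((1-θ)/(2+K3)) (1/s)) ≤
          δ₁ * d / (K * (x * s)) := (min_le_left _ _).trans (min_le_left _ _)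
      rw [le_div_iff₀ (by positivity)] at h1
      linarith
    · have h1 : min (min (δ₁ * d / (K * (x * s))) (δ₂ / K)) (min ((1-θ)/(2+K3)) (1/s)) ≤
          δ₂ / K := (min_le_left _ _).trans (min_le_right _ _)
      rw [le_div_iff₀ hK0] at h1
      linarith
    · have h1 : min (min (δ₁ * d / (K * (x * s))) (δ₂ / K)) (min ((1-θ)/(2+K3)) (1/s)) ≤
          (1-θ)/(2+K3) := (min_le_right _ _).trans (min_le_left _ _)
      rwa [le_div_iff₀ (by linarith)] at h1
    · have h1 : min (min (δ₁ * d / (K * (x * s))) (δ₂ / K)) (min ((1-θ)/(2+K3)) (1/s)) ≤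
          1/s := (min_le_right _ _).trans (min_le_right _ _)
      rwa [le_div_iff₀ (by linarith)] at h1
  -- eventual facts
  have hn : Tendsto (fun n : ℕ => (n:ℝ)) atTop atTop := tendsto_natCast_atTop_atTop
  have hev7 : ∀ᶠ n : ℕ in atTop, 1 ≤ |lam| * Real.exp n := by
    have h1 : Tendsto (fun n : ℕ => |lam| * Real.exp n) atTop atTop :=
      (Real.tendsto_exp_atTop.comp hn).const_mul_atTop hlam1
    exact h1.eventually_ge_atTop 1
  have hevt : ∀ᶠ n : ℕ in atTop, 2 * (x * s) * Real.log n ≤ d * n := by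
    have h1 : ∀ᶠ z : ℝ in atTop, Real.log z ≤ (1/(2 * (x*s))) * z := by
      have h2 := Real.isLittleO_log_id_atTop.def (c := 1/(2 * (x*s))) (by positivity)
      filter_upwards [h2, eventually_ge_atTop 1] with z hz hz3
      rw [Real.norm_eq_abs, Real.norm_eq_abs, abs_of_nonneg (Real.log_nonneg hz3)] at hz
      simp only [id] at hz
      rwa [abs_of_nonneg (by linarith)] at hz
    filter_upwards [hn.eventually h1] with n hn1
    have h2 : 2 * (x * s) * Real.log n ≤ 2 * (x * s) * ((1/(2 * (x*s))) * n) :=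
      mul_le_mul_of_nonneg_left hn1 (by positivity)
    have h3 : 2 * (x * s) * ((1/(2 * (x*s))) * n) = n := by field_simp
    have h4 : (0:ℝ) ≤ n := by positivity
    nlinarith
  have hev := ev_small ε ((d:ℝ) / (x * s)) θ hε0 (by positivity) hθ1
  have hevW := ev_small (1/4) 0 θ (by norm_num) le_rfl hθ1
  obtain ⟨n₀, hn₀⟩ := eventually_atTop.mp ((hev7.and hevt).and (hev.and hevW))
  refine ⟨n₀ + 4, fun n hn W hW hWθ hb1 hb2 => ?_⟩
  obtain ⟨⟨g7, gt⟩, gev, gevW⟩ := hn₀ n (by omega)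
  have hn4 : (4:ℝ) ≤ n := by exact_mod_cast (by omega : 4 ≤ n)
  set L := Real.log (n:ℝ) with hL
  have hnR : (0:ℝ) < n := by linarith
  set t : ℕ := ⌈(d:ℝ) / (x * s) * n / L⌉₊ with ht
  obtain ⟨-, -, hWq, -, -, -, -, hL1', -⟩ := gevW 0 W (by simp) hWθ
  have hL0 : 0 < L := by linarith
  have ht1 : (d:ℝ) / (x * s) * n / L ≤ t := Nat.le_ceil _
  have ht2 : (t:ℝ) ≤ (d:ℝ) / (x * s) * n / L + 1 := (Nat.ceil_lt_add_one (by positivity)).le
  obtain ⟨f1, f2, f3, f4, f5, f6, f7, hL1, hLL0⟩ := gev t W ht2 hWθ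
  have hWR : (1:ℝ) ≤ W := by exact_mod_cast hW
  have htR2 : (2:ℝ) ≤ t := by
    refine le_trans ?_ ht1
    rw [le_div_iff₀ hL0, div_mul_eq_mul_div, le_div_iff₀ hxs]
    linarith
  have ht2' : 2 ≤ t := by exact_mod_cast htR2
  have hst : s * t ≤ n := by
    have h1 : (s:ℝ) * t ≤ n := by
      calc (s:ℝ) * t ≤ s * (ε * n) := mul_le_mul_of_nonneg_left f1 (by positivity)
        _ = (ε * s) * n := by ring
        _ ≤ 1 * n := mul_le_mul_of_nonneg_right hε4 hnR.le
        _ = n := one_mul _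
    exact_mod_cast h1
  have htL1 : (d:ℝ) * n ≤ x * s * (t * L) := by
    have h1 := (div_le_iff₀ hL0).mp ht1
    rw [div_mul_eq_mul_div, div_le_iff₀ hxs] at h1
    linarith
  have hstL : (s:ℝ) * (t * L) ≤ (d:ℝ)/x * n + s * L := by
    have h1 : t * L ≤ ((d:ℝ) / (x * s) * n / L + 1) * L := mul_le_mul_of_nonneg_right ht2 hL0.le
    have h2 : s * (((d:ℝ) / (x * s) * n / L + 1) * L) = (d:ℝ)/x * n + s * L := by
      have hs0 : (s:ℝ) ≠ 0 := by positivity
      field_simp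
    rw [← h2]
    exact mul_le_mul_of_nonneg_left h1 (by positivity)
  -- the integers
  set q : ℤ := round (lam * Real.exp n) with hq
  set p : ℤ := round (lam * Real.exp ((n + W : ℕ):ℝ)) with hp
  have hq0 : q ≠ 0 := rnd_ne_zero lam n g7
  have hp0 : p ≠ 0 := by
    apply rnd_ne_zero lam
    have h2 : Real.exp (n:ℝ) ≤ Real.exp ((n + W : ℕ):ℝ) :=
      Real.exp_le_exp.mpr (by push_cast; linarith)
    exact g7.trans (mul_le_mul_of_nonneg_left h2 hlam1.le)
  have hqabs : |(q:ℝ)| ≤ Real.exp (n + a) := rnd_abs_le lam n hnR.le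
  set δ : ℝ := 2 * Real.exp (W - c * n) with hδ
  have hcn : (n:ℝ) ≤ c * n := by
    have h1c : 1 ≤ c := by linarith
    have := mul_le_mul_of_nonneg_right h1c hnR.le
    linarith
  have hδ1 : δ ≤ 1 := two_exp_le_one _ (by linarith)
  have hclose : |(p:ℝ) - q * Real.exp W| ≤ δ := rnd_close lam (c * n) n W hb1 hb2
  obtain ⟨S, hS1, hmain⟩ := gap_ineq2 d s t W (by omega) hs3 ht2' hW p q hp0 hq0 δ hδ1 hclose
  have hs2 : (((s-2 : ℕ)):ℝ) = (s:ℝ) - 2 := by rw [Nat.cast_sub (by omega)]; norm_num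
  have hS1R : ((s:ℝ)-2) * D * t ≤ (S:ℝ) + d := by
    have : (((s-2)*(d+1)*t : ℕ):ℝ) ≤ ((S + d : ℕ):ℝ) := by exact_mod_cast hS1
    push_cast at this
    rw [hs2] at this
    exact this
  have hStR : (t:ℝ) ≤ S := by
    have h1 : 1 * D * t ≤ ((s:ℝ)-2) * D * t := by
      apply mul_le_mul_of_nonneg_right _ (by positivity)
      exact mul_le_mul_of_nonneg_right (by linarith) (by linarith)
    rw [hD] at h1 hS1R
    nlinarith
  have hS0 : 1 ≤ S := by
    have : (1:ℝ) ≤ S := by linarith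
    exact_mod_cast this
  set LL := Real.log L with hLL
  have hlS : L - LL - K3 ≤ Real.log S := by
    have h1 : Real.log ((d:ℝ) / (x * s) * n / L) ≤ Real.log S := by
      apply Real.log_le_log (by positivity) (ht1.trans hStR)
    have h2 : Real.log ((d:ℝ) / (x * s) * n / L) = Real.log (d / (x*s)) + L - LL := by
      rw [Real.log_div (by positivity) (by positivity), Real.log_mul (by positivity) (by positivity)]
    have h3 : -K3 ≤ Real.log (d / (x*s)) := by
      have := neg_abs_le (Real.log ((d:ℝ) / (x*s)))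
      rw [hK3]; exact this
    linarith
  have hlW : Real.log W ≤ θ * L := by
    rw [hL, ← Real.log_rpow hnR]
    exact Real.log_le_log (by linarith) hWθ
  have hlogD : Real.log D ≤ D := (Real.log_le_sub_one_of_pos (by linarith)).trans (by linarith)
  have hlogd : Real.log d ≤ D := (Real.log_le_sub_one_of_pos (by linarith)).trans (by linarith)
  have hlog2 : Real.log 2 ≤ 1 := by have := Real.log_two_lt_d9; linarith
  have hlog4 : Real.log 4 ≤ 2 := log_four_le
  have hf6 : LL + 1 + K3 ≤ (1-θ) * L := by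
    have h1 : (ε * (2+K3)) * L ≤ (1-θ) * L := mul_le_mul_of_nonneg_right hε3 hL0.le
    have h2 : K3 * 1 ≤ K3 * (ε * L) := mul_le_mul_of_nonneg_left f7 hK30
    have h3 : (ε * (2+K3)) * L = ε * L + ε * L + K3 * (ε * L) := by ring
    linarith
  obtain ⟨g1, g2⟩ := gap_numeric2 D d n W t S a L LL (Real.log W) (Real.log S) (Real.log D)
    (Real.log d) (Real.log 2) (Real.log 4) s x (d/x) θ c K1 K3 K ε hD hdR hsR hx0 hθ0 hθ1 hK10 hK30
    ha0 hnR.le hL0.le hLL0 hlogD hlogd hlog2 hlog4 htL1 hstL (by linarith) hS1R hlW hlS f1 f2 f3 f4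
    f5 hf6 hK hε1 hs.le hε2
  -- bounds of the pieces
  have hB : Bs d s t W ≤ Real.exp (s * t * L + K1 * t + W) :=
    Bs_le d s t W n hst (by omega) (by omega)
  have hDexp : D = Real.exp (Real.log D) := (Real.exp_log (by linarith)).symm
  have hdexp : (d:ℝ) = Real.exp (Real.log d) := (Real.exp_log (by linarith)).symm
  have hB0 := Bs_nonneg d s t W
  have hqd : |(q:ℝ)|^d ≤ Real.exp (d * (n + a)) := by
    calc |(q:ℝ)|^d ≤ (Real.exp (n + a))^d := pow_le_pow_left₀ (abs_nonneg _) hqabs _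
      _ = _ := by rw [← Real.exp_nat_mul]
  have hqd1 : |(q:ℝ)|^(d-1) ≤ Real.exp ((d-1) * (n + a)) := by
    calc |(q:ℝ)|^(d-1) ≤ (Real.exp (n + a))^(d-1) := pow_le_pow_left₀ (abs_nonneg _) hqabs _
      _ = _ := by
        rw [← Real.exp_nat_mul]
        congr 2
        rw [Nat.cast_sub (by omega)]; norm_num
  have hquarter : Real.exp (-Real.log 4) = 1/4 := exp_neg_log_four
  have hfirst : |(q:ℝ)|^d * (((d:ℝ)+1) * Bs d s t W * Real.exp (d*W) * (W:ℝ)^S / (S ! : ℝ)) ≤ 1/4 := by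
    have h1 := pow_div_fact_le W S hW hS0
    calc |(q:ℝ)|^d * (((d:ℝ)+1) * Bs d s t W * Real.exp (d*W) * (W:ℝ)^S / (S ! : ℝ))
        = |(q:ℝ)|^d * (D * Bs d s t W * Real.exp (d*W) * ((W:ℝ)^S / (S ! : ℝ))) := by
          rw [hD]; ring
      _ ≤ Real.exp (d * (n + a)) * (Real.exp (Real.log D) *
          Real.exp (s * t * L + K1 * t + W) * Real.exp (d*W) *
          Real.exp (S * (1 + Real.log W - Real.log S))) := by
          rw [← hDexp]
          gcongr
      _ = Real.exp (Real.log D + (s * t * L + K1 * t + W) + d * W + d * (n + a) +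
          S * (1 + Real.log W - Real.log S)) := by
          rw [← Real.exp_add, ← Real.exp_add, ← Real.exp_add, ← Real.exp_add]
          congr 1; ring
      _ ≤ Real.exp (-Real.log 4) := Real.exp_le_exp.mpr (by linarith)
      _ = 1/4 := hquarter
  have hsecond : ((d:ℝ)+1) * (Bs d s t W * (|(q:ℝ)|^(d-1) * (d * Real.exp (d * (W+1)) * δ))) ≤ 1/4 := by
    have h2 : δ = Real.exp (Real.log 2 + (W - c * n)) := by
      rw [hδ, Real.exp_add, Real.exp_log (by norm_num)]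
    have hδ0 : 0 ≤ δ := by rw [hδ]; positivity
    calc ((d:ℝ)+1) * (Bs d s t W * (|(q:ℝ)|^(d-1) * (d * Real.exp (d * (W+1)) * δ)))
        = D * (Bs d s t W * (|(q:ℝ)|^(d-1) * (d * Real.exp (d * (W+1)) * δ))) := by rw [hD]
      _ ≤ Real.exp (Real.log D) * (Real.exp (s * t * L + K1 * t + W) *
          (Real.exp ((d-1) * (n + a)) * (Real.exp (Real.log d) * Real.exp (d * (W+1)) *
            Real.exp (Real.log 2 + (W - c * n))))) := by
          rw [← hDexp, ← hdexp, ← h2]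
          gcongr
      _ = Real.exp (Real.log D + (s * t * L + K1 * t + W) + (d-1) * (n + a) +
          Real.log d + d * (W + 1) + (Real.log 2 + W - c * n)) := by
          rw [← Real.exp_add, ← Real.exp_add, ← Real.exp_add, ← Real.exp_add, ← Real.exp_add]
          congr 1; ring
      _ ≤ Real.exp (-Real.log 4) := Real.exp_le_exp.mpr (by linarith)
      _ = 1/4 := hquarter
  linarith

/-- gaps, set form -/
theorem gap2S (lam : ℝ) (hlam : lam ≠ 0) (d : ℕ) (hd : 1 ≤ d) (c θ : ℝ) (hθ0 : 0 ≤ θ) (hθ1 : θ < 1)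
    (hc0 : 0 < c) (hc : c + 1 < (1-θ) * ((d:ℝ)+1) * (c - d + 1)) :
    ∃ n₀ : ℕ, ∀ n ≥ n₀, ∀ k : ℕ, n < k →
    |lam * Real.exp n - round (lam * Real.exp n)| < Real.exp (-(c * n)) →
    |lam * Real.exp k - round (lam * Real.exp k)| < Real.exp (-(c * k)) →
    (n:ℝ) + (n:ℝ)^θ < k := by
  obtain ⟨n₀, h⟩ := gap2 lam hlam d hd c θ hθ0 hθ1 hc0 hc
  refine ⟨n₀, fun n hn k hnk h1 h2 => ?_⟩
  by_contra hcon
  push Not at hcon
  obtain ⟨W, rfl⟩ : ∃ W, k = n + W := ⟨k - n, by omega⟩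
  refine h n hn W (by omega) ?_ h1 (h2.trans_le ?_)
  · push_cast at hcon; linarith
  · apply Real.exp_le_exp.mpr
    push_cast
    have : (0:ℝ) ≤ W := by positivity
    nlinarith

end

end H23E
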