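import Pool.Agent.Lib.MP_2ecc60_nt_h23.Sieg

open Polynomial Matrix
open scoped Nat

namespace H23E

noncomputable section

/-- the exponential polynomial `∑ (D+k)^i A_k (z) e^{kz}` -/
def Rf {d : ℕ} (A : Fin (d+1) → ℤ[X]) (i : ℕ) (z : ℝ) : ℝ :=
  ∑ k : Fin (d+1), aeval z (Bp (((k : Fin (d+1)) : ℕ) : ℤ) (A k) i) * Real.exp (((k:ℕ):ℝ) * z)

lemma Rf_hasDerivAt {d : ℕ} (A : Fin (d+1) → ℤ[X]) (i : ℕ) (z : ℝ) :
    HasDerivAt (Rf A i) (Rf A (i+1) z) z := by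
  unfold Rf
  apply HasDerivAt.fun_sum
  intro k _
  have h1 : HasDerivAt (fun z : ℝ => aeval z (Bp (((k : Fin (d+1)) : ℕ) : ℤ) (A k) i))
      (aeval z (derivative (Bp (((k : Fin (d+1)) : ℕ) : ℤ) (A k) i))) z :=
    Polynomial.hasDerivAt_aeval _ _
  have h2 : HasDerivAt (fun z : ℝ => Real.exp (((k:ℕ):ℝ) * z))
      (Real.exp (((k:ℕ):ℝ) * z) * (((k:ℕ):ℝ) * 1)) z :=
    ((hasDerivAt_id z).const_mul _).exp
  refine (h1.mul h2).congr_deriv ?_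
  rw [Bp_succ, map_add, map_mul, aeval_C]
  simp only [algebraMap_int_eq, eq_intCast]
  push_cast
  ring

lemma Rf_zero {d : ℕ} (A : Fin (d+1) → ℤ[X]) (i : ℕ)
    (h : ∑ k : Fin (d+1), (Bp (((k : Fin (d+1)) : ℕ) : ℤ) (A k) i).eval 0 = 0) : Rf A i 0 = 0 := by
  unfold Rf
  have h1 : ∀ k : Fin (d+1), aeval (0:ℝ) (Bp (((k : Fin (d+1)) : ℕ) : ℤ) (A k) i) *
      Real.exp (((k:ℕ):ℝ) * 0) = (((Bp (((k : Fin (d+1)) : ℕ) : ℤ) (A k) i).eval 0 : ℤ) : ℝ) := by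
    intro k
    rw [mul_zero, Real.exp_zero, mul_one, ← coeff_zero_eq_eval_zero, ← coeff_zero_eq_aeval_zero']
    simp
  rw [Finset.sum_congr rfl (fun k _ => h1 k)]
  exact_mod_cast h

lemma taylor_bound {d : ℕ} (A : Fin (d+1) → ℤ[X]) (T : ℕ) (W Q : ℝ)
    (h : ∀ i < T, Rf A i 0 = 0) (hQ : ∀ z, 0 ≤ z → z ≤ W → |Rf A T z| ≤ Q) (s : ℕ) :
    ∀ i, i + s = T → ∀ z, 0 ≤ z → z ≤ W → |Rf A i z| ≤ Q * z^s / (s ! : ℝ) := by
  induction s with
  | zero =>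
    intro i hi z h0 hz
    rw [add_zero] at hi
    subst hi
    simpa using hQ z h0 hz
  | succ s ih =>
    intro i hi z h0 hz
    have ih' := ih (i+1) (by omega)
    have hB : ∀ x : ℝ, HasDerivAt (fun z : ℝ => Q * z^(s+1) / ((s+1)! : ℝ))
        (Q * x^s / (s ! : ℝ)) x := by
      intro x
      have h1 := ((hasDerivAt_pow (s+1) x).const_mul Q).div_const (((s+1)! : ℕ) : ℝ)
      refine h1.congr_deriv ?_
      rw [Nat.factorial_succ]
      push_cast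
      have : (s ! : ℝ) ≠ 0 := by exact_mod_cast s.factorial_ne_zero
      have h2 : ((s:ℝ)+1) ≠ 0 := by positivity
      try rw [Nat.add_sub_cancel]
      field_simp
    have h2 := image_norm_le_of_norm_deriv_right_le_deriv_boundary (f := Rf A i) (f' := Rf A (i+1))
      (a := 0) (b := W)
      (fun x _ => (Rf_hasDerivAt A i x).continuousAt.continuousWithinAt)
      (fun x _ => (Rf_hasDerivAt A i x).hasDerivWithinAt)
      (B := fun z : ℝ => Q * z^(s+1) / ((s+1)! : ℝ)) (B' := fun x : ℝ => Q * x^s / (s ! : ℝ))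
      (by rw [h i (by omega)]; simp) hB
      (fun x hx => by rw [Real.norm_eq_abs]; exact ih' x hx.1 hx.2.le)
    have h3 := h2 (x := z) ⟨h0, hz⟩
    rwa [Real.norm_eq_abs] at h3

lemma pow_diff_bound (d k W : ℕ) (hk : k ≤ d) (hd : 1 ≤ d) (p q : ℤ) (hq : q ≠ 0) (δ : ℝ) (hδ1 : δ ≤ 1)
    (h : |(p:ℝ) - q * Real.exp W| ≤ δ) :
    |(p:ℝ)^k * (q:ℝ)^(d-k) - (q:ℝ)^d * Real.exp ((k:ℝ) * W)| ≤
      |(q:ℝ)|^(d-1) * (d * Real.exp (d * (W+1)) * δ) := by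
  have hδ0 : 0 ≤ δ := (abs_nonneg _).trans h
  set x : ℝ := q * Real.exp W with hx
  have hq1 : (1:ℝ) ≤ |(q:ℝ)| := by
    have := Int.one_le_abs hq
    exact_mod_cast this
  have h1 : (p:ℝ)^k * (q:ℝ)^(d-k) - (q:ℝ)^d * Real.exp ((k:ℝ) * W) =
      (q:ℝ)^(d-k) * ((p:ℝ)^k - x^k) := by
    have h2 : (q:ℝ)^d = (q:ℝ)^(d-k) * (q:ℝ)^k := by
      rw [← pow_add, Nat.sub_add_cancel hk]
    have h3 : Real.exp ((k:ℝ) * W) = (Real.exp W)^k := by
      rw [← Real.exp_nat_mul]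
    rw [h2, h3, hx, mul_pow]; ring
  rw [h1, abs_mul, abs_pow]
  rcases Nat.eq_zero_or_pos k with rfl | hk0
  · simp only [pow_zero, sub_self, abs_zero, mul_zero]
    positivity
  have hM : max |(p:ℝ)| |x| ≤ |(q:ℝ)| * Real.exp (W+1) := by
    have hxle : |x| = |(q:ℝ)| * Real.exp W := by
      rw [hx, abs_mul, abs_of_pos (Real.exp_pos _)]
    have he1 : Real.exp ((W:ℝ)+1) = Real.exp W * Real.exp 1 := Real.exp_add _ _
    have he2 : (2:ℝ) ≤ Real.exp 1 := by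
      have := Real.add_one_le_exp (1:ℝ); linarith
    have hWe : (1:ℝ) ≤ Real.exp W := Real.one_le_exp (by positivity)
    have hqe : 1 ≤ |(q:ℝ)| * Real.exp W := by nlinarith
    apply max_le
    · calc |(p:ℝ)| = |((p:ℝ) - x) + x| := by ring_nf
        _ ≤ |(p:ℝ) - x| + |x| := abs_add_le _ _
        _ ≤ 1 + |(q:ℝ)| * Real.exp W := by rw [hxle]; linarith
        _ ≤ |(q:ℝ)| * Real.exp (W+1) := by rw [he1]; nlinarith
    · rw [hxle, he1]; nlinarith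
  have h2 := abs_pow_sub_pow_le (p:ℝ) x k
  have h3 : |(p:ℝ)^k - x^k| ≤ δ * k * (|(q:ℝ)| * Real.exp (W+1))^(k-1) := by
    refine h2.trans ?_
    have h4 : (max |(p:ℝ)| |x|)^(k-1) ≤ (|(q:ℝ)| * Real.exp (W+1))^(k-1) :=
      pow_le_pow_left₀ (le_trans (abs_nonneg _) (le_max_left _ _)) hM _
    exact mul_le_mul (mul_le_mul_of_nonneg_right h (by positivity)) h4
      (pow_nonneg (le_trans (abs_nonneg _) (le_max_left _ _)) _) (by positivity)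
  have h5 : (Real.exp ((W:ℝ)+1))^(k-1) ≤ Real.exp (d * (W+1)) := by
    rw [← Real.exp_nat_mul]
    apply Real.exp_le_exp.mpr
    have : ((k-1 : ℕ):ℝ) ≤ d := by exact_mod_cast (by omega : k - 1 ≤ d)
    have h0 : (0:ℝ) ≤ (W:ℝ)+1 := by positivity
    nlinarith
  have hkd : (k:ℝ) ≤ d := by exact_mod_cast hk
  calc |(q:ℝ)|^(d-k) * |(p:ℝ)^k - x^k|
      ≤ |(q:ℝ)|^(d-k) * (δ * k * (|(q:ℝ)| * Real.exp (W+1))^(k-1)) :=
        mul_le_mul_of_nonneg_left h3 (by positivity)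
    _ = |(q:ℝ)|^(d-1) * (k * (Real.exp ((W:ℝ)+1))^(k-1) * δ) := by
        rw [mul_pow]
        have : d - 1 = (d-k) + (k-1) := by omega
        rw [this, pow_add]; ring
    _ ≤ _ := by
        apply mul_le_mul_of_nonneg_left _ (by positivity)
        apply mul_le_mul_of_nonneg_right _ hδ0
        exact mul_le_mul hkd h5 (by positivity) (by positivity)

/-- auxiliary forms with exponents `0, 1, ..., d` -/
theorem aux_forms2 (d s t : ℕ) (hs : 2 ≤ s) (ht : 1 ≤ t) :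
    ∃ A : Fin (d+1) → ℤ[X], (∃ k, A k ≠ 0) ∧ (∀ k, (A k).natDegree < s*t) ∧
      (∀ k j, |((A k).coeff j : ℝ)| * (j ! : ℝ) ≤ ((s*t-1)! : ℝ) * Hw d s t d) ∧
      (∀ i < (s-1)*(d+1)*t,
        ∑ k : Fin (d+1), (Bp (((k : Fin (d+1)) : ℕ) : ℤ) (A k) i).eval 0 = 0) :=
  aux_formsW d s t d hs ht (fun k => (k : ℕ)) (fun k => by have := k.2; omega)

/-- bound for the values of the auxiliary polynomials -/
def Bs (d s t W : ℕ) : ℝ :=
  (1+(d:ℝ))^((s-1)*(d+1)*t) * (((s*t-1)! : ℝ) * Hw d s t d) * Real.exp W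

lemma Bs_nonneg (d s t W : ℕ) : 0 ≤ Bs d s t W := by
  unfold Bs; have := Hw_nonneg d s t d; positivity

/-- existence of a nonvanishing value -/
theorem exists_Z2 (d s t W : ℕ) (hs : 3 ≤ s) (ht : 1 ≤ t) (hW : 1 ≤ W) (A : Fin (d+1) → ℤ[X])
    (hA0 : ∃ k, A k ≠ 0) (hdeg : ∀ k, (A k).natDegree < s*t)
    (hzero : ∀ i < (s-1)*(d+1)*t,
      ∑ k : Fin (d+1), (Bp (((k : Fin (d+1)) : ℕ) : ℤ) (A k) i).eval 0 = 0)
    (p q : ℤ) (hp : p ≠ 0) (hq : q ≠ 0) :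
    ∃ i < (d+1)*(t+1), ∑ k : Fin (d+1), (Bp (((k : Fin (d+1)) : ℕ) : ℤ) (A k) i).eval (W:ℤ) *
      (p^(k:ℕ) * q^(d-(k:ℕ))) ≠ 0 := by
  classical
  by_contra hcon
  push Not at hcon
  obtain ⟨s', rfl⟩ : ∃ s', s = s' + 1 := ⟨s-1, by omega⟩
  simp only [Nat.add_sub_cancel] at hzero
  have hs' : 2 ≤ s' := by omega
  set κ := Fintype.card {k : Fin (d+1) // A k ≠ 0} with hκ
  have hκd : κ ≤ d+1 := by
    have := Fintype.card_subtype_le (fun k : Fin (d+1) => A k ≠ 0)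
    rwa [Fintype.card_fin] at this
  obtain ⟨k0, hk0⟩ := hA0
  have hκ0 : 0 < κ := Fintype.card_pos_iff.mpr ⟨⟨k0, hk0⟩⟩
  obtain ⟨e⟩ : Nonempty (Fin κ ≃ {k : Fin (d+1) // A k ≠ 0}) :=
    ⟨(Fintype.equivFin {k : Fin (d+1) // A k ≠ 0}).symm⟩
  have hst : 1 ≤ (s'+1)*t := Nat.mul_pos (by omega) ht
  have hTbig : d + 1 ≤ s'*(d+1)*t := by
    have h1 : 1 * (d+1) * 1 ≤ s'*(d+1)*t :=
      Nat.mul_le_mul (Nat.mul_le_mul (by omega) le_rfl) ht
    omega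
  have hfin := zero_estimate (κ := κ) (fun s => (((e s).1 : ℕ) : ℤ)) (by
      intro a b hab
      have hab' : ((((e a).1 : Fin (d+1)) : ℕ) : ℤ) = ((((e b).1 : Fin (d+1)) : ℕ) : ℤ) := hab
      have h1 : ((e a).1 : ℕ) = ((e b).1 : ℕ) := by exact_mod_cast hab'
      have h2 : (e a).1 = (e b).1 := Fin.ext h1
      exact e.injective (Subtype.ext h2))
    (fun s => A (e s).1) (fun s => (e s).2) ((s'+1)*t-1) (fun s => by have := hdeg (e s).1; omega)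
    (s'*(d+1)*t) ((d+1)*(t+1)) (by omega) (by nlinarith) hκ0 0 (W:ℤ) (by
      have : (0:ℤ) < W := by exact_mod_cast hW
      exact this.ne)
    (fun _ => 1) (fun s => p^(((e s).1 : Fin (d+1)) : ℕ) * q^(d-(((e s).1 : Fin (d+1)) : ℕ)))
    (by
      intro h
      have := congrFun h ⟨0, hκ0⟩
      simp at this)
    (by
      intro h
      have h3 := congrFun h ⟨0, hκ0⟩
      simp only [Pi.zero_apply, mul_eq_zero] at h3
      rcases h3 with h3 | h3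
      · exact pow_ne_zero _ hp h3
      · exact pow_ne_zero _ hq h3)
    (by
      intro i hi
      simp only [mul_one]
      have := sum_reindex A e (fun k => (Bp (((k : Fin (d+1)) : ℕ) : ℤ) (A k) i).eval 0) (by
        intro k hk; simp only [hk, Bp_zero_poly, eval_zero])
      rw [this]
      exact hzero i hi)
    (by
      intro i hi
      have := sum_reindex A e (fun k => (Bp (((k : Fin (d+1)) : ℕ) : ℤ) (A k) i).eval (W:ℤ) *
        (p^(k:ℕ) * q^(d-(k:ℕ)))) (by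
        intro k hk; simp only [hk, Bp_zero_poly, eval_zero, zero_mul])
      rw [this]
      exact hcon i hi)
  have h4 : κ * ((s'+1)*t-1) + 2*κ = κ * ((s'+1)*t+1) := by
    obtain ⟨r, hr⟩ : ∃ r, (s'+1)*t = r + 1 := ⟨(s'+1)*t - 1, by omega⟩
    rw [hr, Nat.add_sub_cancel]; ring
  have h5 : κ * ((s'+1)*t+1) ≤ (d+1)*((s'+1)*t+1) := Nat.mul_le_mul_right _ hκd
  have h6 : (d+1)*((s'+1)*t+1) = s'*(d+1)*t + (d+1)*(t+1) := by ring
  omega

theorem gap_ineq2 (d s t W : ℕ) (hd : 1 ≤ d) (hs : 3 ≤ s) (ht : 2 ≤ t) (hW : 1 ≤ W) (p q : ℤ)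
    (hp : p ≠ 0) (hq : q ≠ 0) (δ : ℝ) (hδ1 : δ ≤ 1) (h : |(p:ℝ) - q * Real.exp W| ≤ δ) :
    ∃ S : ℕ, (s-2)*(d+1)*t ≤ S + d ∧
      1 ≤ |(q:ℝ)|^d * (((d:ℝ)+1) * Bs d s t W * Real.exp (d*W) * (W:ℝ)^S / (S ! : ℝ)) +
        ((d:ℝ)+1) * (Bs d s t W * (|(q:ℝ)|^(d-1) * (d * Real.exp (d * (W+1)) * δ))) := by
  obtain ⟨A, hA0, hdeg, hcoef, hzero⟩ := aux_forms2 d s t (by omega) (by omega)
  obtain ⟨i, hi, hZ⟩ := exists_Z2 d s t W hs (by omega) hW A hA0 hdeg hzero p q hp hq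
  obtain ⟨s', rfl⟩ : ∃ s', s = s' + 2 := ⟨s-2, by omega⟩
  have hs' : 1 ≤ s' := by omega
  have hTeq : (s'+2-1)*(d+1)*t = s'*(d+1)*t + (d+1)*t := by
    have : s'+2-1 = s'+1 := by omega
    rw [this]; ring
  set T := (s'+2-1)*(d+1)*t with hT
  have h2t : (d+1)*2 ≤ (d+1)*t := Nat.mul_le_mul_left _ ht
  have h3t : (d+1)*t ≤ s'*(d+1)*t := by
    have : 1*((d+1)*t) ≤ s'*((d+1)*t) := Nat.mul_le_mul_right _ hs'
    rw [mul_assoc]; omega
  have h4t : (d+1)*(t+1) = (d+1)*t + (d+1) := by ring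
  have hiT : i < T := by omega
  refine ⟨T - i, ?_, ?_⟩
  · have : s'+2-2 = s' := by omega
    rw [this]
    omega
  have hWR : (1:ℝ) ≤ (W:ℝ) := by exact_mod_cast hW
  have hB : ∀ (k : Fin (d+1)) (i : ℕ), i ≤ T → ∀ z : ℝ, 0 ≤ z → z ≤ W →
      |aeval z (Bp (((k : Fin (d+1)) : ℕ) : ℤ) (A k) i)| ≤ Bs d (s'+2) t W := by
    intro k i hiT z hz0 hz
    refine (Bp_eval_wbound (k:ℕ) d (by have := k.2; omega) (A k) _
      (hcoef k) i W z hz0 hz).trans ?_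
    unfold Bs
    have h1 : (1+(d:ℝ))^i ≤ (1+(d:ℝ))^((s'+2-1)*(d+1)*t) :=
      pow_le_pow_right₀ (by have : (0:ℝ) ≤ d := by positivity
                            linarith) hiT
    have h2 := Hw_nonneg d (s'+2) t d
    gcongr
  have hB0 := Bs_nonneg d (s'+2) t W
  have hQ : ∀ z, 0 ≤ z → z ≤ (W:ℝ) →
      |Rf A T z| ≤ ((d:ℝ)+1) * Bs d (s'+2) t W * Real.exp (d*W) := by
    intro z hz0 hz
    unfold Rf
    refine (Finset.abs_sum_le_sum_abs _ _).trans ?_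
    have h1 : ∀ k ∈ (Finset.univ : Finset (Fin (d+1))),
        |aeval z (Bp (((k : Fin (d+1)) : ℕ) : ℤ) (A k) T) * Real.exp (((k:ℕ):ℝ) * z)| ≤
        Bs d (s'+2) t W * Real.exp (d*W) := by
      intro k _
      rw [abs_mul, abs_of_pos (Real.exp_pos _)]
      refine mul_le_mul (hB k T le_rfl z hz0 hz) ?_ (Real.exp_pos _).le hB0
      apply Real.exp_le_exp.mpr
      have : ((k:ℕ):ℝ) ≤ d := by exact_mod_cast (by have := k.2; omega : (k:ℕ) ≤ d)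
      exact mul_le_mul this hz hz0 (by positivity)
    refine (Finset.sum_le_sum h1).trans (le_of_eq ?_)
    rw [Finset.sum_const, Finset.card_univ, Fintype.card_fin, nsmul_eq_mul]
    push_cast; ring
  have hR := taylor_bound A T W _ (fun i hi => Rf_zero A i (hzero i hi)) hQ (T - i) i (by omega) W
    (by positivity) le_rfl
  -- the integer value
  set Z : ℤ := ∑ k : Fin (d+1), (Bp (((k : Fin (d+1)) : ℕ) : ℤ) (A k) i).eval (W:ℤ) *
      (p^(k:ℕ) * q^(d-(k:ℕ))) with hZdef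
  have hZ1 : (1:ℝ) ≤ |(Z:ℝ)| := by
    have := Int.one_le_abs hZ
    exact_mod_cast this
  have hev : ∀ k : Fin (d+1), (((Bp (((k : Fin (d+1)) : ℕ) : ℤ) (A k) i).eval (W:ℤ) : ℤ) : ℝ) =
      aeval (W:ℝ) (Bp (((k : Fin (d+1)) : ℕ) : ℤ) (A k) i) := by
    intro k
    have := aeval_algebraMap_apply_eq_algebraMap_eval (A := ℝ) (W:ℤ)
      (Bp (((k : Fin (d+1)) : ℕ) : ℤ) (A k) i)
    simpa using this.symm
  have hdec : (Z:ℝ) = (q:ℝ)^d * Rf A i W +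
      ∑ k : Fin (d+1), aeval (W:ℝ) (Bp (((k : Fin (d+1)) : ℕ) : ℤ) (A k) i) *
        ((p:ℝ)^(k:ℕ) * (q:ℝ)^(d-(k:ℕ)) - (q:ℝ)^d * Real.exp (((k:ℕ):ℝ) * W)) := by
    rw [hZdef]
    unfold Rf
    push_cast
    rw [Finset.mul_sum, ← Finset.sum_add_distrib]
    refine Finset.sum_congr rfl fun k _ => ?_
    rw [hev k]; ring
  rw [hdec] at hZ1
  refine hZ1.trans ((abs_add_le _ _).trans (add_le_add ?_ ?_))
  · rw [abs_mul, abs_pow]
    exact mul_le_mul_of_nonneg_left hR (by positivity)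
  · refine (Finset.abs_sum_le_sum_abs _ _).trans ?_
    have h1 : ∀ k ∈ (Finset.univ : Finset (Fin (d+1))),
        |aeval (W:ℝ) (Bp (((k : Fin (d+1)) : ℕ) : ℤ) (A k) i) *
        ((p:ℝ)^(k:ℕ) * (q:ℝ)^(d-(k:ℕ)) - (q:ℝ)^d * Real.exp (((k:ℕ):ℝ) * W))| ≤
        Bs d (s'+2) t W * (|(q:ℝ)|^(d-1) * (d * Real.exp (d * (W+1)) * δ)) := by
      intro k _
      rw [abs_mul]
      exact mul_le_mul (hB k i hiT.le W (by positivity) le_rfl)
        (pow_diff_bound d k W (by have := k.2; omega) hd p q hq δ hδ1 h) (abs_nonneg _) hB0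
    refine (Finset.sum_le_sum h1).trans (le_of_eq ?_)
    rw [Finset.sum_const, Finset.card_univ, Fintype.card_fin, nsmul_eq_mul]
    push_cast; ring

end

end H23E
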