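import Pool.Agent.Lib.MP_2ecc60_nt_h23.GapIneq

open Filter Topology
open scoped Nat

namespace H23E

noncomputable section

/-- constant in the bound of `Bs` -/
def C1 (d s : ℕ) : ℝ :=
  ((s:ℝ)-1)*((d:ℝ)+1) * Real.log (1+(d:ℝ)) +
    ((s:ℝ)-1) * (((d:ℝ)+1)*s + ((s:ℝ)-1)*((d:ℝ)+1) * Real.log (1+(d:ℝ)))

lemma C1_nonneg (d s : ℕ) (hs : 1 ≤ s) : 0 ≤ C1 d s := by
  unfold C1
  have h1 : (1:ℝ) ≤ s := by exact_mod_cast hs
  have h2 : 0 ≤ Real.log (1+(d:ℝ)) := Real.log_nonneg (by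
    have : (0:ℝ) ≤ d := by positivity
    linarith)
  have h3 : (0:ℝ) ≤ (s:ℝ) - 1 := by linarith
  positivity

lemma Bs_le (d s t W n : ℕ) (hst : s*t ≤ n) (hn : 1 ≤ n) (hs : 1 ≤ s) :
    Bs d s t W ≤ Real.exp (s * t * Real.log n + C1 d s * t + W) := by
  have hnR : (1:ℝ) ≤ n := by exact_mod_cast hn
  have hn0 : (0:ℝ) < n := by linarith
  have hd1 : (0:ℝ) < 1 + (d:ℝ) := by positivity
  have hpw : ∀ k : ℕ, (1+(d:ℝ))^k = Real.exp (k * Real.log (1+(d:ℝ))) := by
    intro k
    rw [Real.exp_nat_mul, Real.exp_log hd1]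
  have h1 : ((s*t-1)! : ℝ) ≤ Real.exp (s * t * Real.log n) := by
    have h2 : (s*t-1)! ≤ (s*t-1)^(s*t-1) := Nat.factorial_le_pow _
    have h3 : (s*t-1)^(s*t-1) ≤ n^(s*t) := by
      calc (s*t-1)^(s*t-1) ≤ n^(s*t-1) := Nat.pow_le_pow_left (by omega) _
        _ ≤ n^(s*t) := Nat.pow_le_pow_right (by omega) (by omega)
    have h4 : ((s*t-1)! : ℝ) ≤ (n:ℝ)^(s*t) := by exact_mod_cast h2.trans h3
    refine h4.trans (le_of_eq ?_)
    rw [pow_eq_exp n (by omega)]
    push_cast; ring_nf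
  have hs1 : (((s-1 : ℕ)):ℝ) = (s:ℝ) - 1 := by rw [Nat.cast_sub hs]; norm_num
  have h2 : Hw d s t d ≤ Real.exp (((s:ℝ)-1) * (((d:ℝ)+1)*s*t +
      ((s:ℝ)-1)*((d:ℝ)+1)*t * Real.log (1+(d:ℝ)))) := by
    unfold Hw
    have h3 : (((d+1)*(s*t) : ℕ) : ℝ) ≤ Real.exp (((d:ℝ)+1)*s*t) := by
      have := Real.add_one_le_exp (((d:ℝ)+1)*s*t)
      push_cast
      linarith
    have h4 : (((d+1)*(s*t) : ℕ) : ℝ) * (1+(d:ℝ))^((s-1)*(d+1)*t) ≤
        Real.exp (((d:ℝ)+1)*s*t + ((s:ℝ)-1)*((d:ℝ)+1)*t * Real.log (1+(d:ℝ))) := by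
      rw [Real.exp_add, hpw]
      refine mul_le_mul h3 (le_of_eq ?_) (Real.exp_pos _).le (Real.exp_pos _).le
      congr 1
      push_cast
      rw [hs1]
    calc _ ≤ (Real.exp (((d:ℝ)+1)*s*t + ((s:ℝ)-1)*((d:ℝ)+1)*t * Real.log (1+(d:ℝ))))^(s-1) :=
          pow_le_pow_left₀ (by positivity) h4 _
      _ = _ := by rw [← Real.exp_nat_mul, hs1]
  have hH0 := Hw_nonneg d s t d
  unfold Bs
  calc (1+(d:ℝ))^((s-1)*(d+1)*t) * (((s*t-1)! : ℝ) * Hw d s t d) * Real.exp W
      ≤ Real.exp ((((s-1)*(d+1)*t : ℕ):ℝ) * Real.log (1+(d:ℝ))) *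
        (Real.exp (s * t * Real.log n) * Real.exp (((s:ℝ)-1) * (((d:ℝ)+1)*s*t +
          ((s:ℝ)-1)*((d:ℝ)+1)*t * Real.log (1+(d:ℝ))))) * Real.exp W := by
        rw [← hpw]
        gcongr
    _ = _ := by
        rw [← Real.exp_add, ← Real.exp_add, ← Real.exp_add]
        congr 1
        unfold C1
        push_cast
        rw [hs1]
        ring

/-- eventual smallness of the error terms -/
lemma ev_small (ε A θ : ℝ) (hε : 0 < ε) (hA : 0 ≤ A) (hθ : θ < 1) : ∀ᶠ n : ℕ in atTop,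
    ∀ t W : ℕ, (t:ℝ) ≤ A * n / Real.log n + 1 → (W:ℝ) ≤ (n:ℝ)^θ →
      (t:ℝ) ≤ ε * n ∧ Real.log n ≤ ε * n ∧ (W:ℝ) ≤ ε * n ∧ t * Real.log (Real.log n) ≤ ε * n ∧
      1 ≤ ε * n ∧ Real.log (Real.log n) ≤ ε * Real.log n ∧ 1 ≤ ε * Real.log n ∧ 1 ≤ Real.log n ∧
      0 ≤ Real.log (Real.log n) := by
  have hlogn : Tendsto (fun n : ℕ => Real.log (n:ℝ)) atTop atTop :=
    Real.tendsto_log_atTop.comp tendsto_natCast_atTop_atTop
  have hn : Tendsto (fun n : ℕ => (n:ℝ)) atTop atTop := tendsto_natCast_atTop_atTop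
  set η : ℝ := ε / (2 * (A + 1)) with hη
  have hη0 : 0 < η := by positivity
  have hllog : ∀ᶠ x : ℝ in atTop, Real.log x ≤ η * x := by
    have h2 := Real.isLittleO_log_id_atTop.def (c := η) hη0
    filter_upwards [h2, eventually_ge_atTop 1] with x hx hx3
    rw [Real.norm_eq_abs, Real.norm_eq_abs, abs_of_nonneg (Real.log_nonneg hx3)] at hx
    simp only [id] at hx
    rwa [abs_of_nonneg (by linarith)] at hx
  have e1 := hn.eventually hllog
  have e2 := hlogn.eventually hllog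
  have e3 : ∀ᶠ n : ℕ in atTop, (n:ℝ)^θ ≤ ε * n := by
    have h1 : Tendsto (fun x : ℝ => x^(-(1-θ))) atTop (𝓝 0) := tendsto_rpow_neg_atTop (by linarith)
    have h2 : ∀ᶠ x : ℝ in atTop, x^(-(1-θ)) ≤ ε := (h1.eventually_lt_const hε).mono fun _ h => h.le
    have h3 : ∀ᶠ x : ℝ in atTop, x^θ ≤ ε * x := by
      filter_upwards [h2, eventually_gt_atTop 0] with x hx hx0
      have h4 : x^θ = x^(-(1-θ)) * x := by
        rw [← Real.rpow_add_one hx0.ne']; congr 1; ring
      rw [h4]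
      exact mul_le_mul_of_nonneg_right hx hx0.le
    exact hn.eventually h3
  have e4 := hn.eventually_ge_atTop (1/ε + 1/η)
  have e5 := hlogn.eventually_ge_atTop (1/η + 1)
  filter_upwards [e1, e2, e3, e4, e5] with n h1 h2 h3 h4 h5 t W ht hW
  have hηε : η ≤ ε := by
    rw [hη]; apply div_le_self hε.le; linarith
  have hinvε : 0 < 1/ε := by positivity
  have hinvη : 0 < 1/η := by positivity
  have hL1 : 1 ≤ Real.log n := by linarith
  have hL0 : 0 < Real.log n := by linarith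
  have hnpos : (0:ℝ) < n := by linarith
  have hηn : 1 ≤ η * n := by
    have : η * (1/η) = 1 := by field_simp
    nlinarith
  have hεn : 1 ≤ ε * n := by nlinarith
  have hηL : 1 ≤ η * Real.log n := by
    have : η * (1/η) = 1 := by field_simp
    nlinarith
  have hll0 : 0 ≤ Real.log (Real.log n) := Real.log_nonneg hL1
  have hkey : η * (A + 1) * 2 = ε := by rw [hη]; field_simp
  have hnL : n / Real.log n ≤ η * n := by
    rw [div_le_iff₀ hL0]
    nlinarith
  have hAn : A * n / Real.log n = A * (n / Real.log n) := by ring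
  refine ⟨?_, ?_, ?_, ?_, hεn, ?_, ?_, hL1, hll0⟩
  · calc (t:ℝ) ≤ A * (n / Real.log n) + 1 := by rw [← hAn]; exact ht
      _ ≤ A * (η * n) + η * n := add_le_add (mul_le_mul_of_nonneg_left hnL hA) hηn
      _ ≤ ε * n := by
        have : A * (η * n) + η * n = (η * (A+1)) * n := by ring
        rw [this]
        apply mul_le_mul_of_nonneg_right _ hnpos.le
        have : 0 ≤ η * (A+1) := by positivity
        linarith
  · exact h1.trans (mul_le_mul_of_nonneg_right hηε hnpos.le)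
  · exact hW.trans h3
  · calc (t:ℝ) * Real.log (Real.log n) ≤ (A * (n / Real.log n) + 1) * Real.log (Real.log n) := by
          apply mul_le_mul_of_nonneg_right _ hll0
          rw [← hAn]; exact ht
      _ = A * ((n / Real.log n) * Real.log (Real.log n)) + Real.log (Real.log n) := by ring
      _ ≤ A * (η * n) + η * n := by
          apply add_le_add
          · apply mul_le_mul_of_nonneg_left _ hA
            rw [div_mul_eq_mul_div, div_le_iff₀ hL0]
            nlinarith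
          · exact h2.trans (by
              have := h1
              have h6 : η * Real.log n ≤ η * n := by
                apply mul_le_mul_of_nonneg_left _ hη0.le
                have := Real.log_le_sub_one_of_pos hnpos
                linarith
              exact h6)
      _ ≤ ε * n := by
        have : A * (η * n) + η * n = (η * (A+1)) * n := by ring
        rw [this]
        apply mul_le_mul_of_nonneg_right _ hnpos.le
        have : 0 ≤ η * (A+1) := by positivity
        linarith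
  · exact h2.trans (mul_le_mul_of_nonneg_right hηε hL0.le)
  · exact hηL.trans (mul_le_mul_of_nonneg_right hηε hL0.le)

lemma gap_numeric2 (D d n W t S a L LL lW lS lD ld l2 l4 s x dx θ c K1 K3 K ε : ℝ)
    (hD : D = d + 1) (hd : 1 ≤ d) (hs : 3 ≤ s) (hx : 0 < x) (hθ0 : 0 ≤ θ) (hθ1 : θ < 1)
    (hK1 : 0 ≤ K1) (hK3 : 0 ≤ K3) (ha : 0 ≤ a) (hn : 0 ≤ n) (hL : 0 ≤ L) (hLL : 0 ≤ LL)
    (hlD : lD ≤ D) (hld : ld ≤ D) (hl2 : l2 ≤ 1) (hl4 : l4 ≤ 2)
    (htL1 : d * n ≤ x * s * (t * L)) (hstL : s * (t * L) ≤ dx * n + s * L) (ht1 : 1 ≤ t)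
    (hS : (s-2) * D * t ≤ S + d) (hlW : lW ≤ θ * L) (hlS : L - LL - K3 ≤ lS)
    (f1 : t ≤ ε * n) (f2 : L ≤ ε * n) (f3 : W ≤ ε * n) (f4 : t * LL ≤ ε * n) (f5 : 1 ≤ ε * n)
    (f6 : LL + 1 + K3 ≤ (1-θ) * L)
    (hK : K = K1 + (d+2) + (d * a + 2 * D + d + 4) + (s-2) * D * (2+K3) + d + s)
    (hδ1 : K * ε * (x * s) ≤ ((s-2) * D * (1-θ) - s - x * s) * d)
    (hδ1' : 0 ≤ (s-2) * D * (1-θ) - s - x * s)
    (hδ2 : K * ε ≤ c - d + 1 - dx) :
    (lD + (s * t * L + K1 * t + W) + d * W + d * (n + a) + S * (1 + lW - lS) + l4 ≤ 0) ∧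
    (lD + (s * t * L + K1 * t + W) + (d-1) * (n + a) + ld + d * (W + 1) +
      (l2 + W - c * n) + l4 ≤ 0) := by
  set X := t * L with hX
  have hXe : s * t * L = s * X := by rw [hX]; ring
  rw [hXe]
  set e := ε * n with he
  have hD0 : 0 < D := by linarith
  have hda : 0 ≤ d * a := by positivity
  have k1 : K1 * t ≤ K1 * e := mul_le_mul_of_nonneg_left f1 hK1
  have hP0 : 0 ≤ (s-2) * D := by have : 0 ≤ s - 2 := by linarith
                                 positivity
  constructor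
  · -- first
    have h1 : 1 + lW - lS ≤ -((1-θ) * L) + LL + 1 + K3 := by linarith
    have h2 : -((1-θ) * L) + LL + 1 + K3 ≤ 0 := by linarith
    have hS0 : 0 ≤ (s-2) * D * t - d := by
      have h3 : 1 * D ≤ (s-2) * D := mul_le_mul_of_nonneg_right (by linarith) hD0.le
      have h4 : (s-2) * D * 1 ≤ (s-2) * D * t := mul_le_mul_of_nonneg_left ht1 hP0
      linarith
    have h3 : S * (1 + lW - lS) ≤ ((s-2) * D * t - d) * (-((1-θ) * L) + LL + 1 + K3) := by
      have h4 : S * (1 + lW - lS) ≤ ((s-2) * D * t - d) * (1 + lW - lS) :=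
        mul_le_mul_of_nonpos_right (by linarith) (by linarith)
      exact h4.trans (mul_le_mul_of_nonneg_left h1 hS0)
    have h4 : ((s-2) * D * t - d) * (-((1-θ) * L) + LL + 1 + K3) =
        -((s-2) * D * (1-θ) * X) + (s-2) * D * (t * LL + (1+K3) * t) + d * ((1-θ) * L) -
          d * (LL + 1 + K3) := by rw [hX]; ring
    have h5 : (s-2) * D * (t * LL + (1+K3) * t) ≤ (s-2) * D * ((2+K3) * e) := by
      apply mul_le_mul_of_nonneg_left _ hP0
      have : (1+K3) * t ≤ (1+K3) * e := mul_le_mul_of_nonneg_left f1 (by linarith)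
      linarith
    have h6 : d * ((1-θ) * L) ≤ d * e := by
      apply mul_le_mul_of_nonneg_left _ (by linarith)
      have : (1-θ) * L ≤ 1 * L := mul_le_mul_of_nonneg_right (by linarith) hL
      linarith
    have h7 : 0 ≤ d * (LL + 1 + K3) := by positivity
    -- main term
    set δ := (s-2) * D * (1-θ) - s - x * s with hδ
    have hxs : 0 < x * s := by positivity
    have h8 : K * e ≤ δ * X := by
      have h9 : (x * s) * (K * e) ≤ (x * s) * (δ * X) := by
        calc (x * s) * (K * e) = K * ε * (x * s) * n := by rw [he]; ring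
          _ ≤ δ * d * n := mul_le_mul_of_nonneg_right hδ1 hn
          _ = δ * (d * n) := by ring
          _ ≤ δ * (x * s * X) := mul_le_mul_of_nonneg_left htL1 hδ1'
          _ = _ := by ring
      exact le_of_mul_le_mul_left h9 hxs
    have h10 : s * X + d * n - (s-2) * D * (1-θ) * X ≤ -(δ * X) := by
      rw [hδ]
      linarith
    have h11 : d * W ≤ d * e := mul_le_mul_of_nonneg_left f3 (by linarith)
    have hc : lD + d * a + l4 ≤ (d * a + 2 * D + d + 4) * e := by
      have h12 : 0 ≤ d * a + 2 * D + d + 4 := by positivity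
      have h13 : (d * a + 2 * D + d + 4) * 1 ≤ (d * a + 2 * D + d + 4) * e :=
        mul_le_mul_of_nonneg_left f5 h12
      linarith
    have hKe : K * e = K1 * e + (d+2) * e + (d * a + 2 * D + d + 4) * e +
        (s-2) * D * ((2+K3) * e) + d * e + s * e := by rw [hK]; ring
    have he0 : 0 ≤ e := by linarith
    have hse : 0 ≤ s * e := by positivity
    have hde : 0 ≤ d * e := by positivity
    linarith
  · have hc : lD + (d-1) * a + ld + d + l2 + l4 ≤ (d * a + 2 * D + d + 4) * e := by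
      have h12 : 0 ≤ d * a + 2 * D + d + 4 := by positivity
      have h13 : (d * a + 2 * D + d + 4) * 1 ≤ (d * a + 2 * D + d + 4) * e :=
        mul_le_mul_of_nonneg_left f5 h12
      linarith
    have he0 : 0 ≤ e := by linarith
    have hKe : K * e = K1 * e + (d+2) * e + (d * a + 2 * D + d + 4) * e +
        (s-2) * D * ((2+K3) * e) + d * e + s * e := by rw [hK]; ring
    have h5 : 0 ≤ (s-2) * D * ((2+K3) * e) := by positivity
    have hde : 0 ≤ d * e := by positivity
    have h11 : (d+2) * W ≤ (d+2) * e := mul_le_mul_of_nonneg_left f3 (by linarith)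
    have h12 : s * L ≤ s * e := mul_le_mul_of_nonneg_left f2 (by linarith)
    have h13 : K * e ≤ (c - d + 1 - dx) * n := by
      calc K * e = K * ε * n := by rw [he]; ring
        _ ≤ _ := mul_le_mul_of_nonneg_right hδ2 hn
    linarith

end

end H23E
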