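import Pool.Agent.Lib.MP_2ecc60_nt_h23.ZE
import Pool.Agent.Lib.MP_2ecc60_nt_h23.Basic

open Polynomial Matrix
open scoped Nat

namespace H23E

noncomputable section

lemma Bp_eq_sum (k : ℤ) (A : ℤ[X]) (i : ℕ) :
    Bp k A i = ∑ l ∈ Finset.range (i+1), ((i.choose l : ℤ) * k^(i-l)) • (derivative^[l] A) := by
  set D : Module.End ℤ ℤ[X] := derivative with hD
  set K : Module.End ℤ ℤ[X] := k • (1 : Module.End ℤ ℤ[X]) with hK
  have h1 : Bp k A i = ((D + K)^i) A := by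
    induction i with
    | zero => simp [Bp]
    | succ i ih =>
      rw [pow_succ', Module.End.mul_apply, ← ih, Bp_succ]
      simp only [LinearMap.add_apply, hD, hK, LinearMap.smul_apply, Module.End.one_apply]
      rw [smul_eq_C_mul]
  have hc : Commute D K := by
    rw [hK]
    exact (Commute.one_right D).smul_right k
  rw [h1, hc.add_pow, LinearMap.sum_apply]
  refine Finset.sum_congr rfl fun l _ => ?_
  rw [hK, _root_.smul_pow, one_pow, Module.End.mul_apply, Module.End.mul_apply, Module.End.natCast_apply,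
    LinearMap.smul_apply, Module.End.one_apply, Module.End.pow_apply]
  have h2 : ⇑D = ⇑(derivative : ℤ[X] →ₗ[ℤ] ℤ[X]) := rfl
  rw [h2]
  have h3 : derivative^[l] (k ^ (i - l) • (i.choose l • A)) =
      k ^ (i - l) • (i.choose l • derivative^[l] A) := by
    rw [iterate_derivative_smul, iterate_derivative_smul]
  rw [h3]
  rw [mul_comm, mul_smul]
  congr 1

lemma Bp_eval_zero (k : ℤ) (A : ℤ[X]) (m : ℕ) (hA : A.natDegree < m) (i : ℕ) :
    (Bp k A i).eval 0 = ∑ j ∈ Finset.range m, (i.descFactorial j : ℤ) * k^(i-j) * A.coeff j := by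
  rw [Bp_eq_sum, eval_finset_sum]
  have h1 : ∀ l ∈ Finset.range (i+1), eval 0 (((i.choose l : ℤ) * k^(i-l)) • (derivative^[l] A)) =
      (i.descFactorial l : ℤ) * k^(i-l) * A.coeff l := by
    intro l _
    rw [eval_smul, ← coeff_zero_eq_eval_zero, coeff_iterate_derivative, zero_add,
      Nat.descFactorial_self, Nat.descFactorial_eq_factorial_mul_choose]
    simp only [smul_eq_mul, nsmul_eq_mul]
    push_cast
    ring
  rw [Finset.sum_congr rfl h1]
  have h2 : ∑ j ∈ Finset.range (max (i+1) m), (i.descFactorial j : ℤ) * k^(i-j) * A.coeff j =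
      ∑ j ∈ Finset.range (i+1), (i.descFactorial j : ℤ) * k^(i-j) * A.coeff j := by
    refine (Finset.sum_subset (Finset.range_mono (le_max_left _ _)) fun j _ hj => ?_).symm
    rw [Finset.mem_range] at hj
    rw [Nat.descFactorial_eq_zero_iff_lt.mpr (by omega)]; simp
  have h3 : ∑ j ∈ Finset.range (max (i+1) m), (i.descFactorial j : ℤ) * k^(i-j) * A.coeff j =
      ∑ j ∈ Finset.range m, (i.descFactorial j : ℤ) * k^(i-j) * A.coeff j := by
    refine (Finset.sum_subset (Finset.range_mono (le_max_right _ _)) fun j _ hj => ?_).symm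
    rw [Finset.mem_range] at hj
    rw [coeff_eq_zero_of_natDegree_lt (by omega : A.natDegree < j)]; simp
  rw [← h2, h3]

lemma Bp_zero_poly (k : ℤ) (i : ℕ) : Bp k 0 i = 0 := by
  induction i with
  | zero => rfl
  | succ i ih => rw [Bp_succ, ih]; simp

lemma sum_reindex {d κ : ℕ} (A : Fin (d+1) → ℤ[X]) (e : Fin κ ≃ {k : Fin (d+1) // A k ≠ 0})
    (f : Fin (d+1) → ℤ) (hf : ∀ k, A k = 0 → f k = 0) : ∑ s, f (e s).1 = ∑ k, f k := by
  classical
  rw [Equiv.sum_comp e (fun x => f x.1)]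
  have h1 : ∑ x : {k : Fin (d+1) // A k ≠ 0}, f x.1 =
      ∑ k ∈ Finset.univ.filter (fun k => A k ≠ 0), f k :=
    (Finset.sum_subtype _ (by simp) f).symm
  rw [h1]
  apply Finset.sum_subset (Finset.filter_subset _ _)
  intro k _ hk
  apply hf
  by_contra hne
  exact hk (by simp [hne])

lemma Bp_wbound (k d : ℕ) (hk : k ≤ d) (A : ℤ[X]) (K : ℝ)
    (hH : ∀ j, |(A.coeff j : ℝ)| * (j ! : ℝ) ≤ K) (i : ℕ) : ∀ j : ℕ,
    |((Bp (k:ℤ) A i).coeff j : ℝ)| * (j ! : ℝ) ≤ (1+(d:ℝ))^i * K := by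
  have hK0 : 0 ≤ K := le_trans (by positivity) (hH 0)
  induction i with
  | zero => intro j; simpa [Bp] using hH j
  | succ i ih =>
    intro j
    rw [Bp_succ, coeff_add, coeff_C_mul, coeff_derivative]
    push_cast
    have h1 := ih (j+1)
    have h2 := ih j
    have hkd : (k:ℝ) ≤ d := by exact_mod_cast hk
    have hf : ((j+1)! : ℝ) = ((j:ℝ)+1) * (j ! : ℝ) := by
      rw [Nat.factorial_succ]; push_cast; ring
    have hj0 : (0:ℝ) ≤ (j ! : ℝ) := by positivity
    calc _ ≤ (|((Bp (k:ℤ) A i).coeff (j+1) : ℝ) * ((j:ℝ)+1)| +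
          |(k:ℝ) * ((Bp (k:ℤ) A i).coeff j : ℝ)|) * (j ! : ℝ) :=
            mul_le_mul_of_nonneg_right (abs_add_le _ _) hj0
      _ = |((Bp (k:ℤ) A i).coeff (j+1) : ℝ)| * ((j+1)! : ℝ) +
          (k:ℝ) * (|((Bp (k:ℤ) A i).coeff j : ℝ)| * (j ! : ℝ)) := by
            rw [abs_mul, abs_mul, abs_of_nonneg (by positivity : (0:ℝ) ≤ k),
              abs_of_nonneg (by positivity : (0:ℝ) ≤ (j:ℝ)+1), hf]
            ring
      _ ≤ (1+(d:ℝ))^i * K + (d:ℝ) * ((1+(d:ℝ))^i * K) := by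
            refine add_le_add h1 (mul_le_mul hkd h2 (by positivity) (by positivity))
      _ = _ := by rw [pow_succ]; ring

lemma Bp_eval_wbound (k d : ℕ) (hk : k ≤ d) (A : ℤ[X]) (K : ℝ)
    (hH : ∀ j, |(A.coeff j : ℝ)| * (j ! : ℝ) ≤ K) (i : ℕ) (W x : ℝ) (hx0 : 0 ≤ x) (hx : x ≤ W) :
    |aeval x (Bp (k:ℤ) A i)| ≤ (1+(d:ℝ))^i * K * Real.exp W := by
  have hK0 : 0 ≤ K := le_trans (by positivity) (hH 0)
  rw [aeval_eq_sum_range]
  refine (Finset.abs_sum_le_sum_abs _ _).trans ?_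
  set n := (Bp (k:ℤ) A i).natDegree + 1
  have h1 : ∀ j ∈ Finset.range n, |(Bp (k:ℤ) A i).coeff j • x^j| ≤
      (1+(d:ℝ))^i * K * (x^j / (j ! : ℝ)) := by
    intro j _
    rw [zsmul_eq_mul, abs_mul, abs_of_nonneg (by positivity : (0:ℝ) ≤ x^j)]
    have h2 := Bp_wbound k d hk A K hH i j
    have hf : (0:ℝ) < (j ! : ℝ) := by positivity
    rw [mul_div_assoc', le_div_iff₀ hf]
    calc _ = |((Bp (k:ℤ) A i).coeff j : ℝ)| * (j ! : ℝ) * x^j := by ring
      _ ≤ _ := mul_le_mul_of_nonneg_right h2 (by positivity)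
  refine (Finset.sum_le_sum h1).trans ?_
  rw [← Finset.mul_sum]
  apply mul_le_mul_of_nonneg_left _ (by positivity)
  exact (Real.sum_le_exp_of_nonneg hx0 n).trans (Real.exp_le_exp.mpr hx)

/-- height bound -/
def Hw (d s t W : ℕ) : ℝ :=
  (((d+1)*(s*t) : ℕ) * (1+(W:ℝ))^((s-1)*(d+1)*t))^(s-1)

lemma Hw_nonneg (d s t W : ℕ) : 0 ≤ Hw d s t W := by unfold Hw; positivity

/-- auxiliary forms by Siegel's lemma in divided powers -/
theorem aux_formsW (d s t W : ℕ) (hs : 2 ≤ s) (ht : 1 ≤ t) (sk : Fin (d+1) → ℕ)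
    (hsk : ∀ k, sk k ≤ W) :
    ∃ A : Fin (d+1) → ℤ[X], (∃ k, A k ≠ 0) ∧ (∀ k, (A k).natDegree < s*t) ∧
      (∀ k j, |((A k).coeff j : ℝ)| * (j ! : ℝ) ≤ ((s*t-1)! : ℝ) * Hw d s t W) ∧
      (∀ i < (s-1)*(d+1)*t,
        ∑ k : Fin (d+1), (Bp ((sk k : ℕ) : ℤ) (A k) i).eval 0 = 0) := by
  set m := s*t with hm
  set T := (s-1)*(d+1)*t with hT
  obtain ⟨s', rfl⟩ : ∃ s', s = s' + 1 := ⟨s-1, by omega⟩
  have hs' : 1 ≤ s' := by omega
  have hWR0 : (0:ℝ) ≤ W := by positivity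
  simp only [Nat.add_sub_cancel] at hT
  have hm1 : 1 ≤ m := by rw [hm]; exact Nat.mul_pos (by omega) ht
  have hT1 : 1 ≤ T := by rw [hT]; exact Nat.mul_pos (Nat.mul_pos hs' (by omega)) ht
  letI := @Matrix.seminormedAddCommGroup (Fin T) (Fin (d+1) × Fin m) ℤ _ _ _
  set M : Matrix (Fin T) (Fin (d+1) × Fin m) ℤ :=
    fun i kj => ((i:ℕ).choose kj.2 : ℤ) * ((sk kj.1 : ℕ) : ℤ)^((i:ℕ) - (kj.2 : ℕ)) with hM
  have hcardα : Fintype.card (Fin T) = T := Fintype.card_fin _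
  have hcardβ : Fintype.card (Fin (d+1) × Fin m) = (d+1)*m := by
    rw [Fintype.card_prod, Fintype.card_fin, Fintype.card_fin]
  have hsum : (d+1)*m = T + (d+1)*t := by rw [hm, hT]; ring
  have hpos : 0 < (d+1)*t := Nat.mul_pos (by omega) ht
  have hlt : T < (d+1)*m := by omega
  obtain ⟨a, ha0, hMa, hnorm⟩ := Int.Matrix.exists_ne_zero_int_vec_norm_le M
    (by rw [hcardα, hcardβ]; exact hlt) (by rw [hcardα]; omega)
  have hexp : ((Fintype.card (Fin T) : ℝ)) / ((Fintype.card (Fin (d+1) × Fin m) : ℝ) -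
      (Fintype.card (Fin T) : ℝ)) = (s' : ℝ) := by
    rw [hcardα, hcardβ]
    have h1 : (((d+1)*m : ℕ) : ℝ) - (T:ℝ) = (((d+1)*t : ℕ) : ℝ) := by
      rw [hsum]; push_cast; ring
    have h2 : (0:ℝ) < (((d+1)*t : ℕ) : ℝ) := by exact_mod_cast hpos
    rw [h1, div_eq_iff h2.ne', hT]
    push_cast; ring
  rw [hexp, hcardβ] at hnorm
  have hMn : max 1 ‖M‖ ≤ (1+(W:ℝ))^T := by
    have h1 : (1:ℝ) ≤ (1+(W:ℝ))^T := one_le_pow₀ (by linarith)
    refine max_le h1 ?_
    rw [Matrix.norm_le_iff (by linarith)]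
    intro i kj
    rw [hM]
    simp only
    rw [norm_mul, Int.norm_eq_abs, Int.norm_eq_abs]
    push_cast
    rw [abs_of_nonneg (by positivity), abs_of_nonneg (by positivity)]
    have hi : (i:ℕ) < T := i.2
    have hk : sk kj.1 ≤ W := hsk _
    have hkR : ((sk kj.1 : ℕ) : ℝ) ≤ W := by exact_mod_cast hk
    have h3 : (((i:ℕ).choose kj.2 : ℕ) : ℝ) * (((sk kj.1 : ℕ) : ℝ))^((i:ℕ) - (kj.2 : ℕ)) ≤
        (1 + ((sk kj.1 : ℕ) : ℝ))^(i:ℕ) := by
      rw [add_pow]
      by_cases hj : (kj.2 : ℕ) ≤ (i:ℕ)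
      · have h4 := Finset.single_le_sum (f := fun x => (1:ℝ)^x * (((sk kj.1 : ℕ) : ℝ))^((i:ℕ) - x) *
          (((i:ℕ).choose x : ℕ) : ℝ)) (s := Finset.range ((i:ℕ)+1))
          (fun x _ => by positivity) (Finset.mem_range.mpr (by omega : (kj.2:ℕ) < (i:ℕ)+1))
        simp only [one_pow, one_mul] at h4 ⊢
        linarith
      · rw [Nat.choose_eq_zero_of_lt (by omega), Nat.cast_zero, zero_mul]
        positivity
    refine h3.trans ?_
    calc (1 + ((sk kj.1 : ℕ) : ℝ))^(i:ℕ) ≤ (1 + (W:ℝ))^(i:ℕ) :=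
          pow_le_pow_left₀ (by positivity) (by linarith) _
      _ ≤ (1+(W:ℝ))^T := pow_le_pow_right₀ (by linarith) hi.le
  have hnorm2 : ‖a‖ ≤ (((d+1)*m : ℕ) * (1+(W:ℝ))^T)^s' := by
    refine hnorm.trans ?_
    rw [Real.rpow_natCast]
    apply pow_le_pow_left₀
    · have : (0:ℝ) ≤ max 1 ‖M‖ := le_trans zero_le_one (le_max_left _ _)
      positivity
    · exact mul_le_mul_of_nonneg_left hMn (by positivity)
  set w : ℕ → ℤ := fun j => (((m-1).descFactorial (m-1-j) : ℕ) : ℤ) with hw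
  have hwj : ∀ j < m, w j * (j ! : ℤ) = ((m-1)! : ℤ) := by
    intro j hj
    have h1 := Nat.factorial_mul_descFactorial (Nat.sub_le (m-1) j)
    have h2 : (m-1) - (m-1-j) = j := by omega
    rw [h2] at h1
    rw [hw]
    simp only
    rw [mul_comm]
    exact_mod_cast h1
  set A : Fin (d+1) → ℤ[X] := fun k => ∑ j : Fin m, C (a (k, j) * w j) * X^(j:ℕ) with hA
  have hcoeff : ∀ k (j : ℕ), (A k).coeff j = if h : j < m then a (k, ⟨j, h⟩) * w j else 0 := by
    intro k j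
    simp only [hA, finset_sum_coeff, coeff_C_mul, coeff_X_pow]
    split_ifs with h
    · rw [Finset.sum_eq_single ⟨j, h⟩]
      · simp
      · intro b _ hb
        have : j ≠ (b:ℕ) := by
          intro hjb; apply hb; ext; exact hjb.symm
        rw [if_neg this]; simp
      · intro hn; exact absurd (Finset.mem_univ _) hn
    · apply Finset.sum_eq_zero
      intro b _
      have : j ≠ (b:ℕ) := by
        intro hjb; apply h; rw [hjb]; exact b.2
      rw [if_neg this]; simp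
  have hdeg : ∀ k, (A k).natDegree < m := by
    intro k
    by_contra hcon
    push Not at hcon
    have h0 : A k ≠ 0 := by
      intro h0; rw [h0, natDegree_zero] at hcon; omega
    have h1 := hcoeff k (A k).natDegree
    rw [dif_neg (by omega)] at h1
    exact h0 (leadingCoeff_eq_zero.mp h1)
  have hfacne : ((m-1)! : ℤ) ≠ 0 := by exact_mod_cast (m-1).factorial_ne_zero
  refine ⟨A, ?_, hdeg, ?_, ?_⟩
  · by_contra hcon
    push Not at hcon
    apply ha0
    ext ⟨k, j⟩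
    have h1 := hcoeff k j
    rw [hcon k, coeff_zero, dif_pos j.2] at h1
    have h2 : w j ≠ 0 := by
      intro h0
      have := hwj j j.2
      rw [h0, zero_mul] at this
      exact hfacne this.symm
    have h3 : a (k, ⟨(j:ℕ), j.2⟩) * w j = 0 := h1.symm
    rcases mul_eq_zero.mp h3 with h | h
    · simpa using h
    · exact absurd h h2
  · intro k j
    rw [hcoeff]
    have hHs : Hw d (s'+1) t W = (((d+1)*m : ℕ) * (1+(W:ℝ))^T)^s' := by
      unfold Hw
      rw [Nat.add_sub_cancel, ← hm, ← hT]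
    rw [hHs]
    split_ifs with h
    · have h1 := norm_le_pi_norm a (k, ⟨j, h⟩)
      rw [Int.norm_eq_abs] at h1
      have h2 : ((w j : ℤ) : ℝ) * (j ! : ℝ) = ((m-1)! : ℝ) := by
        have := hwj j h
        exact_mod_cast this
      have h3 : (0:ℝ) ≤ ((w j : ℤ) : ℝ) := by rw [hw]; simp only; positivity
      push_cast
      rw [abs_mul, abs_of_nonneg h3, mul_assoc, h2, mul_comm]
      have hnorm3 := hnorm2
      push_cast at hnorm3
      exact mul_le_mul_of_nonneg_left (h1.trans hnorm3) (by positivity)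
    · simp only [Int.cast_zero, abs_zero, zero_mul]; positivity
  · intro i hi
    have h1 := congrFun hMa ⟨i, hi⟩
    simp only [mulVec, dotProduct, Pi.zero_apply, hM] at h1
    rw [Fintype.sum_prod_type] at h1
    have h2 : ∑ k : Fin (d+1), (Bp ((sk k : ℕ) : ℤ) (A k) i).eval 0 =
        ((m-1)! : ℤ) * ∑ k : Fin (d+1), ∑ j : Fin m, ((i.choose j : ℕ) : ℤ) *
          ((sk k : ℕ) : ℤ)^(i - (j : ℕ)) * a (k, j) := by
      rw [Finset.mul_sum]
      refine Finset.sum_congr rfl fun k _ => ?_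
      rw [Bp_eval_zero _ _ m (hdeg k), Finset.sum_range, Finset.mul_sum]
      refine Finset.sum_congr rfl fun j _ => ?_
      rw [hcoeff, dif_pos j.2, Nat.descFactorial_eq_factorial_mul_choose, ← hwj j j.2]
      push_cast
      ring
    rw [h2]
    have h3 : ∑ k : Fin (d+1), ∑ j : Fin m, ((i.choose j : ℕ) : ℤ) *
          ((sk k : ℕ) : ℤ)^(i - (j : ℕ)) * a (k, j) = 0 := h1
    rw [h3, mul_zero]

end

end H23E
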