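import Mathlib

open Filter Topology
open scoped Nat

namespace H23E

noncomputable section

lemma rpow_step (x y γ : ℝ) (hx : 1 ≤ x) (hγ0 : 0 < γ) (hγ1 : γ ≤ 1) (hy : x + x^(1-γ) ≤ y) :
    x^γ + γ/2 ≤ y^γ := by
  have hx0 : 0 < x := by linarith
  have hw0 : 0 < x^(1-γ) := by positivity
  have hwx : x^(1-γ) ≤ x := by
    calc x^(1-γ) ≤ x^(1:ℝ) := Real.rpow_le_rpow_of_exponent_le hx (by linarith)
      _ = x := Real.rpow_one x
  set r : ℝ := x^(1-γ) / x with hr
  have hr0 : 0 < r := by positivity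
  have hr1 : r ≤ 1 := by rw [hr, div_le_one hx0]; exact hwx
  have h1 : r / 2 ≤ Real.log (1 + r) := by
    have h2 := Real.one_sub_inv_le_log_of_pos (by linarith : (0:ℝ) < 1 + r)
    refine le_trans ?_ h2
    have h3 : 1 - (1+r)⁻¹ = r / (1+r) := by field_simp; ring
    rw [h3]
    exact div_le_div_of_nonneg_left hr0.le (by linarith) (by linarith)
  have h2 : 1 + γ * (r/2) ≤ (1 + r)^γ := by
    rw [Real.rpow_def_of_pos (by linarith)]
    have h3 := Real.add_one_le_exp (Real.log (1+r) * γ)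
    have h4 : γ * (r/2) ≤ Real.log (1+r) * γ := by nlinarith
    linarith
  have hxr : x * r = x^(1-γ) := by rw [hr]; field_simp
  calc x^γ + γ/2 = x^γ * (1 + γ * (r/2)) := by
        have h3 : x^γ * r = 1 := by
          rw [hr, mul_div_assoc', ← Real.rpow_add hx0]
          have : γ + (1 - γ) = 1 := by ring
          rw [this, Real.rpow_one]; field_simp
        calc x^γ + γ/2 = x^γ + γ/2 * (x^γ * r) := by rw [h3, mul_one]
          _ = _ := by ring
    _ ≤ x^γ * (1+r)^γ := mul_le_mul_of_nonneg_left h2 (by positivity)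
    _ = (x * (1+r))^γ := (Real.mul_rpow hx0.le (by linarith)).symm
    _ ≤ y^γ := by
        apply Real.rpow_le_rpow (by positivity) _ hγ0.le
        rw [mul_add, mul_one, hxr]; exact hy

open scoped Classical in
lemma sparse_count (P : ℕ → Prop) (n₀ : ℕ) (γ : ℝ) (hγ0 : 0 < γ) (hγ1 : γ ≤ 1)
    (h : ∀ n ≥ n₀, P n → ∀ W : ℕ, 1 ≤ W → P (n+W) → (n:ℝ)^(1-γ) ≤ W) :
    ∃ C : ℝ, ∀ N : ℕ, 1 ≤ N → (((Finset.range (N+1)).filter P).card : ℝ) ≤ C * (N:ℝ)^γ := by
  refine ⟨n₀ + 2 + 2/γ, fun N hN => ?_⟩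
  have hNR : (1:ℝ) ≤ N := by exact_mod_cast hN
  have hNγ : 1 ≤ (N:ℝ)^γ := Real.one_le_rpow hNR hγ0.le
  set K : ℝ := 2/γ with hK
  have hK0 : 0 < K := by positivity
  set m₀ := n₀ + 1 with hm₀
  have hsub : (Finset.range (N+1)).filter P ⊆ Finset.range m₀ ∪
      ((Finset.range (N+1)).filter (fun n => m₀ ≤ n ∧ P n)) := by
    intro n hn
    rw [Finset.mem_filter] at hn
    rw [Finset.mem_union, Finset.mem_filter, Finset.mem_range]
    by_cases hlt : n < m₀
    · exact Or.inl hlt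
    · exact Or.inr ⟨hn.1, by omega, hn.2⟩
  have hcard := (Finset.card_le_card hsub).trans (Finset.card_union_le _ _)
  rw [Finset.card_range] at hcard
  have hinj : ((Finset.range (N+1)).filter (fun n => m₀ ≤ n ∧ P n)).card ≤
      (Finset.range (⌊K * (N:ℝ)^γ⌋₊ + 1)).card := by
    apply Finset.card_le_card_of_injOn (fun n : ℕ => ⌊K * (n:ℝ)^γ⌋₊)
    · intro n hn
      have hn' := Finset.mem_filter.mp (Finset.mem_coe.mp hn)
      rw [Finset.coe_range, Set.mem_Iio, Nat.lt_succ_iff]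
      apply Nat.floor_le_floor
      apply mul_le_mul_of_nonneg_left _ hK0.le
      apply Real.rpow_le_rpow (by positivity) _ hγ0.le
      have := Finset.mem_range.mp hn'.1
      exact_mod_cast (by omega : n ≤ N)
    · have key : ∀ a b : ℕ, a < b → m₀ ≤ a → P a → P b →
          ⌊K * (a:ℝ)^γ⌋₊ < ⌊K * (b:ℝ)^γ⌋₊ := by
        intro a b hab ha hPa hPb
        obtain ⟨W, rfl⟩ : ∃ W, b = a + W := ⟨b - a, by omega⟩
        have h1 := h a (by omega) hPa W (by omega) hPb
        have ha1 : (1:ℝ) ≤ a := by exact_mod_cast (by omega : 1 ≤ a)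
        have h2 := rpow_step (a:ℝ) ((a+W : ℕ):ℝ) γ ha1 hγ0 hγ1 (by push_cast; linarith)
        have h3 : K * (a:ℝ)^γ + 1 ≤ K * ((a+W : ℕ):ℝ)^γ := by
          have h4 : K * ((a:ℝ)^γ + γ/2) ≤ K * ((a+W : ℕ):ℝ)^γ := mul_le_mul_of_nonneg_left h2 hK0.le
          have h5 : K * (γ/2) = 1 := by rw [hK]; field_simp
          linarith
        have h6 : ⌊K * (a:ℝ)^γ⌋₊ + 1 ≤ ⌊K * ((a+W : ℕ):ℝ)^γ⌋₊ := by
          rw [← Nat.floor_add_one (by positivity)]
          exact Nat.floor_le_floor h3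
        omega
      intro a ha b hb hab
      have ha' := (Finset.mem_filter.mp (Finset.mem_coe.mp ha)).2
      have hb' := (Finset.mem_filter.mp (Finset.mem_coe.mp hb)).2
      by_contra hne
      rcases lt_or_gt_of_ne hne with hlt | hlt
      · exact absurd hab (key a b hlt ha'.1 ha'.2 hb'.2).ne
      · exact absurd hab (key b a hlt hb'.1 hb'.2 ha'.2).ne'
  rw [Finset.card_range] at hinj
  have hfl : ((⌊K * (N:ℝ)^γ⌋₊ : ℕ):ℝ) ≤ K * (N:ℝ)^γ := Nat.floor_le (by positivity)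
  have htot : (((Finset.range (N+1)).filter P).card : ℝ) ≤ (m₀:ℝ) + (K * (N:ℝ)^γ + 1) := by
    have : (((Finset.range (N+1)).filter P).card : ℝ) ≤ ((m₀ + (⌊K * (N:ℝ)^γ⌋₊ + 1) : ℕ):ℝ) := by
      exact_mod_cast hcard.trans (by omega)
    push_cast at this
    linarith
  refine htot.trans ?_
  rw [hm₀]
  push_cast
  have hn₀ : (0:ℝ) ≤ n₀ := by positivity
  nlinarith

open scoped Classical in
/-- counting from windows of length `n^(1-γ)` with at most `d` elements each -/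
lemma sparse_count2e (P : ℕ → Prop) (n₀ d : ℕ) (γ : ℝ) (hγ0 : 0 < γ) (hγ1 : γ ≤ 1)
    (h : ∀ n ≥ n₀, ∀ S : Finset ℕ, (∀ k ∈ S, P k ∧ n ≤ k ∧ (k:ℝ) ≤ n + (n:ℝ)^(1-γ)) → S.card ≤ d)
    (N : ℕ) (hN : 1 ≤ N) :
    (((Finset.range (N+1)).filter P).card : ℝ) ≤ (n₀ + 1 + d * (1 + 2/γ)) * (N:ℝ)^γ := by
  have hNR : (1:ℝ) ≤ N := by exact_mod_cast hN
  have hNγ : 1 ≤ (N:ℝ)^γ := Real.one_le_rpow hNR hγ0.le
  set K : ℝ := 2/γ with hK
  have hK0 : 0 < K := by positivity
  set m₀ := n₀ + 1 with hm₀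
  set U : Finset ℕ := (Finset.range (N+1)).filter (fun n => m₀ ≤ n ∧ P n) with hU
  have hsub : (Finset.range (N+1)).filter P ⊆ Finset.range m₀ ∪ U := by
    intro n hn
    rw [Finset.mem_filter] at hn
    rw [Finset.mem_union, hU, Finset.mem_filter, Finset.mem_range]
    by_cases hlt : n < m₀
    · exact Or.inl hlt
    · exact Or.inr ⟨hn.1, by omega, hn.2⟩
  have hcard := (Finset.card_le_card hsub).trans (Finset.card_union_le _ _)
  rw [Finset.card_range] at hcard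
  set f : ℕ → ℕ := fun n => ⌊K * (n:ℝ)^γ⌋₊ with hf
  have hmono : ∀ a b : ℕ, a ≤ b → K * (a:ℝ)^γ ≤ K * (b:ℝ)^γ := by
    intro a b hab
    apply mul_le_mul_of_nonneg_left _ hK0.le
    exact Real.rpow_le_rpow (by positivity) (by exact_mod_cast hab) hγ0.le
  have hfib : ∀ b ∈ U.image f, (U.filter (fun x => f x = b)).card ≤ d := by
    intro b hb
    by_cases hne : (U.filter (fun x => f x = b)).Nonempty
    · set n := (U.filter (fun x => f x = b)).min' hne with hn
      have hnmem := Finset.min'_mem _ hne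
      rw [← hn] at hnmem
      obtain ⟨hnU, hnb⟩ := Finset.mem_filter.mp hnmem
      have hnU' := (Finset.mem_filter.mp hnU).2
      apply h n (by omega)
      intro k hk
      obtain ⟨hkU, hkb⟩ := Finset.mem_filter.mp hk
      have hkU' := (Finset.mem_filter.mp hkU).2
      have hnk : n ≤ k := Finset.min'_le _ _ hk
      refine ⟨hkU'.2, hnk, ?_⟩
      by_contra hcon
      push Not at hcon
      have hn1 : (1:ℝ) ≤ n := by exact_mod_cast (by omega : 1 ≤ n)
      have h2 := rpow_step (n:ℝ) (k:ℝ) γ hn1 hγ0 hγ1 hcon.le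
      have h3 : K * (n:ℝ)^γ + 1 ≤ K * (k:ℝ)^γ := by
        have h4 : K * ((n:ℝ)^γ + γ/2) ≤ K * (k:ℝ)^γ := mul_le_mul_of_nonneg_left h2 hK0.le
        have h5 : K * (γ/2) = 1 := by rw [hK]; field_simp
        linarith
      have h6 : f n + 1 ≤ f k := by
        rw [hf]
        simp only
        rw [← Nat.floor_add_one (by positivity)]
        exact Nat.floor_le_floor h3
      omega
    · rw [Finset.not_nonempty_iff_eq_empty] at hne
      rw [hne]; simp
  have himg : U.image f ⊆ Finset.range (⌊K * (N:ℝ)^γ⌋₊ + 1) := by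
    intro b hb
    obtain ⟨n, hn, rfl⟩ := Finset.mem_image.mp hb
    rw [Finset.mem_range, Nat.lt_succ_iff]
    apply Nat.floor_le_floor
    apply hmono
    have := Finset.mem_range.mp (Finset.mem_filter.mp hn).1
    omega
  have hU1 := Finset.card_le_mul_card_image U d hfib
  have hU2 := Finset.card_le_card himg
  rw [Finset.card_range] at hU2
  have hfl : ((⌊K * (N:ℝ)^γ⌋₊ : ℕ):ℝ) ≤ K * (N:ℝ)^γ := Nat.floor_le (by positivity)
  have hUR : (U.card : ℝ) ≤ d * (K * (N:ℝ)^γ + 1) := by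
    have h1 : (U.card : ℝ) ≤ ((d * (⌊K * (N:ℝ)^γ⌋₊ + 1) : ℕ):ℝ) := by
      exact_mod_cast hU1.trans (Nat.mul_le_mul_left _ hU2)
    refine h1.trans ?_
    push_cast
    exact mul_le_mul_of_nonneg_left (by linarith) (by positivity)
  have htot : (((Finset.range (N+1)).filter P).card : ℝ) ≤ (m₀:ℝ) + U.card := by
    exact_mod_cast hcard
  refine htot.trans ?_
  rw [hm₀]
  push_cast
  have hn₀ : (0:ℝ) ≤ n₀ := by positivity
  have hd0 : (0:ℝ) ≤ d := by positivity
  have h1 : (d:ℝ) * (K * (N:ℝ)^γ + 1) ≤ d * ((1 + K) * (N:ℝ)^γ) :=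
    mul_le_mul_of_nonneg_left (by linarith) hd0
  nlinarith

end

end H23E
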