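import Mathlib

open Filter Topology
open scoped Nat

namespace H23E

noncomputable section

lemma unif_numeric (c d n W t N0 L LL w a lM lfS ld l4 : ℝ)
    (hc0 : 0 < c) (hc1 : c ≤ 1) (hcL : 120 ≤ c * L) (hd : 2048 ≤ c * d) (hdW : d ≤ W) (hd0 : 0 ≤ d)
    (hW1 : 1 ≤ W) (hL1 : 1 ≤ L) (hLL : 0 ≤ LL) (hLLL : LL + 1 ≤ L) (ha : 0 ≤ a) (hn : 0 ≤ n)
    (hN0 : N0 = (d+1) * t) (ht0 : 0 ≤ t)
    (ht1 : 22/10*n ≤ N0*L) (ht2 : N0*L ≤ 22/10*n + (d+1)*L)
    (hw0 : 0 ≤ w) (hw : w ≤ c/16*L + 1)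
    (hE1 : 100*((W+1)*(L+1))*L ≤ n) (hE2 : 10*(22/10*n + (W+1)*L)*(LL+7) ≤ n*L)
    (hE3 : 20*a ≤ n) (hlM : lM ≤ 2*L) (hlfS : (N0-d)*(L-LL-1) ≤ lfS) (hld : ld ≤ W) (hl4 : l4 ≤ 2) :
    ((a+n+W) + ld + 2*N0*w + (3*t*L + 2*lM + 4*N0*w) + 1 + W - lfS + l4 ≤ 0) ∧
    (ld + (N0+d+1)*w + (3*t*L + 2*lM + 4*N0*w) + 1 - c*n + l4 ≤ 0) := by
  have hL0 : 0 < L := by linarith
  -- t L
  have htL : 2048 * (t*L) ≤ 22/10*(c*n) + 2048*L := by
    have h1 : (d+1)*(t*L) ≤ 22/10*n + (d+1)*L := by rw [hN0] at ht2; linarith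
    have h2 : 0 ≤ t*L := by positivity
    have h3 : (d+1) * (t*L - L) ≤ 22/10*n := by linarith
    by_cases hneg : t*L - L ≤ 0
    · have : 0 ≤ c*n := by positivity
      nlinarith
    · push Not at hneg
      have h4 : 2048 * (t*L - L) ≤ (c*(d+1)) * (t*L-L) := by
        apply mul_le_mul_of_nonneg_right _ hneg.le
        nlinarith
      have h5 : c * ((d+1) * (t*L - L)) ≤ c*(22/10*n) := mul_le_mul_of_nonneg_left h3 hc0.le
      nlinarith
  -- N0 bounds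
  have hN0nn : 0 ≤ N0 := by rw [hN0]; positivity
  have hN0u : N0 * (LL+7) * 10 ≤ n := by
    have h1 : (N0*L) * (LL+7) ≤ (22/10*n + (d+1)*L)*(LL+7) :=
      mul_le_mul_of_nonneg_right ht2 (by linarith)
    have h2 : (22/10*n + (d+1)*L)*(LL+7) ≤ (22/10*n + (W+1)*L)*(LL+7) := by
      apply mul_le_mul_of_nonneg_right _ (by linarith)
      nlinarith
    have h3 : (N0 * (LL+7) * 10) * L ≤ n * L := by nlinarith
    exact le_of_mul_le_mul_right h3 hL0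
  set e := (W+1)*(L+1) with he
  have he1 : 100 * e * L ≤ n := hE1
  have hWL : (W+1)*L ≤ e := by rw [he]; nlinarith
  have hW1e : W + 1 ≤ e := by rw [he]; nlinarith
  have hLe : L + 1 ≤ e := by rw [he]; nlinarith
  have he0 : 0 ≤ e := by linarith
  have hen : 100 * e ≤ n := by nlinarith
  -- c n large
  have hcn : 120 * n ≤ (c*n)*L := by nlinarith
  have hecn : 12000 * e ≤ c * n := by
    have h1 : 12000 * e * L ≤ (c*n) * L := by nlinarith
    exact le_of_mul_le_mul_right h1 hL0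
  have hN0c : 120 * N0 ≤ 22/10 * (c*n) + 120*(W+1) := by
    have h1 : (120 * N0) * L ≤ (22/10*(c*n) + 120*(W+1)) * L := by nlinarith
    exact le_of_mul_le_mul_right h1 hL0
  have hN0w : N0 * w ≤ c/16*(N0*L) + N0 := by nlinarith
  have hcN0L : c * (N0*L) ≤ 22/10*(c*n) + e := by
    have h1 : c * (N0*L) ≤ c*(22/10*n + (d+1)*L) := mul_le_mul_of_nonneg_left ht2 hc0.le
    have h2 : c*((d+1)*L) ≤ 1*((W+1)*L) := by
      apply mul_le_mul hc1 _ (by positivity) (by norm_num)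
      nlinarith
    nlinarith
  have hdL : d * L ≤ e := by nlinarith
  constructor
  · have h1 : lfS ≥ N0*L - d*L - N0*(LL+1) := by nlinarith
    have h2 : 6*(N0*w) ≤ 6/16*(c*(N0*L)) + 6*N0 := by nlinarith
    have h3 : c*(N0*L) ≤ N0*L := by
      have : 0 ≤ N0*L := by positivity
      nlinarith
    nlinarith
  · have h1 : (d+1)*w ≤ e := by
      have h2 : w ≤ L + 1 := by nlinarith
      calc (d+1)*w ≤ (W+1)*(L+1) := mul_le_mul (by linarith) h2 hw0 (by linarith)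
        _ = e := rfl
    nlinarith

end

end H23E
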