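import Pool.Agent.Lib.MP_2ecc60_nt_h23.WinIneq
import Pool.Agent.Lib.MP_2ecc60_nt_h23.UnifNum

open Filter Topology
open scoped Nat

namespace H23E

noncomputable section

lemma Kw_le (d t W n : ℕ) (h3 : 3*t ≤ n) (hn : 1 ≤ n) (ht : 1 ≤ t) :
    Kw d 3 t W ≤ Real.exp (3*t*Real.log n + 2 * Real.log (((d+1)*(3*t) : ℕ) : ℝ) +
      4 * ((((d:ℝ)+1)*t) * Real.log (1+(W:ℝ)))) := by
  have hW1 : (0:ℝ) < 1 + (W:ℝ) := by positivity
  have h1 : ((3*t-1)! : ℝ) ≤ Real.exp (3*t*Real.log n) := by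
    have h2 : (3*t-1)! ≤ (3*t-1)^(3*t-1) := Nat.factorial_le_pow _
    have h3 : (3*t-1)^(3*t-1) ≤ n^(3*t) := by
      calc (3*t-1)^(3*t-1) ≤ n^(3*t-1) := Nat.pow_le_pow_left (by omega) _
        _ ≤ n^(3*t) := Nat.pow_le_pow_right (by omega) (by omega)
    have h4 : ((3*t-1)! : ℝ) ≤ (n:ℝ)^(3*t) := by exact_mod_cast h2.trans h3
    refine h4.trans (le_of_eq ?_)
    rw [pow_eq_exp n (by omega)]
    push_cast; ring_nf
  have hM0 : (0:ℝ) < (((d+1)*(3*t) : ℕ) : ℝ) := by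
    have : 0 < (d+1)*(3*t) := Nat.mul_pos (by omega) (by omega)
    exact_mod_cast this
  have h2 : Hw d 3 t W = Real.exp (2 * Real.log (((d+1)*(3*t) : ℕ) : ℝ) +
      4 * ((((d:ℝ)+1)*t) * Real.log (1+(W:ℝ)))) := by
    unfold Hw
    have h3 : (1+(W:ℝ))^((3-1)*(d+1)*t) = Real.exp (2*((((d:ℝ)+1)*t) * Real.log (1+(W:ℝ)))) := by
      have : (1+(W:ℝ)) = Real.exp (Real.log (1+(W:ℝ))) := (Real.exp_log hW1).symm
      conv_lhs => rw [this]
      rw [← Real.exp_nat_mul]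
      congr 1
      push_cast; ring
    have h4 : (((d+1)*(3*t) : ℕ) : ℝ) = Real.exp (Real.log (((d+1)*(3*t) : ℕ) : ℝ)) :=
      (Real.exp_log hM0).symm
    rw [h3]
    conv_lhs => rw [h4]
    rw [← Real.exp_add, ← Real.exp_nat_mul]
    congr 1
    push_cast; ring
  unfold Kw
  rw [h2, add_assoc, Real.exp_add (3*t*Real.log n)]
  exact mul_le_mul_of_nonneg_right h1 (Real.exp_pos _).le

lemma unif_ev (a lam1 : ℝ) (hlam1 : 0 < lam1) : ∀ᶠ n : ℕ in atTop,
    100*(((n:ℝ)^((1:ℝ)/16)+1)*(Real.log n+1))*Real.log n ≤ n ∧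
    10*(22/10*n + ((n:ℝ)^((1:ℝ)/16)+1)*Real.log n)*(Real.log (Real.log n)+7) ≤ n*Real.log n ∧
    20*a ≤ n ∧ 1 ≤ lam1 * Real.exp n ∧ Real.log (Real.log n) + 1 ≤ Real.log n ∧ 1 ≤ Real.log n ∧
    0 ≤ Real.log (Real.log n) := by
  have hlogn : Tendsto (fun n : ℕ => Real.log (n:ℝ)) atTop atTop :=
    Real.tendsto_log_atTop.comp tendsto_natCast_atTop_atTop
  have hn : Tendsto (fun n : ℕ => (n:ℝ)) atTop atTop := tendsto_natCast_atTop_atTop
  have e7 : ∀ᶠ n : ℕ in atTop, 1 ≤ lam1 * Real.exp n :=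
    ((Real.tendsto_exp_atTop.comp hn).const_mul_atTop hlam1).eventually_ge_atTop 1
  have e1 : ∀ᶠ x : ℝ in atTop, Real.log x ≤ x^((1:ℝ)/16) := by
    have h1 := (isLittleO_log_rpow_atTop (by norm_num : (0:ℝ) < 1/16)).def (c := 1) one_pos
    filter_upwards [h1, eventually_ge_atTop 1] with x hx hx1
    rw [Real.norm_eq_abs, Real.norm_eq_abs, abs_of_nonneg (Real.log_nonneg hx1),
      abs_of_nonneg (by positivity), one_mul] at hx
    exact hx
  have e2 : ∀ᶠ x : ℝ in atTop, Real.log x ≤ (1/500) * x := by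
    have h2 := Real.isLittleO_log_id_atTop.def (c := 1/500) (by norm_num)
    filter_upwards [h2, eventually_ge_atTop 1] with z hz hz3
    rw [Real.norm_eq_abs, Real.norm_eq_abs, abs_of_nonneg (Real.log_nonneg hz3)] at hz
    simp only [id] at hz
    rwa [abs_of_nonneg (by linarith)] at hz
  have e3 := hn.eventually_ge_atTop (400^2)
  filter_upwards [e7, hn.eventually e1, hlogn.eventually e2, hlogn.eventually_ge_atTop 10000,
    hn.eventually_ge_atTop (20*a), e3] with n h7 h1 h2 h4 h5 h6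
  set L := Real.log (n:ℝ) with hL
  set X := (n:ℝ)^((1:ℝ)/16) with hX
  have hn0 : (0:ℝ) < n := by linarith
  have hX1 : 1 ≤ X := by linarith
  have hX16 : X^16 = n := by
    rw [hX, ← Real.rpow_natCast, ← Real.rpow_mul hn0.le]; norm_num
  have hLL0 : 0 ≤ Real.log L := Real.log_nonneg (by linarith)
  have hX3 : (X+1)*(L+1)*L ≤ 4*X^3 := by
    have h8 : (X+1) ≤ 2*X := by linarith
    have h9 : (L+1) ≤ 2*X := by linarith
    calc (X+1)*(L+1)*L ≤ (2*X)*(2*X)*X :=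
          mul_le_mul (mul_le_mul h8 h9 (by linarith) (by linarith)) h1 (by linarith) (by positivity)
      _ = 4*X^3 := by ring
  have hXbig : 10000 ≤ X := by linarith
  have hX4 : 10000 * X^3 ≤ X^4 := by
    have : 0 ≤ X^3 := by positivity
    nlinarith
  have hX416 : X^4 ≤ n := by
    rw [← hX16]; exact pow_le_pow_right₀ hX1 (by norm_num)
  refine ⟨by nlinarith, ?_, h5, h7, by linarith, by linarith, hLL0⟩
  have h8 : (X+1)*L ≤ (X+1)*(L+1)*L := by
    have : 0 ≤ (X+1)*L := by positivity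
    nlinarith
  have h9 : (X+1)*L ≤ n/10 := by nlinarith
  have h10 : Real.log L + 7 ≤ L/250 := by linarith
  calc 10*(22/10*n + (X+1)*L)*(Real.log L+7) ≤ 10*(22/10*n + n/10)*(L/250) := by
        apply mul_le_mul _ h10 (by linarith) (by positivity)
        linarith
    _ ≤ n*L := by nlinarith

theorem window3 (lam : ℝ) (hlam : lam ≠ 0) : ∃ n₀ : ℕ, ∀ n ≥ n₀, ∀ c : ℝ, 0 < c → c ≤ 1 →
    ∀ d W : ℕ, 2048 ≤ c * d → (W:ℝ) ≤ (n:ℝ)^(c/16) → ∀ k : Fin (d+1) → ℕ, Function.Injective k →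
    (∀ i, n ≤ k i ∧ k i ≤ n + W) →
    ∃ i, Real.exp (-(c * n)) ≤ |lam * Real.exp (k i) - round (lam * Real.exp (k i))| := by
  set a : ℝ := Real.log (|lam| + 1) with ha
  have hlam1 : 0 < |lam| := abs_pos.mpr hlam
  have ha0 : 0 ≤ a := Real.log_nonneg (by linarith)
  obtain ⟨n₀, hn₀⟩ := eventually_atTop.mp (unif_ev a |lam| hlam1)
  refine ⟨n₀ + 3, fun n hn c hc0 hc1 d W hcd hWn k hk hkn => ?_⟩
  obtain ⟨E1, E2, E3, E4, E5, E6, E7⟩ := hn₀ n (by omega)
  set L := Real.log (n:ℝ) with hL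
  set LL := Real.log L with hLL
  have hn3 : (3:ℝ) ≤ n := by exact_mod_cast (by omega : 3 ≤ n)
  have hnR : (0:ℝ) < n := by linarith
  have hL0 : 0 < L := by linarith
  have hd0 : (0:ℝ) ≤ d := by positivity
  have hdR : (2048:ℝ) ≤ d := by nlinarith
  have hd1 : 1 ≤ d := by
    have : (1:ℝ) ≤ d := by linarith
    exact_mod_cast this
  have hdW : d ≤ W := by
    have h1 : (Finset.univ.image k) ⊆ Finset.Icc n (n+W) := by
      intro x hx
      obtain ⟨i, -, rfl⟩ := Finset.mem_image.mp hx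
      exact Finset.mem_Icc.mpr (hkn i)
    have h2 := Finset.card_le_card h1
    rw [Finset.card_image_of_injective _ hk, Finset.card_univ, Fintype.card_fin, Nat.card_Icc] at h2
    omega
  have hW1 : 1 ≤ W := hd1.trans hdW
  have hWR : (1:ℝ) ≤ W := by exact_mod_cast hW1
  have hdWR : (d:ℝ) ≤ W := by exact_mod_cast hdW
  have hlogW : Real.log W ≤ c/16 * L := by
    rw [hL, ← Real.log_rpow hnR]
    exact Real.log_le_log (by linarith) hWn
  have hcL : 120 ≤ c * L := by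
    have h1 : Real.log 2048 ≤ Real.log W := Real.log_le_log (by norm_num) (by linarith)
    have h2 : Real.log 2048 = 11 * Real.log 2 := by
      rw [show (2048:ℝ) = 2^11 by norm_num, Real.log_pow]; norm_num
    have h3 := Real.log_two_gt_d9
    linarith
  have hWX : (W:ℝ) ≤ (n:ℝ)^((1:ℝ)/16) :=
    hWn.trans (Real.rpow_le_rpow_of_exponent_le (by linarith) (by linarith))
  set X := (n:ℝ)^((1:ℝ)/16) with hX
  have hE1 : 100*(((W:ℝ)+1)*(L+1))*L ≤ n := by
    refine le_trans ?_ E1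
    gcongr
  have hE2 : 10*(22/10*n + ((W:ℝ)+1)*L)*(LL+7) ≤ n*L := by
    refine le_trans ?_ E2
    gcongr
  set t : ℕ := ⌈22/10*(n:ℝ)/(((d:ℝ)+1)*L)⌉₊ with ht
  have hDL : 0 < ((d:ℝ)+1)*L := by positivity
  have ht1 : 22/10*(n:ℝ)/(((d:ℝ)+1)*L) ≤ t := Nat.le_ceil _
  have ht2 : (t:ℝ) ≤ 22/10*(n:ℝ)/(((d:ℝ)+1)*L) + 1 := (Nat.ceil_lt_add_one (by positivity)).le
  set N0 : ℝ := ((d:ℝ)+1)*t with hN0
  have hN1 : 22/10*(n:ℝ) ≤ N0*L := by
    have := (div_le_iff₀ hDL).mp ht1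
    rw [hN0]; linarith
  have hN2 : N0*L ≤ 22/10*(n:ℝ) + ((d:ℝ)+1)*L := by
    have h1 : (t:ℝ) * (((d:ℝ)+1)*L) ≤ (22/10*(n:ℝ)/(((d:ℝ)+1)*L) + 1) * (((d:ℝ)+1)*L) :=
      mul_le_mul_of_nonneg_right ht2 hDL.le
    have h2 : (22/10*(n:ℝ)/(((d:ℝ)+1)*L) + 1) * (((d:ℝ)+1)*L) = 22/10*(n:ℝ) + ((d:ℝ)+1)*L := by
      field_simp
    rw [hN0]; linarith
  -- sizes
  set e := ((W:ℝ)+1)*(L+1) with he
  have heW : (W:ℝ) + 1 ≤ e := by rw [he]; nlinarith
  have heWL : ((W:ℝ)+1)*L ≤ e := by rw [he]; nlinarith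
  have he0 : 0 ≤ e := by linarith
  have heL : 100 * e ≤ n / L := by
    rw [le_div_iff₀ hL0]; linarith
  have hnL : n / L ≤ n := div_le_self hnR.le E6
  have hN0lo : 22/10 * (n / L) ≤ N0 := by
    have h1 : 22/10 * (n / L) * L ≤ N0 * L := by
      have : 22/10 * (n / L) * L = 22/10*(n:ℝ) := by field_simp
      linarith
    exact le_of_mul_le_mul_right h1 hL0
  have hN0hi : N0 ≤ 22/10 * (n / L) + (d + 1) := by
    have h1 : N0 * L ≤ (22/10 * (n / L) + (d + 1)) * L := by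
      have : (22/10 * (n / L) + (d + 1)) * L = 22/10*(n:ℝ) + ((d:ℝ)+1)*L := by field_simp
      linarith
    exact le_of_mul_le_mul_right h1 hL0
  have htR2 : (2:ℝ) ≤ t := by
    by_contra hcon
    push Not at hcon
    have h1 : N0 ≤ ((d:ℝ)+1)*2 := by rw [hN0]; exact mul_le_mul_of_nonneg_left hcon.le (by linarith)
    linarith
  have ht2' : 2 ≤ t := by exact_mod_cast htR2
  have h3tn : 3*t ≤ n := by
    have h1 : 3 * (t:ℝ) ≤ n := by
      have h2 : 2049 * (t:ℝ) ≤ N0 := by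
        rw [hN0]; exact mul_le_mul_of_nonneg_right (by linarith) (by positivity)
      linarith
    exact_mod_cast h1
  -- the integers
  by_contra hcon
  push Not at hcon
  obtain ⟨i₀, hi₀⟩ := Finite.exists_min k
  set s : Fin (d+1) → ℕ := fun i => k i - k i₀ with hs
  have hsk : ∀ i, k i₀ + s i = k i := by
    intro i
    have := hi₀ i
    simp only [hs]; omega
  have hsinj : Function.Injective s := by
    intro a b hab
    have : k a = k b := by rw [← hsk a, ← hsk b, hab]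
    exact hk this
  have hsW : ∀ i, s i ≤ W := by
    intro i
    have h1 := (hkn i).2
    have h2 := (hkn i₀).1
    have h3 := hsk i
    omega
  set μ : ℝ := lam * Real.exp (k i₀) with hμ
  have hμs : ∀ i, μ * Real.exp (s i) = lam * Real.exp (k i) := by
    intro i
    rw [hμ, mul_assoc, ← Real.exp_add, ← hsk i]
    push_cast; rfl
  set η : ℝ := Real.exp (-(c * n)) with hη
  set b : Fin (d+1) → ℤ := fun i => round (lam * Real.exp (k i)) with hb
  have hb0 : ∀ i, b i ≠ 0 := by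
    intro i
    apply rnd_ne_zero lam
    have h3 : Real.exp n ≤ Real.exp (k i) := Real.exp_le_exp.mpr (by exact_mod_cast (hkn i).1)
    exact E4.trans (mul_le_mul_of_nonneg_left h3 hlam1.le)
  obtain ⟨S, hS1, hmain⟩ := win_ineq3 d 3 t W le_rfl ht2' s hsinj hsW b hb0 μ η (fun i => by
    rw [hμs i, abs_sub_comm]
    exact (hcon i).le)
  have hS1R : N0 - d ≤ S := by
    have : (((3-2)*(d+1)*t : ℕ):ℝ) ≤ ((S + d : ℕ):ℝ) := by exact_mod_cast hS1
    push_cast at this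
    rw [hN0]; linarith
  have hN0d : n / L ≤ N0 - d := by linarith
  have hSR : n / L ≤ S := hN0d.trans hS1R
  have hS0 : 1 ≤ S := by
    have : (1:ℝ) ≤ S := by linarith
    exact_mod_cast this
  have hlogS : L - LL ≤ Real.log S := by
    rw [hL, hLL, ← Real.log_div hnR.ne' hL0.ne']
    exact Real.log_le_log (by positivity) hSR
  have hlfS : (N0-d)*(L-LL-1) ≤ Real.log (S ! : ℝ) := by
    refine le_trans ?_ (log_fact_ge S hS0)
    apply mul_le_mul hS1R (by linarith) (by linarith) (by positivity)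
  set w : ℝ := Real.log (1+(W:ℝ)) with hw
  have hw0 : 0 ≤ w := Real.log_nonneg (by linarith)
  have hlog2 : Real.log 2 ≤ 1 := by have := Real.log_two_lt_d9; linarith
  have hwle : w ≤ c/16*L + 1 := by
    have h1 : w ≤ Real.log (W * 2) := Real.log_le_log (by positivity) (by linarith)
    rw [Real.log_mul (by positivity) (by norm_num)] at h1
    linarith
  set lM : ℝ := Real.log (((d+1)*(3*t) : ℕ) : ℝ) with hlM
  have hlMle : lM ≤ 2*L := by
    have h1 : (((d+1)*(3*t) : ℕ) : ℝ) ≤ (n:ℝ)^2 := by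
      have h2 : (((d+1)*(3*t) : ℕ) : ℝ) = 3 * N0 := by rw [hN0]; push_cast; ring
      have h3 : 3 * N0 ≤ 7 * n := by linarith
      have h4 : 100 * 2 ≤ (n:ℝ) := by linarith
      rw [h2]; nlinarith
    calc lM ≤ Real.log ((n:ℝ)^2) := Real.log_le_log (by
          have : 0 < (d+1)*(3*t) := Nat.mul_pos (by omega) (by omega)
          exact_mod_cast this) h1
      _ = 2*L := by rw [Real.log_pow, hL]; norm_num
  have hld : Real.log ((d:ℝ)+1) ≤ W := by
    have := Real.log_le_sub_one_of_pos (by linarith : (0:ℝ) < (d:ℝ)+1)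
    linarith
  have hlog4 : Real.log 4 ≤ 2 := log_four_le
  obtain ⟨g1, g2⟩ := unif_numeric c d n W t N0 L LL w a lM (Real.log (S ! : ℝ))
    (Real.log ((d:ℝ)+1)) (Real.log 4) hc0 hc1 hcL hcd hdWR hd0 hWR E6 E7 E5 ha0 hnR.le hN0
    (by positivity) hN1 hN2 hw0 hwle hE1 hE2 E3 hlMle hlfS hld hlog4
  have hKw := Kw_le d t W n h3tn (by omega) (by omega)
  rw [← hL, ← hlM, ← hw, ← hN0] at hKw
  have hKw0 := Kw_nonneg d 3 t W
  have hW1pos : (0:ℝ) < 1 + (W:ℝ) := by positivity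
  have hpw : ∀ j : ℕ, (1+(W:ℝ))^j = Real.exp (j * w) := by
    intro j
    rw [Real.exp_nat_mul, hw, Real.exp_log hW1pos]
  have hDexp : ((d:ℝ)+1) = Real.exp (Real.log ((d:ℝ)+1)) := (Real.exp_log (by linarith)).symm
  have hSexp : (S ! : ℝ) = Real.exp (Real.log (S ! : ℝ)) := (Real.exp_log (by positivity)).symm
  have hquarter : Real.exp (-Real.log 4) = 1/4 := exp_neg_log_four
  have hμb : |μ| ≤ Real.exp (a + n + W) := by
    have := mu_abs_le lam (k i₀) n W (hkn i₀).2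
    rw [hμ, ha]; linarith
  set lK : ℝ := 3*t*L + 2*lM + 4*(N0*w) with hlK
  have hfirst : |μ| * (((d:ℝ)+1) * ((1+(W:ℝ))^((3-1)*(d+1)*t) * Kw d 3 t W * Real.exp 1 *
            Real.exp W) / (S ! : ℝ)) ≤ 1/4 := by
    have h1 : (1+(W:ℝ))^((3-1)*(d+1)*t) = Real.exp (2*N0*w) := by
      rw [hpw]; congr 1; rw [hN0]; push_cast; ring
    calc |μ| * (((d:ℝ)+1) * ((1+(W:ℝ))^((3-1)*(d+1)*t) * Kw d 3 t W * Real.exp 1 *
            Real.exp W) / (S ! : ℝ))
        ≤ Real.exp (a + n + W) * (Real.exp (Real.log ((d:ℝ)+1)) * (Real.exp (2*N0*w) *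
          Real.exp lK * Real.exp 1 * Real.exp W) / Real.exp (Real.log (S ! : ℝ))) := by
          rw [← hDexp, ← hSexp, h1]
          gcongr
      _ = Real.exp ((a+n+W) + Real.log ((d:ℝ)+1) + 2*N0*w + lK + 1 + W - Real.log (S ! : ℝ)) := by
          rw [← Real.exp_add, ← Real.exp_add, ← Real.exp_add, ← Real.exp_add, ← Real.exp_sub,
            ← Real.exp_add]
          congr 1; ring
      _ ≤ Real.exp (-Real.log 4) := Real.exp_le_exp.mpr (by rw [hlK]; linarith)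
      _ = 1/4 := hquarter
  have hsecond : ((d:ℝ)+1) * ((1+(W:ℝ))^((d+1)*(t+1)) * Kw d 3 t W * Real.exp 1 * η) ≤ 1/4 := by
    have h1 : (1+(W:ℝ))^((d+1)*(t+1)) = Real.exp ((N0+d+1)*w) := by
      rw [hpw]; congr 1; rw [hN0]; push_cast; ring
    calc ((d:ℝ)+1) * ((1+(W:ℝ))^((d+1)*(t+1)) * Kw d 3 t W * Real.exp 1 * η)
        ≤ Real.exp (Real.log ((d:ℝ)+1)) * (Real.exp ((N0+d+1)*w) * Real.exp lK * Real.exp 1 *
            Real.exp (-(c*n))) := by
          rw [← hDexp, h1, hη]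
          gcongr
      _ = Real.exp (Real.log ((d:ℝ)+1) + (N0+d+1)*w + lK + 1 - c*n) := by
          rw [← Real.exp_add, ← Real.exp_add, ← Real.exp_add, ← Real.exp_add]
          congr 1; ring
      _ ≤ Real.exp (-Real.log 4) := Real.exp_le_exp.mpr (by rw [hlK]; linarith)
      _ = 1/4 := hquarter
  linarith

theorem window3S (lam : ℝ) (hlam : lam ≠ 0) : ∃ n₀ : ℕ, ∀ n ≥ n₀, ∀ c : ℝ, 0 < c → c ≤ 1 →
    ∀ S : Finset ℕ, (∀ k ∈ S, |lam * Real.exp k - round (lam * Real.exp k)| < Real.exp (-(c * k)) ∧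
        n ≤ k ∧ (k:ℝ) ≤ n + (n:ℝ)^(c/16)) → S.card ≤ ⌈2048/c⌉₊ := by
  obtain ⟨n₀, h⟩ := window3 lam hlam
  refine ⟨n₀, fun n hn c hc0 hc1 S hS => ?_⟩
  set d := ⌈2048/c⌉₊ with hd
  by_contra hcon
  push Not at hcon
  obtain ⟨T, hTS, hT⟩ := Finset.exists_subset_card_eq (n := d+1) (s := S) (by omega)
  set k : Fin (d+1) → ℕ := fun i => (T.orderIsoOfFin hT i : ℕ) with hk
  have hkT : ∀ i, k i ∈ T := fun i => (T.orderIsoOfFin hT i).2
  have hinj : Function.Injective k := by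
    intro a b hab
    exact (T.orderIsoOfFin hT).injective (Subtype.ext hab)
  have hcd : 2048 ≤ c * d := by
    have := Nat.le_ceil (2048/c)
    rw [div_le_iff₀ hc0] at this
    rw [hd]; linarith
  set W : ℕ := ⌊(n:ℝ)^(c/16)⌋₊ with hW
  have hWθ : (W:ℝ) ≤ (n:ℝ)^(c/16) := Nat.floor_le (by positivity)
  obtain ⟨i, hi⟩ := h n hn c hc0 hc1 d W hcd hWθ k hinj (fun i => by
    have h1 := (hS _ (hTS (hkT i))).2
    refine ⟨h1.1, ?_⟩
    have h2 : ((k i - n : ℕ):ℝ) ≤ (n:ℝ)^(c/16) := by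
      rw [Nat.cast_sub h1.1]; linarith [h1.2]
    have h3 := Nat.le_floor h2
    rw [← hW] at h3
    omega)
  have h1 := hS _ (hTS (hkT i))
  have h2 : Real.exp (-(c * (k i))) ≤ Real.exp (-(c * n)) := by
    apply Real.exp_le_exp.mpr
    have : (n:ℝ) ≤ k i := by exact_mod_cast h1.2.1
    have := mul_le_mul_of_nonneg_left this hc0.le
    linarith
  linarith [h1.1]

end

end H23E
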