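import Pool.Agent.Lib.MP_2ecc60_nt_h23.Unif
import Pool.Agent.Lib.MP_2ecc60_nt_h23.Sparse

open Filter Topology
open scoped Nat

namespace H23E

noncomputable section

open scoped Classical in
theorem count_unif3 (lam : ℝ) (hlam : lam ≠ 0) :
    ∃ C : ℝ, ∀ c : ℝ, 0 < c → c ≤ 1 → ∀ N : ℕ, 1 ≤ N →
      (((Finset.range (N+1)).filter (fun n : ℕ =>
        |lam * Real.exp n - round (lam * Real.exp n)| < Real.exp (-(c * n)))).card : ℝ) ≤
        C / c * (N:ℝ)^(1-c/16) := by
  obtain ⟨n₀, h⟩ := window3S lam hlam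
  refine ⟨n₀ + 9000, fun c hc0 hc1 N hN => ?_⟩
  set d := ⌈2048/c⌉₊ with hd
  have hmain := sparse_count2e (fun n : ℕ =>
        |lam * Real.exp n - round (lam * Real.exp n)| < Real.exp (-(c * n))) n₀ d (1-c/16)
        (by linarith) (by linarith) (by
          intro n hn S hS
          apply h n hn c hc0 hc1 S
          intro k hk
          have := hS k hk
          rwa [sub_sub_cancel] at this) N hN
  refine hmain.trans ?_
  apply mul_le_mul_of_nonneg_right _ (by positivity)
  have hdle : (d:ℝ) ≤ 2048/c + 1 := (Nat.ceil_lt_add_one (by positivity)).le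
  have hγ : 2/(1-c/16) ≤ 32/15 := by
    rw [div_le_div_iff₀ (by linarith) (by norm_num)]; linarith
  have h1 : (d:ℝ) * (1 + 2/(1-c/16)) ≤ (2048/c+1) * (1 + 32/15) :=
    mul_le_mul hdle (by linarith) (by
      have : 0 < 2/(1-c/16) := by apply div_pos (by norm_num); linarith
      linarith) (by positivity)
  have h2 : (n₀:ℝ) + 1 + (2048/c+1) * (1 + 32/15) ≤ ((n₀:ℝ) + 9000)/c := by
    rw [le_div_iff₀ hc0]
    have h3 : ((n₀:ℝ) + 1 + (2048/c+1) * (1 + 32/15)) * c =
        (n₀:ℝ) * c + c + (2048 + c) * (47/15) := by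
      field_simp; ring
    rw [h3]
    have h4 : (n₀:ℝ) * c ≤ n₀ * 1 := mul_le_mul_of_nonneg_left hc1 (by positivity)
    nlinarith
  linarith

end

end H23E
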