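import Pool.Agent.Lib.MP_2ecc60_nt_h23.WinNum

open Filter Topology
open scoped Nat

namespace H23E

noncomputable section

theorem window2 (lam : ℝ) (hlam : lam ≠ 0) (d : ℕ) (hd : 1 ≤ d) (c θ : ℝ) (hθ0 : 0 ≤ θ)
    (hc0 : 0 < c) (hc : θ * ((d:ℝ)+1) * (c * d + d - 1) < c * d - 1) :
    ∃ n₀ : ℕ, ∀ n ≥ n₀, ∀ k : Fin (d+1) → ℕ, Function.Injective k →
    (∀ i, n ≤ k i ∧ (k i : ℝ) ≤ n + (n:ℝ)^θ) →
    ∃ i, Real.exp (-(c * n)) ≤
      |lam * Real.exp (k i) - round (lam * Real.exp (k i))| := by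
  set a : ℝ := Real.log (|lam| + 1) with ha
  have hlam1 : 0 < |lam| := abs_pos.mpr hlam
  have ha0 : 0 ≤ a := Real.log_nonneg (by linarith)
  have hdR : (1:ℝ) ≤ d := by exact_mod_cast hd
  have hcd : 1 < c * d := by
    have h1 : 0 ≤ c * d + d - 1 := by
      have : 0 ≤ c * d := by positivity
      linarith
    have : 0 ≤ θ * ((d:ℝ)+1) * (c * d + d - 1) := by positivity
    linarith
  have hden : 0 < c * d + d - 1 := by linarith
  -- y = 1 - (d+1) θ > 0
  set y : ℝ := 1 - ((d:ℝ)+1) * θ with hy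
  have hy0 : 0 < y := by
    by_contra hcon
    push Not at hcon
    have h1 : 1 ≤ θ * ((d:ℝ)+1) := by rw [hy] at hcon; linarith
    have h2 : 1 * (c * d + d - 1) ≤ θ * ((d:ℝ)+1) * (c * d + d - 1) :=
      mul_le_mul_of_nonneg_right h1 hden.le
    linarith
  have hθ1 : θ < 1 := by
    have : θ * 1 ≤ ((d:ℝ)+1) * θ := by nlinarith
    rw [hy] at hy0; linarith
  have hco : 0 < 1 + ((d:ℝ)^2-1) * θ := by
    have : 0 ≤ (d:ℝ)^2 - 1 := by nlinarith
    positivity
  have hX1 : 1 / (d * y) < c / (1 + ((d:ℝ)^2-1) * θ) := by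
    rw [div_lt_div_iff₀ (by positivity) hco, hy]
    nlinarith
  obtain ⟨X, hX2, hX3⟩ := exists_between hX1
  have hX0 : 0 < X := lt_trans (by positivity) hX2
  set K3 : ℝ := |Real.log X| with hK3
  have hK30 : 0 ≤ K3 := abs_nonneg _
  set lf : ℝ := Real.log ((d+1)! : ℝ) with hlf
  have hlf0 : 0 ≤ lf := Real.log_nonneg (by exact_mod_cast Nat.one_le_iff_ne_zero.mpr (Nat.factorial_ne_zero _))
  set K : ℝ := lf + a + 8 + d * (K3 + d + 5) + 2 * (1 + ((d:ℝ)^2-1) * θ) with hK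
  have hK0 : 0 < K := by
    have : 0 ≤ d * (K3 + d + 5) := by positivity
    rw [hK]; linarith
  set δ₁ : ℝ := d * (1 - ((d:ℝ)+1)*θ) * X - 1 with hδ₁
  have hδ₁0 : 0 < δ₁ := by
    rw [div_lt_iff₀ (by positivity)] at hX2
    rw [hδ₁, ← hy]; linarith
  set δ₂ : ℝ := c - X * (1 + ((d:ℝ)^2-1)*θ) with hδ₂
  have hδ₂0 : 0 < δ₂ := by
    rw [lt_div_iff₀ hco] at hX3
    rw [hδ₂]; linarith
  obtain ⟨ε, hε0, hε1, hε2, hε3⟩ : ∃ ε : ℝ, 0 < ε ∧ K * ε ≤ δ₁ ∧ K * ε ≤ δ₂ ∧
      ε * ((d:ℝ)+1) ≤ 1 := by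
    refine ⟨min (min (δ₁ / K) (δ₂ / K)) (1/((d:ℝ)+1)), ?_, ?_, ?_, ?_⟩
    · positivity
    · have h1 : min (min (δ₁ / K) (δ₂ / K)) (1/((d:ℝ)+1)) ≤ δ₁ / K :=
        (min_le_left _ _).trans (min_le_left _ _)
      rw [le_div_iff₀ hK0] at h1
      linarith
    · have h1 : min (min (δ₁ / K) (δ₂ / K)) (1/((d:ℝ)+1)) ≤ δ₂ / K :=
        (min_le_left _ _).trans (min_le_right _ _)
      rw [le_div_iff₀ hK0] at h1
      linarith
    · have h1 : min (min (δ₁ / K) (δ₂ / K)) (1/((d:ℝ)+1)) ≤ 1/((d:ℝ)+1) := min_le_right _ _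
      rwa [le_div_iff₀ (by linarith)] at h1
  -- eventual facts
  have hn : Tendsto (fun n : ℕ => (n:ℝ)) atTop atTop := tendsto_natCast_atTop_atTop
  have hev7 : ∀ᶠ n : ℕ in atTop, 1 ≤ |lam| * Real.exp n := by
    have h1 : Tendsto (fun n : ℕ => |lam| * Real.exp n) atTop atTop :=
      (Real.tendsto_exp_atTop.comp hn).const_mul_atTop hlam1
    exact h1.eventually_ge_atTop 1
  obtain ⟨n₀, hn₀⟩ := eventually_atTop.mp (hev7.and (ev_small3 ε X θ hε0 hX0.le hθ1))
  refine ⟨n₀ + 4, fun n hn k hk hkn => ?_⟩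
  obtain ⟨g7, gev⟩ := hn₀ n (by omega)
  have hn4 : (4:ℝ) ≤ n := by exact_mod_cast (by omega : 4 ≤ n)
  have hnR : (0:ℝ) < n := by linarith
  set L := Real.log (n:ℝ) with hL
  set W : ℕ := ⌊(n:ℝ)^θ⌋₊ with hW
  have hnt1 : 1 ≤ (n:ℝ)^θ := Real.one_le_rpow (by linarith) hθ0
  have hW1 : 1 ≤ W := Nat.le_floor (by simpa using hnt1)
  have hWθ : (W:ℝ) ≤ (n:ℝ)^θ := Nat.floor_le (by positivity)
  obtain ⟨-, -, -, -, -, hL1, hLL0⟩ := gev 0 W (by
    have : 0 ≤ X * n / Real.log n := by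
      have : 0 ≤ Real.log (n:ℝ) := Real.log_nonneg (by linarith)
      positivity
    simp only [Nat.cast_zero]
    linarith) hWθ
  have hL0 : 0 < L := by linarith
  -- the prime and m
  obtain ⟨q, hq, hWq, hq2⟩ := Nat.exists_prime_lt_and_le_two_mul W (by omega)
  have hq0 : 0 < q := hq.pos
  have hqR : (0:ℝ) < q := by exact_mod_cast hq0
  set r : ℕ := ⌈X * n / L / q⌉₊ with hr
  have hrpos : 0 < r := Nat.ceil_pos.mpr (by positivity)
  set m : ℕ := q * r with hm
  have hm0 : 0 < m := Nat.mul_pos hq0 hrpos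
  have hqm : q ∣ m := Dvd.intro _ rfl
  have hm1 : X * n / L ≤ m := by
    rw [hm]; push_cast
    have h1 : X * n / L / q ≤ r := Nat.le_ceil _
    rw [div_le_iff₀ hqR] at h1
    linarith
  have hm2 : (m:ℝ) ≤ X * n / L + 2 * (n:ℝ)^θ := by
    rw [hm]; push_cast
    have h1 : (r:ℝ) ≤ X * n / L / q + 1 := (Nat.ceil_lt_add_one (by positivity)).le
    have h2 : (q:ℝ) * r ≤ q * (X * n / L / q + 1) := mul_le_mul_of_nonneg_left h1 hqR.le
    have h3 : (q:ℝ) * (X * n / L / q + 1) = X * n / L + q := by field_simp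
    have h4 : (q:ℝ) ≤ 2 * W := by exact_mod_cast hq2
    linarith
  obtain ⟨f1, f3, f4, f5, f6, -, -⟩ := gev m W hm2 hWθ
  have hmn : (m-1) + d*m ≤ n := by
    have h1 : ((d:ℝ)+1) * m ≤ n := by
      calc ((d:ℝ)+1) * m ≤ ((d:ℝ)+1) * (ε * n) := mul_le_mul_of_nonneg_left f1 (by positivity)
        _ = (ε * ((d:ℝ)+1)) * n := by ring
        _ ≤ 1 * n := mul_le_mul_of_nonneg_right hε3 hnR.le
        _ = n := one_mul _
    have h2 : (d+1) * m ≤ n := by exact_mod_cast h1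
    have h3 : (m-1) + d*m ≤ (d+1)*m := by rw [add_mul, one_mul]; omega
    omega
  by_contra hcon
  push Not at hcon
  -- normalisation
  obtain ⟨i₀, hi₀⟩ := Finite.exists_min k
  set π := Equiv.swap (0 : Fin (d+1)) i₀ with hπ
  have hπ0 : π 0 = i₀ := Equiv.swap_apply_left _ _
  set s : Fin (d+1) → ℕ := fun i => k (π i) - k i₀ with hs
  have hsk : ∀ i, k i₀ + s i = k (π i) := by
    intro i
    have := hi₀ (π i)
    simp only [hs]; omega
  have hsinj : Function.Injective s := by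
    intro a b hab
    have : k (π a) = k (π b) := by rw [← hsk a, ← hsk b, hab]
    exact π.injective (hk this)
  have hs0 : s 0 = 0 := by simp only [hs, hπ0]; omega
  have hkW : ∀ i, k i ≤ n + W := by
    intro i
    have h1 := (hkn i).2
    have h2 : ((k i - n : ℕ):ℝ) ≤ (n:ℝ)^θ := by
      rw [Nat.cast_sub (hkn i).1]; linarith
    have h3 := Nat.le_floor h2
    rw [← hW] at h3
    omega
  have hsW : ∀ i, s i ≤ W := by
    intro i
    have h1 := hkW (π i)
    have h2 := (hkn i₀).1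
    have h3 := hsk i
    omega
  set μ : ℝ := lam * Real.exp (k i₀) with hμ
  have hμs : ∀ i, μ * Real.exp (s i) = lam * Real.exp (k (π i)) := by
    intro i
    rw [hμ, mul_assoc, ← Real.exp_add, ← hsk i]
    push_cast; rfl
  set η : ℝ := Real.exp (-(c * n)) with hη
  have hη1 : η ≤ 1 := Real.exp_le_one_iff.mpr (by
    have : (0:ℝ) ≤ c * n := by positivity
    linarith)
  have hb : (fun i => round (lam * Real.exp (k (π i)))) ≠ (0 : Fin (d+1) → ℤ) := by
    intro h0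
    have h3 : Real.exp n ≤ Real.exp (k (π 0)) :=
      Real.exp_le_exp.mpr (by exact_mod_cast (hkn _).1)
    exact rnd_ne_zero lam _ (g7.trans (mul_le_mul_of_nonneg_left h3 hlam1.le)) (congrFun h0 0)
  have hcore := core2 s hsinj hs0 W m q hW1 hm0 hsW hq hWq hqm hd μ η (Real.exp_pos _) hη1
    (fun i => round (lam * Real.exp (k (π i)))) hb (fun i => by
      rw [hμs i, abs_sub_comm]
      exact (hcon (π i)).le)
  -- numbers
  set LL := Real.log L with hLL
  set M : ℝ := m * L with hM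
  have hXM : X * n ≤ M := by
    have := (div_le_iff₀ hL0).mp hm1
    linarith
  have hMX : M ≤ X * n + 2 * ((n:ℝ)^θ * L) := by
    have h1 : m * L ≤ (X * n / L + 2 * (n:ℝ)^θ) * L := mul_le_mul_of_nonneg_right hm2 hL0.le
    have h2 : (X * n / L + 2 * (n:ℝ)^θ) * L = X * n + 2 * ((n:ℝ)^θ * L) := by field_simp
    linarith
  have hlm : L - LL - K3 ≤ Real.log m := by
    have h1 : Real.log (X * n / L) ≤ Real.log m := Real.log_le_log (by positivity) hm1
    have h2 : Real.log (X * n / L) = Real.log X + L - LL := by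
      rw [Real.log_div (by positivity) (by positivity), Real.log_mul (by positivity) (by positivity)]
    have h3 : -K3 ≤ Real.log X := by rw [hK3]; exact neg_abs_le _
    linarith
  have hWR : (1:ℝ) ≤ W := by exact_mod_cast hW1
  have hlog2 : Real.log 2 ≤ 1 := by have := Real.log_two_lt_d9; linarith
  have hlW1 : Real.log ((W+1 : ℕ) : ℝ) ≤ θ * L + 1 := by
    have h1 : ((W+1 : ℕ) : ℝ) ≤ (n:ℝ)^θ * 2 := by push_cast; linarith
    calc Real.log ((W+1 : ℕ) : ℝ) ≤ Real.log ((n:ℝ)^θ * 2) := Real.log_le_log (by positivity) h1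
      _ = θ * L + Real.log 2 := by
        rw [Real.log_mul (by positivity) (by norm_num), Real.log_rpow hnR]
      _ ≤ _ := by linarith
  have hlog4 : Real.log 4 ≤ 2 := log_four_le
  obtain ⟨g1, g2⟩ := win_numeric d n W m M ((n:ℝ)^θ * L) L LL (Real.log m)
    (Real.log ((W+1 : ℕ) : ℝ)) lf a θ c X K3 K ε (Real.log 2) (Real.log 4) hdR hθ0 hy0.le hK30 ha0
    hlf0 hnR.le (by positivity) (by positivity) hM hLL0 hXM hMX hlm hlW1 hlog2 hlog4 f1 f3 f4 f5 f6
    hK hε1 hε2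
  -- bounds of pieces
  have hρ : rho d W m ≤ Real.exp (-(m * Real.log m - ((d:ℝ)+1) * m * Real.log ((W+1 : ℕ) : ℝ) -
      2*m - W)) := by
    refine (rho_le d W m hm0).trans (le_of_eq ?_)
    congr 1
    push_cast
    ring
  have hρ0 : 0 < rho d W m := rho_pos d W m hW1
  set E : ℝ := -(m * Real.log m - ((d:ℝ)+1) * m * Real.log ((W+1 : ℕ) : ℝ) - 2*m - W) with hE
  have hρd : rho d W m ^ d ≤ Real.exp (d * E) := by
    calc rho d W m ^ d ≤ (Real.exp E)^d := pow_le_pow_left₀ hρ0.le hρ _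
      _ = _ := by rw [← Real.exp_nat_mul]
  have hρd1 : rho d W m ^ (d-1) ≤ Real.exp ((d-1) * E) := by
    calc rho d W m ^ (d-1) ≤ (Real.exp E)^(d-1) := pow_le_pow_left₀ hρ0.le hρ _
      _ = _ := by
        rw [← Real.exp_nat_mul]
        congr 2
        rw [Nat.cast_sub (by omega)]; norm_num
  have hA := bigA2_le d W m n hm0 hmn (by omega)
  have hA0 := bigA2_nonneg d W m
  have hfexp : ((d+1)! : ℝ) = Real.exp lf := (Real.exp_log (by positivity)).symm
  have hquarter : Real.exp (-Real.log 4) = 1/4 := exp_neg_log_four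
  have hμb : |μ| + 1 ≤ Real.exp (a + n + W) := by
    rw [hμ, ha]; exact mu_abs_le lam (k i₀) n W (hkW i₀)
  have hfirst : ((d+1)! : ℝ) * ((|μ| + 1) * rho d W m ^ d) ≤ 1/4 := by
    calc ((d+1)! : ℝ) * ((|μ| + 1) * rho d W m ^ d)
        ≤ Real.exp lf * (Real.exp (a + n + W) * Real.exp (d * E)) := by
          rw [← hfexp]
          have : 0 ≤ |μ| + 1 := by positivity
          gcongr
      _ = Real.exp (lf + (a + n + W) + d * E) := by
          rw [← Real.exp_add, ← Real.exp_add]; congr 1; ring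
      _ ≤ Real.exp (-Real.log 4) := Real.exp_le_exp.mpr (by linarith)
      _ = 1/4 := hquarter
  have hsecond : ((d+1)! : ℝ) * (bigA2 d W m * (2 * Real.exp W * η) * rho d W m ^ (d-1)) ≤ 1/4 := by
    have h2 : (2:ℝ) * Real.exp W * η = Real.exp (Real.log 2 + W - c * n) := by
      rw [hη, sub_eq_add_neg, Real.exp_add, Real.exp_add, Real.exp_log (by norm_num)]
    calc ((d+1)! : ℝ) * (bigA2 d W m * (2 * Real.exp W * η) * rho d W m ^ (d-1))
        ≤ Real.exp lf * (Real.exp (d * (m * L) + W) * Real.exp (Real.log 2 + W - c * n) *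
            Real.exp ((d-1) * E)) := by
          rw [← hfexp, h2]
          gcongr
      _ = Real.exp (lf + (d * M + W) + (Real.log 2 + W - c * n) + (d-1) * E) := by
          rw [← Real.exp_add, ← Real.exp_add, ← Real.exp_add, hM]; congr 1; ring
      _ ≤ Real.exp (-Real.log 4) := Real.exp_le_exp.mpr (by linarith)
      _ = 1/4 := hquarter
  rw [mul_add] at hcore
  linarith

/-- windows, finite set form -/
theorem window2S (lam : ℝ) (hlam : lam ≠ 0) (d : ℕ) (hd : 1 ≤ d) (c θ : ℝ) (hθ0 : 0 ≤ θ)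
    (hc0 : 0 < c) (hc : θ * ((d:ℝ)+1) * (c * d + d - 1) < c * d - 1) :
    ∃ n₀ : ℕ, ∀ n ≥ n₀, ∀ S : Finset ℕ,
      (∀ k ∈ S, |lam * Real.exp k - round (lam * Real.exp k)| < Real.exp (-(c * k)) ∧
        n ≤ k ∧ (k:ℝ) ≤ n + (n:ℝ)^θ) → S.card ≤ d := by
  obtain ⟨n₀, h⟩ := window2 lam hlam d hd c θ hθ0 hc0 hc
  refine ⟨n₀, fun n hn S hS => ?_⟩
  by_contra hcon
  push Not at hcon
  obtain ⟨T, hTS, hT⟩ := Finset.exists_subset_card_eq (n := d+1) (s := S) (by omega)
  set k : Fin (d+1) → ℕ := fun i => (T.orderIsoOfFin hT i : ℕ) with hk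
  have hkT : ∀ i, k i ∈ T := fun i => (T.orderIsoOfFin hT i).2
  have hinj : Function.Injective k := by
    intro a b hab
    exact (T.orderIsoOfFin hT).injective (Subtype.ext hab)
  obtain ⟨i, hi⟩ := h n hn k hinj (fun i => (hS _ (hTS (hkT i))).2)
  have h1 := hS _ (hTS (hkT i))
  have h2 : Real.exp (-(c * (k i))) ≤ Real.exp (-(c * n)) := by
    apply Real.exp_le_exp.mpr
    have : (n:ℝ) ≤ k i := by exact_mod_cast h1.2.1
    have := mul_le_mul_of_nonneg_left this hc0.le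
    linarith
  linarith [h1.1]

end

end H23E
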