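import Pool.Agent.Lib.MP_2ecc60_nt_h23.Sieg

open Polynomial Matrix
open scoped Nat

namespace H23E

noncomputable section

/-- the exponential polynomial `∑ (D+s_k)^i A_k (z) e^{s_k z}` -/
def Rg {d : ℕ} (sk : Fin (d+1) → ℕ) (A : Fin (d+1) → ℤ[X]) (i : ℕ) (z : ℝ) : ℝ :=
  ∑ k : Fin (d+1), aeval z (Bp ((sk k : ℕ) : ℤ) (A k) i) * Real.exp (((sk k:ℕ):ℝ) * z)

lemma Rg_hasDerivAt {d : ℕ} (sk : Fin (d+1) → ℕ) (A : Fin (d+1) → ℤ[X]) (i : ℕ) (z : ℝ) :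
    HasDerivAt (Rg sk A i) (Rg sk A (i+1) z) z := by
  unfold Rg
  apply HasDerivAt.fun_sum
  intro k _
  have h1 : HasDerivAt (fun z : ℝ => aeval z (Bp ((sk k : ℕ) : ℤ) (A k) i))
      (aeval z (derivative (Bp ((sk k : ℕ) : ℤ) (A k) i))) z :=
    Polynomial.hasDerivAt_aeval _ _
  have h2 : HasDerivAt (fun z : ℝ => Real.exp (((sk k:ℕ):ℝ) * z))
      (Real.exp (((sk k:ℕ):ℝ) * z) * (((sk k:ℕ):ℝ) * 1)) z :=
    ((hasDerivAt_id z).const_mul _).exp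
  refine (h1.mul h2).congr_deriv ?_
  rw [Bp_succ, map_add, map_mul, aeval_C]
  simp only [algebraMap_int_eq, eq_intCast]
  push_cast
  ring

lemma Rg_zero {d : ℕ} (sk : Fin (d+1) → ℕ) (A : Fin (d+1) → ℤ[X]) (i : ℕ)
    (h : ∑ k : Fin (d+1), (Bp ((sk k : ℕ) : ℤ) (A k) i).eval 0 = 0) : Rg sk A i 0 = 0 := by
  unfold Rg
  have h1 : ∀ k : Fin (d+1), aeval (0:ℝ) (Bp ((sk k : ℕ) : ℤ) (A k) i) *
      Real.exp (((sk k:ℕ):ℝ) * 0) = (((Bp ((sk k : ℕ) : ℤ) (A k) i).eval 0 : ℤ) : ℝ) := by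
    intro k
    rw [mul_zero, Real.exp_zero, mul_one, ← coeff_zero_eq_eval_zero, ← coeff_zero_eq_aeval_zero']
    simp
  rw [Finset.sum_congr rfl (fun k _ => h1 k)]
  exact_mod_cast h

lemma taylor_boundG {d : ℕ} (sk : Fin (d+1) → ℕ) (A : Fin (d+1) → ℤ[X]) (T : ℕ) (W Q : ℝ)
    (h : ∀ i < T, Rg sk A i 0 = 0) (hQ : ∀ z, 0 ≤ z → z ≤ W → |Rg sk A T z| ≤ Q) (s : ℕ) :
    ∀ i, i + s = T → ∀ z, 0 ≤ z → z ≤ W → |Rg sk A i z| ≤ Q * z^s / (s ! : ℝ) := by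
  induction s with
  | zero =>
    intro i hi z h0 hz
    rw [add_zero] at hi
    subst hi
    simpa using hQ z h0 hz
  | succ s ih =>
    intro i hi z h0 hz
    have ih' := ih (i+1) (by omega)
    have hB : ∀ x : ℝ, HasDerivAt (fun z : ℝ => Q * z^(s+1) / ((s+1)! : ℝ))
        (Q * x^s / (s ! : ℝ)) x := by
      intro x
      have h1 := ((hasDerivAt_pow (s+1) x).const_mul Q).div_const (((s+1)! : ℕ) : ℝ)
      refine h1.congr_deriv ?_
      rw [Nat.factorial_succ]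
      push_cast
      have : (s ! : ℝ) ≠ 0 := by exact_mod_cast s.factorial_ne_zero
      have h2 : ((s:ℝ)+1) ≠ 0 := by positivity
      try rw [Nat.add_sub_cancel]
      field_simp
    have h2 := image_norm_le_of_norm_deriv_right_le_deriv_boundary (f := Rg sk A i)
      (f' := Rg sk A (i+1)) (a := 0) (b := W)
      (fun x _ => (Rg_hasDerivAt sk A i x).continuousAt.continuousWithinAt)
      (fun x _ => (Rg_hasDerivAt sk A i x).hasDerivWithinAt)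
      (B := fun z : ℝ => Q * z^(s+1) / ((s+1)! : ℝ)) (B' := fun x : ℝ => Q * x^s / (s ! : ℝ))
      (by rw [h i (by omega)]; simp) hB
      (fun x hx => by rw [Real.norm_eq_abs]; exact ih' x hx.1 hx.2.le)
    have h3 := h2 (x := z) ⟨h0, hz⟩
    rwa [Real.norm_eq_abs] at h3

/-- existence of a nonvanishing value, general nodes -/
theorem exists_Z3 (d s t : ℕ) (hs : 3 ≤ s) (ht : 1 ≤ t) (sk : Fin (d+1) → ℕ)
    (hinj : Function.Injective sk) (A : Fin (d+1) → ℤ[X])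
    (hA0 : ∃ k, A k ≠ 0) (hdeg : ∀ k, (A k).natDegree < s*t)
    (hzero : ∀ i < (s-1)*(d+1)*t,
      ∑ k : Fin (d+1), (Bp ((sk k : ℕ) : ℤ) (A k) i).eval 0 = 0)
    (b : Fin (d+1) → ℤ) (hb : ∀ k, b k ≠ 0) :
    ∃ i < (d+1)*(t+1), ∑ k : Fin (d+1), (Bp ((sk k : ℕ) : ℤ) (A k) i).eval 1 * b k ≠ 0 := by
  classical
  by_contra hcon
  push Not at hcon
  obtain ⟨s', rfl⟩ : ∃ s', s = s' + 1 := ⟨s-1, by omega⟩
  simp only [Nat.add_sub_cancel] at hzero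
  have hs' : 2 ≤ s' := by omega
  set κ := Fintype.card {k : Fin (d+1) // A k ≠ 0} with hκ
  have hκd : κ ≤ d+1 := by
    have := Fintype.card_subtype_le (fun k : Fin (d+1) => A k ≠ 0)
    rwa [Fintype.card_fin] at this
  obtain ⟨k0, hk0⟩ := hA0
  have hκ0 : 0 < κ := Fintype.card_pos_iff.mpr ⟨⟨k0, hk0⟩⟩
  obtain ⟨e⟩ : Nonempty (Fin κ ≃ {k : Fin (d+1) // A k ≠ 0}) :=
    ⟨(Fintype.equivFin {k : Fin (d+1) // A k ≠ 0}).symm⟩
  have hst : 1 ≤ (s'+1)*t := Nat.mul_pos (by omega) ht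
  have hTbig : d + 1 ≤ s'*(d+1)*t := by
    have h1 : 1 * (d+1) * 1 ≤ s'*(d+1)*t :=
      Nat.mul_le_mul (Nat.mul_le_mul (by omega) le_rfl) ht
    omega
  have hfin := zero_estimate (κ := κ) (fun s => ((sk (e s).1 : ℕ) : ℤ)) (by
      intro a b hab
      have hab' : ((sk (e a).1 : ℕ) : ℤ) = ((sk (e b).1 : ℕ) : ℤ) := hab
      have h1 : sk (e a).1 = sk (e b).1 := by exact_mod_cast hab'
      exact e.injective (Subtype.ext (hinj h1)))
    (fun s => A (e s).1) (fun s => (e s).2) ((s'+1)*t-1) (fun s => by have := hdeg (e s).1; omega)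
    (s'*(d+1)*t) ((d+1)*(t+1)) (by omega) (by nlinarith) hκ0 0 1 (by norm_num)
    (fun _ => 1) (fun s => b (e s).1)
    (by
      intro h
      have := congrFun h ⟨0, hκ0⟩
      simp at this)
    (by
      intro h
      have h3 := congrFun h ⟨0, hκ0⟩
      simp only [Pi.zero_apply] at h3
      exact hb _ h3)
    (by
      intro i hi
      simp only [mul_one]
      have := sum_reindex A e (fun k => (Bp ((sk k : ℕ) : ℤ) (A k) i).eval 0) (by
        intro k hk; simp only [hk, Bp_zero_poly, eval_zero])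
      rw [this]
      exact hzero i hi)
    (by
      intro i hi
      have := sum_reindex A e (fun k => (Bp ((sk k : ℕ) : ℤ) (A k) i).eval 1 * b k) (by
        intro k hk; simp only [hk, Bp_zero_poly, eval_zero, zero_mul])
      rw [this]
      exact hcon i hi)
  have h4 : κ * ((s'+1)*t-1) + 2*κ = κ * ((s'+1)*t+1) := by
    obtain ⟨r, hr⟩ : ∃ r, (s'+1)*t = r + 1 := ⟨(s'+1)*t - 1, by omega⟩
    rw [hr, Nat.add_sub_cancel]; ring
  have h5 : κ * ((s'+1)*t+1) ≤ (d+1)*((s'+1)*t+1) := Nat.mul_le_mul_right _ hκd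
  have h6 : (d+1)*((s'+1)*t+1) = s'*(d+1)*t + (d+1)*(t+1) := by ring
  omega

/-- size -/
def Kw (d s t W : ℕ) : ℝ := ((s*t-1)! : ℝ) * Hw d s t W

lemma Kw_nonneg (d s t W : ℕ) : 0 ≤ Kw d s t W := by
  unfold Kw; have := Hw_nonneg d s t W; positivity

theorem win_ineq3 (d s t W : ℕ) (hs : 3 ≤ s) (ht : 2 ≤ t) (sk : Fin (d+1) → ℕ)
    (hinj : Function.Injective sk) (hsk : ∀ k, sk k ≤ W) (b : Fin (d+1) → ℤ) (hb : ∀ k, b k ≠ 0)
    (μ η : ℝ) (hbη : ∀ k, |(b k : ℝ) - μ * Real.exp (sk k)| ≤ η) :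
    ∃ S : ℕ, (s-2)*(d+1)*t ≤ S + d ∧
      1 ≤ |μ| * (((d:ℝ)+1) * ((1+(W:ℝ))^((s-1)*(d+1)*t) * Kw d s t W * Real.exp 1 *
            Real.exp W) / (S ! : ℝ)) +
        ((d:ℝ)+1) * ((1+(W:ℝ))^((d+1)*(t+1)) * Kw d s t W * Real.exp 1 * η) := by
  have hη0 : 0 ≤ η := (abs_nonneg _).trans (hbη 0)
  obtain ⟨A, hA0, hdeg, hcoef, hzero⟩ := aux_formsW d s t W (by omega) (by omega) sk hsk
  obtain ⟨i, hi, hZ⟩ := exists_Z3 d s t hs (by omega) sk hinj A hA0 hdeg hzero b hb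
  obtain ⟨s', rfl⟩ : ∃ s', s = s' + 2 := ⟨s-2, by omega⟩
  have hs' : 1 ≤ s' := by omega
  have hTeq : (s'+2-1)*(d+1)*t = s'*(d+1)*t + (d+1)*t := by
    have : s'+2-1 = s'+1 := by omega
    rw [this]; ring
  set T := (s'+2-1)*(d+1)*t with hT
  have h2t : (d+1)*2 ≤ (d+1)*t := Nat.mul_le_mul_left _ ht
  have h3t : (d+1)*t ≤ s'*(d+1)*t := by
    have : 1*((d+1)*t) ≤ s'*((d+1)*t) := Nat.mul_le_mul_right _ hs'
    rw [mul_assoc]; omega
  have h4t : (d+1)*(t+1) = (d+1)*t + (d+1) := by ring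
  have hiT : i < T := by omega
  refine ⟨T - i, ?_, ?_⟩
  · have : s'+2-2 = s' := by omega
    rw [this]
    omega
  have hW0 : (0:ℝ) ≤ W := by positivity
  have hK0 := Kw_nonneg d (s'+2) t W
  have hB : ∀ (k : Fin (d+1)) (i : ℕ), ∀ z : ℝ, 0 ≤ z → z ≤ 1 →
      |aeval z (Bp ((sk k : ℕ) : ℤ) (A k) i)| ≤ (1+(W:ℝ))^i * Kw d (s'+2) t W * Real.exp 1 := by
    intro k i z hz0 hz
    exact Bp_eval_wbound (sk k) W (hsk k) (A k) _ (hcoef k) i 1 z hz0 hz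
  have hQ : ∀ z, 0 ≤ z → z ≤ (1:ℝ) →
      |Rg sk A T z| ≤ ((d:ℝ)+1) * ((1+(W:ℝ))^T * Kw d (s'+2) t W * Real.exp 1 * Real.exp W) := by
    intro z hz0 hz
    unfold Rg
    refine (Finset.abs_sum_le_sum_abs _ _).trans ?_
    have h1 : ∀ k ∈ (Finset.univ : Finset (Fin (d+1))),
        |aeval z (Bp ((sk k : ℕ) : ℤ) (A k) T) * Real.exp (((sk k:ℕ):ℝ) * z)| ≤
        (1+(W:ℝ))^T * Kw d (s'+2) t W * Real.exp 1 * Real.exp W := by
      intro k _
      rw [abs_mul, abs_of_pos (Real.exp_pos _)]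
      refine mul_le_mul (hB k T z hz0 hz) ?_ (Real.exp_pos _).le (by positivity)
      apply Real.exp_le_exp.mpr
      have h2 : ((sk k:ℕ):ℝ) ≤ W := by exact_mod_cast hsk k
      calc ((sk k:ℕ):ℝ) * z ≤ W * 1 := mul_le_mul h2 hz hz0 hW0
        _ = W := mul_one _
    refine (Finset.sum_le_sum h1).trans (le_of_eq ?_)
    rw [Finset.sum_const, Finset.card_univ, Fintype.card_fin, nsmul_eq_mul]
    push_cast; ring
  have hR := taylor_boundG sk A T 1 _ (fun i hi => Rg_zero sk A i (hzero i hi)) hQ (T - i) i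
    (by omega) 1 (by norm_num) le_rfl
  rw [one_pow, mul_one] at hR
  -- the integer value
  set Z : ℤ := ∑ k : Fin (d+1), (Bp ((sk k : ℕ) : ℤ) (A k) i).eval 1 * b k with hZdef
  have hZ1 : (1:ℝ) ≤ |(Z:ℝ)| := by
    have := Int.one_le_abs hZ
    exact_mod_cast this
  have hev : ∀ k : Fin (d+1), (((Bp ((sk k : ℕ) : ℤ) (A k) i).eval 1 : ℤ) : ℝ) =
      aeval (1:ℝ) (Bp ((sk k : ℕ) : ℤ) (A k) i) := by
    intro k
    have := aeval_algebraMap_apply_eq_algebraMap_eval (A := ℝ) (1:ℤ)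
      (Bp ((sk k : ℕ) : ℤ) (A k) i)
    simpa using this.symm
  have hdec : (Z:ℝ) = μ * Rg sk A i 1 +
      ∑ k : Fin (d+1), aeval (1:ℝ) (Bp ((sk k : ℕ) : ℤ) (A k) i) *
        ((b k : ℝ) - μ * Real.exp (sk k)) := by
    rw [hZdef]
    unfold Rg
    push_cast
    rw [Finset.mul_sum, ← Finset.sum_add_distrib]
    refine Finset.sum_congr rfl fun k _ => ?_
    rw [hev k, mul_one]; ring
  rw [hdec] at hZ1
  refine hZ1.trans ((abs_add_le _ _).trans (add_le_add ?_ ?_))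
  · rw [abs_mul]
    exact mul_le_mul_of_nonneg_left hR (abs_nonneg _)
  · refine (Finset.abs_sum_le_sum_abs _ _).trans ?_
    have h1 : ∀ k ∈ (Finset.univ : Finset (Fin (d+1))),
        |aeval (1:ℝ) (Bp ((sk k : ℕ) : ℤ) (A k) i) * ((b k : ℝ) - μ * Real.exp (sk k))| ≤
        (1+(W:ℝ))^((d+1)*(t+1)) * Kw d (s'+2) t W * Real.exp 1 * η := by
      intro k _
      rw [abs_mul]
      refine mul_le_mul ((hB k i 1 (by norm_num) le_rfl).trans ?_) (hbη k) (abs_nonneg _)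
        (by positivity)
      have h2 : (1+(W:ℝ))^i ≤ (1+(W:ℝ))^((d+1)*(t+1)) := pow_le_pow_right₀ (by linarith) hi.le
      gcongr
    refine (Finset.sum_le_sum h1).trans (le_of_eq ?_)
    rw [Finset.sum_const, Finset.card_univ, Fintype.card_fin, nsmul_eq_mul]
    push_cast; ring

end

end H23E
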