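import Pool.Agent.Lib.MP_2ecc60_nt_h23.Core
import Pool.Agent.Lib.MP_2ecc60_nt_h23.Basic

open Filter Topology
open scoped Nat

namespace H23E

noncomputable section

lemma rho_le (d W m : ℕ) (hm : 0 < m) :
    rho d W m ≤ Real.exp (-(m * Real.log m - ((d+1 : ℕ) * m : ℕ) * Real.log ((W+1 : ℕ) : ℝ) - 2*m - W)) := by
  unfold rho
  have h1 := fact_lower m hm
  have h2 : (W:ℝ) * (W:ℝ)^((m-1) + d*m) ≤ Real.exp (((d+1 : ℕ) * m : ℕ) * Real.log ((W+1 : ℕ) : ℝ)) := by
    rw [← pow_eq_exp (W+1) (by omega)]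
    calc (W:ℝ) * (W:ℝ)^((m-1) + d*m) = (W:ℝ)^((d+1)*m) := by
          rw [← pow_succ']
          congr 1
          have : m - 1 + 1 = m := Nat.sub_add_cancel hm
          rw [add_mul, one_mul]; omega
      _ ≤ _ := pow_le_pow_left₀ (by positivity) (by push_cast; linarith) _
  have hpos : 0 < Real.exp (m * Real.log m - 2 * m) := Real.exp_pos _
  calc Real.exp W * (W * (W:ℝ)^((m-1) + d*m)) / ((m-1)! : ℝ)
      ≤ Real.exp W * Real.exp (((d+1 : ℕ) * m : ℕ) * Real.log ((W+1 : ℕ) : ℝ)) /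
        Real.exp (m * Real.log m - 2 * m) := by gcongr
    _ = _ := by
        rw [← Real.exp_add, ← Real.exp_sub]; congr 1; ring

lemma bigA2_le (d W m n : ℕ) (hm : 0 < m) (hn : (m-1) + d*m ≤ n) (hn0 : 1 ≤ n) :
    bigA2 d W m ≤ Real.exp (d * (m * Real.log n) + W) := by
  unfold bigA2
  rw [div_le_iff₀ (by positivity)]
  have h1 : ((m-1) + d*m)! = (m-1)! * ((m-1)+d*m).descFactorial (d*m) := by
    have := Nat.factorial_mul_descFactorial (n := (m-1)+d*m) (k := d*m) (by omega)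
    rw [Nat.add_sub_cancel] at this
    exact this.symm
  have h2 : ((m-1)+d*m).descFactorial (d*m) ≤ n^(d*m) :=
    (Nat.descFactorial_le_pow _ _).trans (Nat.pow_le_pow_left hn _)
  have h3 : ((((m-1)+d*m).descFactorial (d*m) : ℕ) : ℝ) ≤ Real.exp (d * (m * Real.log n)) := by
    calc ((((m-1)+d*m).descFactorial (d*m) : ℕ) : ℝ) ≤ (n:ℝ)^(d*m) := by exact_mod_cast h2
      _ = Real.exp (d * (m * Real.log n)) := by
        rw [pow_eq_exp n (by omega)]; push_cast; ring_nf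
  rw [h1]
  push_cast
  rw [Real.exp_add]
  have h4 : (0:ℝ) ≤ ((m-1)! : ℝ) := by positivity
  have h5 : (0:ℝ) ≤ Real.exp W := (Real.exp_pos _).le
  calc ((m-1)! : ℝ) * ((((m-1)+d*m).descFactorial (d*m) : ℕ) : ℝ) * Real.exp W
      ≤ ((m-1)! : ℝ) * Real.exp (d * (m * Real.log n)) * Real.exp W := by gcongr
    _ = _ := by ring

lemma win_numeric (d n W m M T L LL lm lW1 lf a θ c X K3 K ε l2 l4 : ℝ)
    (hd : 1 ≤ d) (hθ0 : 0 ≤ θ) (hy : 0 ≤ 1 - (d+1)*θ) (hK3 : 0 ≤ K3) (ha : 0 ≤ a) (hf : 0 ≤ lf)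
    (hn : 0 ≤ n) (hW : 0 ≤ W) (hm : 0 ≤ m) (hM : M = m * L) (hLL : 0 ≤ LL)
    (hm1 : X * n ≤ M) (hm2 : M ≤ X * n + 2 * T) (hlm : L - LL - K3 ≤ lm) (hlW1 : lW1 ≤ θ * L + 1)
    (hl2 : l2 ≤ 1) (hl4 : l4 ≤ 2)
    (f1 : m ≤ ε * n) (f3 : W ≤ ε * n) (f4 : m * LL ≤ ε * n) (f5 : 1 ≤ ε * n) (f6 : T ≤ ε * n)
    (hK : K = lf + a + 8 + d * (K3 + d + 5) + 2 * (1 + (d^2-1) * θ))
    (hδ1 : K * ε ≤ d * (1 - (d+1)*θ) * X - 1) (hδ2 : K * ε ≤ c - X * (1 + (d^2-1)*θ)) :
    (lf + (a + n + W) + d * (-(m * lm - (d+1) * m * lW1 - 2*m - W)) + l4 ≤ 0) ∧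
    (lf + (d * M + W) + (l2 + W - c * n) + (d-1) * (-(m * lm - (d+1) * m * lW1 - 2*m - W)) + l4 ≤ 0) := by
  set e := ε * n with he
  have he0 : 0 ≤ e := by linarith
  have hE : -(m * lm - (d+1) * m * lW1 - 2*m - W) ≤
      -((1 - (d+1)*θ) * M) + m * LL + (K3 + d + 3) * m + W := by
    have h1 : m * (L - LL - K3) ≤ m * lm := mul_le_mul_of_nonneg_left hlm hm
    have h2 : (d+1) * m * lW1 ≤ (d+1) * m * (θ * L + 1) :=
      mul_le_mul_of_nonneg_left hlW1 (by positivity)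
    rw [hM]
    nlinarith
  have hE2 : -((1 - (d+1)*θ) * M) + m * LL + (K3 + d + 3) * m + W ≤
      -((1 - (d+1)*θ) * M) + (K3 + d + 5) * e := by
    have h1 : (K3 + d + 3) * m ≤ (K3 + d + 3) * e := mul_le_mul_of_nonneg_left f1 (by linarith)
    linarith
  have hE3 := hE.trans hE2
  set E := -(m * lm - (d+1) * m * lW1 - 2*m - W) with hEdef
  have hd1 : 0 ≤ d - 1 := by linarith
  have hd21 : 0 ≤ d^2 - 1 := by nlinarith
  have hco : 0 ≤ 1 + (d^2-1) * θ := by positivity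
  have hcf : lf + a ≤ (lf + a) * e := by nlinarith
  constructor
  · have h1 : d * E ≤ d * (-((1 - (d+1)*θ) * M) + (K3 + d + 5) * e) :=
      mul_le_mul_of_nonneg_left hE3 (by linarith)
    have h2 : d * (1 - (d+1)*θ) * (X * n) ≤ d * (1 - (d+1)*θ) * M :=
      mul_le_mul_of_nonneg_left hm1 (by positivity)
    have h3 : K * e ≤ (d * (1 - (d+1)*θ) * X - 1) * n := by
      calc K * e = K * ε * n := by rw [he]; ring
        _ ≤ _ := mul_le_mul_of_nonneg_right hδ1 hn
    have h4 : K * e = (lf + a) * e + 8 * e + d * ((K3 + d + 5) * e) + 2 * (1 + (d^2-1) * θ) * e := by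
      rw [hK]; ring
    have h5 : 0 ≤ 2 * (1 + (d^2-1) * θ) * e := by positivity
    nlinarith
  · have h1 : (d-1) * E ≤ (d-1) * (-((1 - (d+1)*θ) * M) + (K3 + d + 5) * e) :=
      mul_le_mul_of_nonneg_left hE3 hd1
    have h2 : (1 + (d^2-1) * θ) * M ≤ (1 + (d^2-1) * θ) * (X * n + 2 * T) :=
      mul_le_mul_of_nonneg_left hm2 hco
    have h2' : (1 + (d^2-1) * θ) * (2 * T) ≤ (1 + (d^2-1) * θ) * (2 * e) :=
      mul_le_mul_of_nonneg_left (by linarith) hco
    have h3 : K * e ≤ (c - X * (1 + (d^2-1)*θ)) * n := by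
      calc K * e = K * ε * n := by rw [he]; ring
        _ ≤ _ := mul_le_mul_of_nonneg_right hδ2 hn
    have h4 : K * e = (lf + a) * e + 8 * e + d * ((K3 + d + 5) * e) + 2 * (1 + (d^2-1) * θ) * e := by
      rw [hK]; ring
    have h5 : (d-1) * ((K3 + d + 5) * e) ≤ d * ((K3 + d + 5) * e) := by
      apply mul_le_mul_of_nonneg_right (by linarith) (by positivity)
    nlinarith

/-- eventual smallness of the error terms, window version -/
lemma ev_small3 (ε A θ : ℝ) (hε : 0 < ε) (hA : 0 ≤ A) (hθ : θ < 1) : ∀ᶠ n : ℕ in atTop,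
    ∀ m W : ℕ, (m:ℝ) ≤ A * n / Real.log n + 2 * (n:ℝ)^θ → (W:ℝ) ≤ (n:ℝ)^θ →
      (m:ℝ) ≤ ε * n ∧ (W:ℝ) ≤ ε * n ∧ m * Real.log (Real.log n) ≤ ε * n ∧
      1 ≤ ε * n ∧ (n:ℝ)^θ * Real.log n ≤ ε * n ∧ 1 ≤ Real.log n ∧
      0 ≤ Real.log (Real.log n) := by
  have hlogn : Tendsto (fun n : ℕ => Real.log (n:ℝ)) atTop atTop :=
    Real.tendsto_log_atTop.comp tendsto_natCast_atTop_atTop
  have hn : Tendsto (fun n : ℕ => (n:ℝ)) atTop atTop := tendsto_natCast_atTop_atTop
  set η : ℝ := ε / (2 * (A + 1)) with hη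
  have hη0 : 0 < η := by positivity
  set ζ : ℝ := η / 2 with hζ
  have hζ0 : 0 < ζ := by positivity
  have hllog : ∀ᶠ x : ℝ in atTop, Real.log x ≤ η * x := by
    have h2 := Real.isLittleO_log_id_atTop.def (c := η) hη0
    filter_upwards [h2, eventually_ge_atTop 1] with x hx hx3
    rw [Real.norm_eq_abs, Real.norm_eq_abs, abs_of_nonneg (Real.log_nonneg hx3)] at hx
    simp only [id] at hx
    rwa [abs_of_nonneg (by linarith)] at hx
  have e2 := hlogn.eventually hllog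
  have e3 : ∀ᶠ n : ℕ in atTop, (n:ℝ)^θ * Real.log n ≤ ζ * n := by
    have h1 := (isLittleO_log_rpow_atTop (by linarith : (0:ℝ) < 1 - θ)).def hζ0
    have h3 : ∀ᶠ x : ℝ in atTop, x^θ * Real.log x ≤ ζ * x := by
      filter_upwards [h1, eventually_ge_atTop 1] with x hx hx0
      rw [Real.norm_eq_abs, Real.norm_eq_abs, abs_of_nonneg (Real.log_nonneg hx0),
        abs_of_nonneg (by positivity)] at hx
      have hx00 : 0 < x := by linarith
      have h4 : x^θ * x^(1-θ) = x := by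
        rw [← Real.rpow_add hx00]; simp
      calc x^θ * Real.log x ≤ x^θ * (ζ * x^(1-θ)) := mul_le_mul_of_nonneg_left hx (by positivity)
        _ = ζ * (x^θ * x^(1-θ)) := by ring
        _ = ζ * x := by rw [h4]
    exact hn.eventually h3
  have e4 := hn.eventually_ge_atTop (1/ε + 1)
  have e5 := hlogn.eventually_ge_atTop (1/η + 1)
  filter_upwards [e2, e3, e4, e5] with n h2 h3 h4 h5 m W ht hW
  have hηε : η ≤ ε := by
    rw [hη]; apply div_le_self hε.le; linarith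
  have hinvε : 0 < 1/ε := by positivity
  have hinvη : 0 < 1/η := by positivity
  have hL1 : 1 ≤ Real.log n := by linarith
  have hL0 : 0 < Real.log n := by linarith
  have hnpos : (0:ℝ) < n := by linarith
  have hεn : 1 ≤ ε * n := by
    have : ε * (1/ε) = 1 := by field_simp
    nlinarith
  have hηL : 1 ≤ η * Real.log n := by
    have : η * (1/η) = 1 := by field_simp
    nlinarith
  have hll0 : 0 ≤ Real.log (Real.log n) := Real.log_nonneg hL1
  have hkey : η * (A + 1) * 2 = ε := by rw [hη]; field_simp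
  have hnL : n / Real.log n ≤ η * n := by
    rw [div_le_iff₀ hL0]
    nlinarith
  have hAn : A * n / Real.log n = A * (n / Real.log n) := by ring
  have hnt0 : 0 ≤ (n:ℝ)^θ := by positivity
  have hnt : (n:ℝ)^θ ≤ ζ * n := by nlinarith
  have hfin : A * (η * n) + η * n ≤ ε * n := by
    have : A * (η * n) + η * n = (η * (A+1)) * n := by ring
    rw [this]
    apply mul_le_mul_of_nonneg_right _ hnpos.le
    have : 0 ≤ η * (A+1) := by positivity
    linarith
  have hζη : ζ * n * 2 = η * n := by rw [hζ]; ring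
  have hηn0 : 0 ≤ η * n := by positivity
  have hηεn : η * n ≤ ε * n := mul_le_mul_of_nonneg_right hηε hnpos.le
  refine ⟨?_, ?_, ?_, hεn, ?_, hL1, hll0⟩
  · calc (m:ℝ) ≤ A * (n / Real.log n) + 2 * (n:ℝ)^θ := by rw [← hAn]; exact ht
      _ ≤ A * (η * n) + η * n := add_le_add (mul_le_mul_of_nonneg_left hnL hA) (by linarith)
      _ ≤ ε * n := hfin
  · linarith
  · calc (m:ℝ) * Real.log (Real.log n)
        ≤ (A * (n / Real.log n) + 2 * (n:ℝ)^θ) * Real.log (Real.log n) := by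
          apply mul_le_mul_of_nonneg_right _ hll0
          rw [← hAn]; exact ht
      _ = A * ((n / Real.log n) * Real.log (Real.log n)) +
          2 * ((n:ℝ)^θ * Real.log (Real.log n)) := by ring
      _ ≤ A * (η * n) + η * n := by
          apply add_le_add
          · apply mul_le_mul_of_nonneg_left _ hA
            rw [div_mul_eq_mul_div, div_le_iff₀ hL0]
            nlinarith
          · have h6 : Real.log (Real.log n) ≤ Real.log n := by
              have := Real.log_le_sub_one_of_pos hL0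
              linarith
            have h7 : (n:ℝ)^θ * Real.log (Real.log n) ≤ (n:ℝ)^θ * Real.log n :=
              mul_le_mul_of_nonneg_left h6 hnt0
            linarith
      _ ≤ ε * n := hfin
  · linarith

end

end H23E
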