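import Mathlib

open Polynomial Matrix
open scoped Nat

namespace H23E

noncomputable section

/-- `(D + k)^i A` -/
def Bp (k : ℤ) (A : ℤ[X]) : ℕ → ℤ[X]
  | 0 => A
  | (i+1) => derivative (Bp k A i) + C k * Bp k A i

lemma Bp_succ (k : ℤ) (A : ℤ[X]) (i : ℕ) :
    Bp k A (i+1) = derivative (Bp k A i) + C k * Bp k A i := rfl

variable {κ : ℕ}

/-- determinant of the rows `τ` -/
def Dt (k : Fin κ → ℤ) (A : Fin κ → ℤ[X]) (τ : Fin κ → ℕ) : ℤ[X] :=
  Matrix.det (Matrix.of fun a s => Bp (k s) (A s) (τ a))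

lemma derivative_Dt (k : Fin κ → ℤ) (A : Fin κ → ℤ[X]) (τ : Fin κ → ℕ) :
    derivative (Dt k A τ) + C (∑ s, k s) * Dt k A τ =
      ∑ a, Dt k A (Function.update τ a (τ a + 1)) := by
  unfold Dt
  simp only [det_apply', of_apply]
  rw [derivative_sum, Finset.mul_sum, ← Finset.sum_add_distrib, Finset.sum_comm]
  refine Finset.sum_congr rfl fun σ _ => ?_
  rw [derivative_mul]
  have h0 : derivative ((((Equiv.Perm.sign σ : ℤˣ) : ℤ) : ℤ[X])) = 0 := by
    rw [derivative_intCast]
  rw [h0, zero_mul, zero_add, derivative_prod_finset]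
  have h1 : ∀ a : Fin κ, ∏ s, Bp (k s) (A s) (Function.update τ a (τ a + 1) (σ s)) =
      (∏ s ∈ Finset.univ.erase (σ⁻¹ a), Bp (k s) (A s) (τ (σ s))) *
        Bp (k (σ⁻¹ a)) (A (σ⁻¹ a)) (τ a + 1) := by
    intro a
    rw [← Finset.prod_erase_mul _ _ (Finset.mem_univ (σ⁻¹ a))]
    congr 1
    · refine Finset.prod_congr rfl fun s hs => ?_
      have hne : σ s ≠ a := by
        intro h
        apply (Finset.mem_erase.mp hs).1
        rw [← h]; simp
      rw [Function.update_of_ne hne]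
    · simp
  simp only [h1]
  rw [← Finset.mul_sum]
  have h2 : ∑ a, (∏ s ∈ Finset.univ.erase (σ⁻¹ a), Bp (k s) (A s) (τ (σ s))) *
        Bp (k (σ⁻¹ a)) (A (σ⁻¹ a)) (τ a + 1) =
      ∑ s', (∏ s ∈ Finset.univ.erase s', Bp (k s) (A s) (τ (σ s))) *
        Bp (k s') (A s') (τ (σ s') + 1) := by
    rw [← Equiv.sum_comp σ]
    refine Finset.sum_congr rfl fun s' _ => ?_
    simp
  rw [h2]
  have h3 : ∀ s' : Fin κ, (∏ s ∈ Finset.univ.erase s', Bp (k s) (A s) (τ (σ s))) *
        Bp (k s') (A s') (τ (σ s') + 1) =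
      (∏ s ∈ Finset.univ.erase s', Bp (k s) (A s) (τ (σ s))) *
        derivative (Bp (k s') (A s') (τ (σ s'))) +
      C (k s') * ∏ s, Bp (k s) (A s) (τ (σ s)) := by
    intro s'
    rw [Bp_succ, ← Finset.prod_erase_mul _ _ (Finset.mem_univ s')]
    ring
  simp only [h3]
  rw [Finset.sum_add_distrib, ← Finset.sum_mul, map_sum]
  ring

lemma Dt_eval_zero (k : Fin κ → ℤ) (A : Fin κ → ℤ[X]) (T : ℕ) (α : ℤ) (u : Fin κ → ℤ) (hu : u ≠ 0)
    (h : ∀ i < T, ∑ s, (Bp (k s) (A s) i).eval α * u s = 0) (τ : Fin κ → ℕ) (hτ : ∀ a, τ a < T) :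
    (Dt k A τ).eval α = 0 := by
  unfold Dt
  rw [← coe_evalRingHom, RingHom.map_det]
  by_contra hne
  apply hu
  have h1 : (((evalRingHom α).mapMatrix (Matrix.of fun a s => Bp (k s) (A s) (τ a))) *ᵥ u) = 0 := by
    ext a
    simp only [mulVec, dotProduct, RingHom.mapMatrix_apply, map_apply, of_apply, coe_evalRingHom,
      Pi.zero_apply]
    exact h _ (hτ a)
  exact Matrix.eq_zero_of_mulVec_eq_zero hne h1

lemma Dt_iter_eval_zero (k : Fin κ → ℤ) (A : Fin κ → ℤ[X]) (T : ℕ) (α : ℤ) (u : Fin κ → ℤ)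
    (hu : u ≠ 0) (h : ∀ i < T, ∑ s, (Bp (k s) (A s) i).eval α * u s = 0) (r : ℕ) :
    ∀ τ : Fin κ → ℕ, (∀ a, τ a + r < T) → (derivative^[r] (Dt k A τ)).eval α = 0 := by
  induction r with
  | zero =>
    intro τ hτ
    exact Dt_eval_zero k A T α u hu h τ (fun a => by have := hτ a; omega)
  | succ r ih =>
    intro τ hτ
    rw [Function.iterate_succ_apply]
    have h1 : derivative (Dt k A τ) = (∑ a, Dt k A (Function.update τ a (τ a + 1))) -
        C (∑ s, k s) * Dt k A τ := by
      rw [← derivative_Dt]; ring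
    rw [h1, iterate_derivative_sub, iterate_derivative_sum, eval_sub, eval_finset_sum]
    rw [iterate_derivative_C_mul, eval_mul, ih τ (fun a => by have := hτ a; omega), mul_zero, sub_zero]
    refine Finset.sum_eq_zero fun a _ => ih _ fun b => ?_
    by_cases hb : b = a
    · subst hb
      rw [Function.update_self]; have := hτ b; omega
    · rw [Function.update_of_ne hb]; have := hτ b; omega

lemma Bp_natDegree_le (k : ℤ) (A : ℤ[X]) (i : ℕ) : (Bp k A i).natDegree ≤ A.natDegree := by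
  induction i with
  | zero => exact le_rfl
  | succ i ih =>
    rw [Bp_succ]
    refine (natDegree_add_le _ _).trans (max_le ?_ ?_)
    · exact (natDegree_derivative_le _).trans (by omega)
    · exact (natDegree_C_mul_le _ _).trans ih

lemma Bp_coeff_top (k : ℤ) (A : ℤ[X]) (i : ℕ) :
    (Bp k A i).coeff A.natDegree = k^i * A.leadingCoeff := by
  induction i with
  | zero => simp [Bp]
  | succ i ih =>
    rw [Bp_succ, coeff_add, coeff_C_mul, ih, coeff_derivative]
    have : (Bp k A i).coeff (A.natDegree + 1) = 0 :=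
      coeff_eq_zero_of_natDegree_lt (by have := Bp_natDegree_le k A i; omega)
    rw [this]; ring

lemma coeff_prod_top {ι : Type*} (t : Finset ι) (f : ι → ℤ[X]) (n : ι → ℕ)
    (h : ∀ i ∈ t, (f i).natDegree ≤ n i) :
    (∏ i ∈ t, f i).coeff (∑ i ∈ t, n i) = ∏ i ∈ t, (f i).coeff (n i) := by
  classical
  induction t using Finset.induction_on with
  | empty => simp
  | insert a t ha ih =>
    rw [Finset.prod_insert ha, Finset.sum_insert ha, Finset.prod_insert ha]
    rw [coeff_mul_add_eq_of_natDegree_le (h a (Finset.mem_insert_self _ _)), ih]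
    · intro i hi; exact h i (Finset.mem_insert_of_mem hi)
    · refine (natDegree_prod_le _ _).trans (Finset.sum_le_sum fun i hi => ?_)
      exact h i (Finset.mem_insert_of_mem hi)

lemma Dt_coeff_top (k : Fin κ → ℤ) (A : Fin κ → ℤ[X]) (τ : Fin κ → ℕ) :
    (Dt k A τ).coeff (∑ s, (A s).natDegree) =
      Matrix.det (Matrix.of fun a s => (k s)^(τ a) * (A s).leadingCoeff) := by
  unfold Dt
  rw [det_apply', det_apply', finset_sum_coeff]
  refine Finset.sum_congr rfl fun σ _ => ?_
  have h1 : ((((Equiv.Perm.sign σ : ℤˣ) : ℤ) : ℤ[X])) = C ((Equiv.Perm.sign σ : ℤˣ) : ℤ) := by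
    simp
  simp only [of_apply]
  rw [h1, coeff_C_mul]
  rw [coeff_prod_top _ _ (fun s => (A s).natDegree) (fun s _ => Bp_natDegree_le _ _ _)]
  congr 1
  refine Finset.prod_congr rfl fun s _ => ?_
  rw [Bp_coeff_top]

lemma Dt_ne_zero (k : Fin κ → ℤ) (hk : Function.Injective k) (A : Fin κ → ℤ[X]) (hA : ∀ s, A s ≠ 0) :
    Dt k A (fun a => (a : ℕ)) ≠ 0 := by
  intro h0
  have h1 := Dt_coeff_top k A (fun a => (a : ℕ))
  rw [h0, coeff_zero] at h1
  have h2 : (Matrix.of fun a s : Fin κ => (k s)^(a:ℕ) * (A s).leadingCoeff) =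
      (Matrix.vandermonde k)ᵀ * Matrix.diagonal (fun s => (A s).leadingCoeff) := by
    ext a s
    rw [Matrix.mul_diagonal, transpose_apply, vandermonde_apply, of_apply]
  rw [h2, det_mul, det_transpose, det_diagonal] at h1
  rcases mul_eq_zero.mp h1.symm with h | h
  · exact (det_vandermonde_ne_zero_iff.mpr hk) h
  · rw [Finset.prod_eq_zero_iff] at h
    obtain ⟨s, -, hs⟩ := h
    exact hA s (leadingCoeff_eq_zero.mp hs)

lemma Dt_natDegree_le (k : Fin κ → ℤ) (A : Fin κ → ℤ[X]) (τ : Fin κ → ℕ) (M : ℕ)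
    (hM : ∀ s, (A s).natDegree ≤ M) : (Dt k A τ).natDegree ≤ κ * M := by
  unfold Dt
  rw [det_apply']
  refine natDegree_sum_le_of_forall_le _ _ fun σ _ => ?_
  refine natDegree_mul_le.trans ?_
  rw [natDegree_intCast, zero_add]
  refine (natDegree_prod_le _ _).trans ?_
  refine (Finset.sum_le_sum (g := fun _ => M) fun s _ => ?_).trans ?_
  · exact (Bp_natDegree_le _ _ _).trans (hM s)
  · simp

/-- zero estimate -/
theorem zero_estimate (k : Fin κ → ℤ) (hk : Function.Injective k) (A : Fin κ → ℤ[X])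
    (hA : ∀ s, A s ≠ 0) (M : ℕ) (hM : ∀ s, (A s).natDegree ≤ M) (T I : ℕ) (hT : κ ≤ T) (hI : κ ≤ I)
    (hκ : 0 < κ)
    (α β : ℤ) (hαβ : α ≠ β) (u v : Fin κ → ℤ) (hu : u ≠ 0) (hv : v ≠ 0)
    (h1 : ∀ i < T, ∑ s, (Bp (k s) (A s) i).eval α * u s = 0)
    (h2 : ∀ i < I, ∑ s, (Bp (k s) (A s) i).eval β * v s = 0) :
    T + I + 2 ≤ κ * M + 2 * κ := by
  set P := Dt k A (fun a => (a : ℕ)) with hP
  have hP0 : P ≠ 0 := Dt_ne_zero k hk A hA
  have hfac : ∀ n : ℕ, (n.factorial : ℤ) ∈ nonZeroDivisors ℤ := fun n => by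
    rw [mem_nonZeroDivisors_iff_ne_zero]; exact_mod_cast n.factorial_ne_zero
  have hα : T - κ < P.rootMultiplicity α := by
    refine lt_rootMultiplicity_of_isRoot_iterate_derivative_of_mem_nonZeroDivisors hP0 ?_ (hfac _)
    intro m hm
    exact Dt_iter_eval_zero k A T α u hu h1 m _ (fun a => by have := a.2; omega)
  have hβ : I - κ < P.rootMultiplicity β := by
    refine lt_rootMultiplicity_of_isRoot_iterate_derivative_of_mem_nonZeroDivisors hP0 ?_ (hfac _)
    intro m hm
    exact Dt_iter_eval_zero k A I β v hv h2 m _ (fun a => by have := a.2; omega)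
  have hdeg := Dt_natDegree_le k A (fun a => (a : ℕ)) M hM
  have hroots : P.rootMultiplicity α + P.rootMultiplicity β ≤ P.natDegree := by
    rw [← count_roots, ← count_roots]
    refine le_trans ?_ (card_roots' P)
    have h3 : Multiset.replicate (P.roots.count α) α + Multiset.replicate (P.roots.count β) β ≤ P.roots := by
      rw [Multiset.le_iff_count]
      intro x
      rw [Multiset.count_add, Multiset.count_replicate, Multiset.count_replicate]
      by_cases hx : α = x
      · subst hx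
        rw [if_pos rfl, if_neg (Ne.symm hαβ), add_zero]
      · rw [if_neg hx, zero_add]
        by_cases hx2 : β = x
        · subst hx2; rw [if_pos rfl]
        · rw [if_neg hx2]; exact Nat.zero_le _
    have h4 := Multiset.card_le_card h3
    rw [Multiset.card_add, Multiset.card_replicate, Multiset.card_replicate] at h4
    exact h4
  rw [← hP] at hdeg
  omega

end

end H23E
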